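import Pool.Agent.V8H61.SM.Seq
import Pool.Agent.TH705.SM.CltB

set_option autoImplicit false

/-!
# Derivatives of the continued fractions along a fibre
-/

namespace Pool.Agent.V8H61.SM

open Real Finset Pool.Agent.TH705.SM

/-- the coefficients along the orbit -/
noncomputable def cs (a s t : ℝ) : ℕ → ℝ := fun i => L a (X a s i t)

/-- the derivative of `t ↦ cf (cs a s t) n j` -/
noncomputable def dcf (a s t : ℝ) : ℕ → ℕ → ℝ
  | 0, _ => 0
  | n + 1, j => -(cf (cs a s t) (n + 1) j) ^ 2 *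
      (-(4 * π ^ 2 * a * sin (2 * π * X a s j t)) * D a s j t - dcf a s t n (j + 1))

theorem cf_hasDeriv {a s t l : ℝ} (hl : 4 ≤ l) (n : ℕ) : ∀ j,
    (∀ i, j ≤ i → i < j + n → l ≤ |cs a s t i|) →
    HasDerivAt (fun t => cf (cs a s t) n j) (dcf a s t n j) t := by
  induction n with
  | zero => intro j _; exact hasDerivAt_const t 0
  | succ n ih =>
    intro j h
    have h1 := ih (j + 1) (fun i h1 h2 => h i (by omega) (by omega))
    have h2 := cf_le hl n (j + 1) (fun i h1 h2 => h i (by omega) (by omega))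
    obtain ⟨a1, a2, a3, a4⟩ := inv_le_one hl (h j le_rfl (by omega)) h2
    have n1 : cs a s t j - cf (cs a s t) n (j + 1) ≠ 0 := abs_pos.1 a2
    have h3 : HasDerivAt (fun t => cs a s t j - cf (cs a s t) n (j + 1))
        (-(4 * π ^ 2 * a * sin (2 * π * X a s j t)) * D a s j t - dcf a s t n (j + 1)) t :=
      (L_hasDeriv a s j t).sub h1
    have h4 := h3.inv n1
    have e : (fun t => cf (cs a s t) (n + 1) j) =
        (fun t => (cs a s t j - cf (cs a s t) n (j + 1))⁻¹) := by
      funext t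
      show 1 / _ = _
      rw [one_div]
    rw [e]
    refine h4.congr_deriv ?_
    show _ = -(1 / (cs a s t j - cf (cs a s t) n (j + 1))) ^ 2 * _
    field_simp

theorem dcf_le {a s t l : ℝ} (hl : 16 ≤ l) (n : ℕ) : ∀ j,
    (∀ i, j + 1 ≤ i → i < j + 1 + n → l ≤ |cs a s t i|) →
    |dcf a s t n (j + 1)| ≤ 8 / l ^ 2 * (4 * π ^ 2 * |a|) * (|D a s (j + 1) t| + |D a s j t|) := by
  have hl4 : 4 ≤ l := by linarith
  have hl0 : 0 < l := by linarith
  induction n with
  | zero =>
    intro j _
    show |(0:ℝ)| ≤ _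
    rw [abs_zero]
    positivity
  | succ n ih =>
    intro j h
    have h1 := ih (j + 1) (fun i h1 h2 => h i (by omega) (by omega))
    have hj := h (j + 1) le_rfl (by omega)
    have hcf := cf_succ_le hl4 n (j + 1) (fun i h1 h2 => h i (by omega) (by omega))
    set x := |cs a s t (j + 1)| with hx
    set d1 := |D a s (j + 1) t| with hd1
    set d0 := |D a s j t| with hd0
    set Ca := 4 * π ^ 2 * |a| with hCa
    set κ := 8 / l ^ 2 with hκ
    have hCa0 : 0 ≤ Ca := by positivity
    have hκ0 : 0 ≤ κ := by positivity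
    have hd10 : 0 ≤ d1 := abs_nonneg _
    have hd00 : 0 ≤ d0 := abs_nonneg _
    have hD2 : |D a s (j + 1 + 1) t| ≤ x * d1 + d0 := by
      have e : D a s (j + 1 + 1) t = L a (X a s (j + 1) t) * D a s (j + 1) t - D a s j t := rfl
      rw [e]
      refine (abs_sub _ _).trans ?_
      rw [abs_mul]
      exact le_rfl
    have hsin : |-(4 * π ^ 2 * a * sin (2 * π * X a s (j + 1) t)) * D a s (j + 1) t| ≤ Ca * d1 := by
      rw [abs_mul, abs_neg, abs_mul, abs_mul, abs_mul]
      have h7 := abs_sin_le_one (2 * π * X a s (j + 1) t)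
      have e3 : |(4:ℝ)| * |π ^ 2| = 4 * π ^ 2 := by
        rw [abs_of_pos (by norm_num : (0:ℝ) < 4), abs_of_pos (by positivity : 0 < π ^ 2)]
      rw [e3]
      apply mul_le_mul_of_nonneg_right _ hd10
      calc 4 * π ^ 2 * |a| * |sin (2 * π * X a s (j + 1) t)| ≤ 4 * π ^ 2 * |a| * 1 :=
            mul_le_mul_of_nonneg_left h7 (by positivity)
        _ = _ := mul_one _
    have hin : |-(4 * π ^ 2 * a * sin (2 * π * X a s (j + 1) t)) * D a s (j + 1) t -
        dcf a s t n (j + 1 + 1)| ≤ Ca * d1 + κ * Ca * ((x * d1 + d0) + d1) := by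
      refine (abs_sub _ _).trans (add_le_add hsin ?_)
      refine h1.trans ?_
      apply mul_le_mul_of_nonneg_left _ (by positivity)
      linarith
    have hy : 0 < x - 1 := by linarith
    have hcf2 : (cf (cs a s t) (n + 1) (j + 1)) ^ 2 ≤ 1 / (x - 1) ^ 2 := by
      rw [← sq_abs]
      have := pow_le_pow_left₀ (abs_nonneg _) hcf 2
      rwa [div_pow, one_pow] at this
    show |-(cf (cs a s t) (n + 1) (j + 1)) ^ 2 *
      (-(4 * π ^ 2 * a * sin (2 * π * X a s (j + 1) t)) * D a s (j + 1) t -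
        dcf a s t n (j + 1 + 1))| ≤ κ * Ca * (d1 + d0)
    rw [abs_mul, abs_neg, abs_of_nonneg (sq_nonneg _)]
    have hx16 : 16 ≤ x := hl.trans hj
    have hκx : 8 ≤ κ * x ^ 2 := by
      rw [hκ, div_mul_eq_mul_div, le_div_iff₀ (by positivity)]
      have := pow_le_pow_left₀ hl0.le hj 2
      linarith
    have k1 : 1 + κ * (x + 1) ≤ κ * (x - 1) ^ 2 := by
      have e : κ * (x - 1) ^ 2 - κ * (x + 1) = κ * x ^ 2 * (1 - 3 / x) := by
        field_simp
        ring
      have h3 : 3 / x ≤ 3 / 16 := div_le_div_of_nonneg_left (by norm_num) (by norm_num) hx16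
      nlinarith
    calc (cf (cs a s t) (n + 1) (j + 1)) ^ 2 * _ ≤
        1 / (x - 1) ^ 2 * (Ca * d1 + κ * Ca * ((x * d1 + d0) + d1)) :=
          mul_le_mul hcf2 hin (abs_nonneg _) (by positivity)
      _ = Ca * ((1 + κ * (x + 1)) * d1 + κ * d0) / (x - 1) ^ 2 := by ring
      _ ≤ κ * Ca * (d1 + d0) := by
        rw [div_le_iff₀ (by positivity)]
        have h4 : (1 + κ * (x + 1)) * d1 ≤ κ * (x - 1) ^ 2 * d1 :=
          mul_le_mul_of_nonneg_right k1 hd10
        have h5 : κ * d0 ≤ κ * (x - 1) ^ 2 * d0 := by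
          apply mul_le_mul_of_nonneg_right _ hd00
          have : 1 ≤ (x - 1) ^ 2 := by nlinarith
          nlinarith
        calc Ca * ((1 + κ * (x + 1)) * d1 + κ * d0) ≤
            Ca * (κ * (x - 1) ^ 2 * d1 + κ * (x - 1) ^ 2 * d0) :=
              mul_le_mul_of_nonneg_left (add_le_add h4 h5) hCa0
          _ = _ := by ring

/-- the function `2 x + a sin 2 π x` -/
noncomputable def F (a x : ℝ) : ℝ := 2 * x + a * sin (2 * π * x)

theorem X_succ (a s : ℝ) (k : ℕ) (t : ℝ) : X a s (k + 2) t = F a (X a s (k + 1) t) - X a s k t := by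
  show 2 * X a s (k + 1) t - X a s k t + a * sin (2 * π * X a s (k + 1) t) = _
  unfold F
  ring

theorem F_hasDeriv (a x : ℝ) : HasDerivAt (F a) (L a x) x := by
  have h2 := ((hasDerivAt_id x).const_mul (2 * π)).sin
  have h3 := ((hasDerivAt_id x).const_mul 2).add (h2.const_mul a)
  refine HasDerivAt.congr_deriv (f := F a) h3 ?_
  unfold L
  simp
  ring

theorem L_lip (a x y : ℝ) : |L a x - L a y| ≤ 4 * π ^ 2 * |a| * |x - y| := by
  have h1 := cos_lip (2 * π * x) (2 * π * y)
  have e : L a x - L a y = 2 * π * a * (cos (2 * π * x) - cos (2 * π * y)) := by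
    unfold L
    ring
  have e2 : 2 * π * x - 2 * π * y = 2 * π * (x - y) := by ring
  rw [e2, abs_mul, abs_of_pos (by positivity : 0 < 2 * π)] at h1
  rw [e, abs_mul, abs_mul, abs_of_pos (by positivity : 0 < 2 * π)]
  calc 2 * π * |a| * |cos (2 * π * x) - cos (2 * π * y)| ≤ 2 * π * |a| * (2 * π * |x - y|) :=
        mul_le_mul_of_nonneg_left h1 (by positivity)
    _ = _ := by ring

theorem F_diff (a x y : ℝ) : |F a x - F a y| ≤ (|L a y| + 4 * π ^ 2 * |a| * |x - y|) * |x - y| := by
  rcases eq_or_ne x y with h | h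
  · subst h; simp
  · obtain ⟨ξ, hξ, h2⟩ := exists_hasDerivAt_eq_slope (F a) (L a) (a := min x y) (b := max x y)
      (by rcases lt_or_gt_of_ne h with h | h <;> simp [h])
      (continuous_iff_continuousAt.2 fun z => (F_hasDeriv a z).continuousAt).continuousOn
      (fun z _ => F_hasDeriv a z)
    have h3 : |F a x - F a y| = |L a ξ| * |x - y| := by
      rcases lt_or_gt_of_ne h with h | h
      · rw [min_eq_left h.le, max_eq_right h.le] at h2
        rw [h2, abs_div, abs_sub_comm (F a y), abs_sub_comm y, div_mul_cancel₀]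
        exact abs_ne_zero.2 (by intro h0; linarith)
      · rw [min_eq_right h.le, max_eq_left h.le] at h2
        rw [h2, abs_div, div_mul_cancel₀]
        exact abs_ne_zero.2 (by intro h0; linarith)
    have h4 : |ξ - y| ≤ |x - y| := by
      rcases lt_or_gt_of_ne h with h | h
      · rw [min_eq_left h.le, max_eq_right h.le] at hξ
        rw [abs_sub_comm ξ, abs_sub_comm x, abs_of_nonneg (by linarith [hξ.2]),
          abs_of_nonneg (by linarith)]
        linarith [hξ.1]
      · rw [min_eq_right h.le, max_eq_left h.le] at hξ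
        rw [abs_of_nonneg (by linarith [hξ.1]), abs_of_nonneg (by linarith)]
        linarith [hξ.2]
    rw [h3]
    apply mul_le_mul_of_nonneg_right _ (abs_nonneg _)
    have h5 := L_lip a ξ y
    have h6 := abs_sub_abs_le_abs_sub (L a ξ) (L a y)
    have h7 : 4 * π ^ 2 * |a| * |ξ - y| ≤ 4 * π ^ 2 * |a| * |x - y| :=
      mul_le_mul_of_nonneg_left h4 (by positivity)
    linarith

/-- the majorant of the movement -/
noncomputable def em (a s u : ℝ) (k : ℕ) (e0 : ℝ) (m : ℕ) : ℝ :=
  e0 * ∏ i ∈ range m, (|cs a s u (k + 1 + i)| + 1)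

theorem em_succ (a s u : ℝ) (k : ℕ) (e0 : ℝ) (m : ℕ) :
    em a s u k e0 (m + 1) = (|cs a s u (k + 1 + m)| + 1) * em a s u k e0 m := by
  unfold em
  rw [Finset.prod_range_succ]
  ring

theorem em_nonneg {a s u : ℝ} {k : ℕ} {e0 : ℝ} (he : 0 ≤ e0) (m : ℕ) : 0 ≤ em a s u k e0 m := by
  unfold em
  apply mul_nonneg he
  apply Finset.prod_nonneg
  intro i _
  positivity

theorem move {a s u u' : ℝ} {k : ℕ} {e0 : ℝ} (he : 0 ≤ e0)
    (h0 : |X a s k u' - X a s k u| ≤ e0 / 2) (h1 : |X a s (k + 1) u' - X a s (k + 1) u| ≤ e0)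
    (m : ℕ) (hg : ∀ i, i < m → 4 ≤ |cs a s u (k + 1 + i)|)
    (hs : ∀ i, i < m → 4 * π ^ 2 * |a| * em a s u k e0 i ≤ 1 / 2) :
    |X a s (k + m) u' - X a s (k + m) u| ≤ em a s u k e0 m / 2 ∧
      |X a s (k + 1 + m) u' - X a s (k + 1 + m) u| ≤ em a s u k e0 m := by
  induction m with
  | zero =>
    have e : em a s u k e0 0 = e0 := by simp [em]
    rw [e]
    exact ⟨h0, h1⟩
  | succ m ih =>
    obtain ⟨i1, i2⟩ := ih (fun i hi => hg i (by omega)) (fun i hi => hs i (by omega))
    have hem := em_nonneg (a := a) (s := s) (u := u) (k := k) he m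
    have hgm := hg m (by omega)
    have hsm := hs m (by omega)
    rw [em_succ]
    constructor
    · rw [show k + (m + 1) = k + 1 + m by ring]
      refine i2.trans ?_
      have : 2 * em a s u k e0 m ≤ (|cs a s u (k + 1 + m)| + 1) * em a s u k e0 m :=
        mul_le_mul_of_nonneg_right (by linarith) hem
      linarith
    · rw [show k + 1 + (m + 1) = k + m + 2 by ring, X_succ, X_succ,
        show k + m + 1 = k + 1 + m by ring]
      have h3 := F_diff a (X a s (k + 1 + m) u') (X a s (k + 1 + m) u)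
      have h4 : |F a (X a s (k + 1 + m) u') - X a s (k + m) u' -
          (F a (X a s (k + 1 + m) u) - X a s (k + m) u)| ≤
          |F a (X a s (k + 1 + m) u') - F a (X a s (k + 1 + m) u)| +
            |X a s (k + m) u' - X a s (k + m) u| := by
        have e : F a (X a s (k + 1 + m) u') - X a s (k + m) u' -
          (F a (X a s (k + 1 + m) u) - X a s (k + m) u) =
          (F a (X a s (k + 1 + m) u') - F a (X a s (k + 1 + m) u)) -
            (X a s (k + m) u' - X a s (k + m) u) := by ring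
        rw [e]
        exact abs_sub _ _
      refine h4.trans ?_
      set Δ := |X a s (k + 1 + m) u' - X a s (k + 1 + m) u| with hΔ
      have hΔ0 : 0 ≤ Δ := abs_nonneg _
      have h5 : (|L a (X a s (k + 1 + m) u)| + 4 * π ^ 2 * |a| * Δ) * Δ ≤
          (|cs a s u (k + 1 + m)| + 1 / 2) * em a s u k e0 m := by
        apply mul_le_mul _ i2 hΔ0 (by positivity)
        show |cs a s u (k + 1 + m)| + _ ≤ _
        have : 4 * π ^ 2 * |a| * Δ ≤ 4 * π ^ 2 * |a| * em a s u k e0 m :=
          mul_le_mul_of_nonneg_left i2 (by positivity)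
        linarith
      nlinarith

end Pool.Agent.V8H61.SM
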