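import Pool.Agent.V8H61.SM.Cyc
import Pool.Agent.V8H61.SM.Fib

set_option autoImplicit false

/-!
# Two parameters with elliptic orbits of the same itinerary are close
-/

namespace Pool.Agent.V8H61.SM

open Real Finset Pool.Agent.TH705.SM

theorem mvt (a x y : ℝ) : ∃ z ∈ Set.uIcc x y, F a y - F a x = L a z * (y - x) := by
  rcases eq_or_ne x y with h | h
  · exact ⟨x, Set.left_mem_uIcc, by rw [h]; ring⟩
  · obtain ⟨ξ, hξ, h2⟩ := exists_hasDerivAt_eq_slope (F a) (L a) (a := min x y) (b := max x y)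
      (by rcases lt_or_gt_of_ne h with h | h <;> simp [h])
      (continuous_iff_continuousAt.2 fun z => (F_hasDeriv a z).continuousAt).continuousOn
      (fun z _ => F_hasDeriv a z)
    refine ⟨ξ, ⟨hξ.1.le, hξ.2.le⟩, ?_⟩
    rw [h2]
    rcases le_total x y with h3 | h3
    · rw [min_eq_left h3, max_eq_right h3, div_mul_cancel₀]
      exact sub_ne_zero.2 h.symm
    · rw [min_eq_right h3, max_eq_left h3]
      have : x - y ≠ 0 := sub_ne_zero.2 h
      rw [div_mul_eq_mul_div, eq_div_iff this]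
      ring

/-- the two branches: centres `0` and `1/2` -/
theorem branch {e x y z : ℝ} (he : e = 0 ∨ e = 1 / 2) (hx : |x - e| ≤ 1 / 4) (hy : |y - e| ≤ 1 / 4)
    (hz : z ∈ Set.uIcc x y) :
    min |cos (2 * π * x)| |cos (2 * π * y)| ≤ |cos (2 * π * z)| := by
  have hpi := Real.pi_pos
  have hred : ∀ t, |cos (2 * π * t)| = |cos (2 * π * (t - e))| := by
    intro t
    rcases he with he | he
    · rw [he, sub_zero]
    · rw [he, show 2 * π * (t - 1 / 2) = 2 * π * t - π by ring, cos_sub_pi, abs_neg]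
  rw [hred x, hred y, hred z]
  have hz2 : |z - e| ≤ max |x - e| |y - e| := by
    rcases Set.mem_uIcc.1 hz with ⟨h1, h2⟩ | ⟨h1, h2⟩
    · rw [abs_le]
      constructor
      · have := neg_abs_le (x - e)
        have := le_max_left |x - e| |y - e|
        linarith
      · have := le_abs_self (y - e)
        have := le_max_right |x - e| |y - e|
        linarith
    · rw [abs_le]
      constructor
      · have := neg_abs_le (y - e)
        have := le_max_right |x - e| |y - e|
        linarith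
      · have := le_abs_self (x - e)
        have := le_max_left |x - e| |y - e|
        linarith
  have hmono : ∀ s t : ℝ, |s| ≤ |t| → |t| ≤ 1 / 4 → |cos (2 * π * t)| ≤ |cos (2 * π * s)| := by
    intro s t hst ht
    have e1 : ∀ r : ℝ, cos (2 * π * r) = cos (2 * π * |r|) := by
      intro r
      rcases abs_cases r with ⟨h, _⟩ | ⟨h, _⟩ <;> rw [h]
      rw [show 2 * π * -r = -(2 * π * r) by ring, cos_neg]
    rw [e1 t, e1 s]
    have h1 : cos (2 * π * |t|) ≤ cos (2 * π * |s|) := by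
      apply Real.cos_le_cos_of_nonneg_of_le_pi (by positivity)
      · nlinarith
      · nlinarith
    have h2 : 0 ≤ cos (2 * π * |t|) := by
      apply Real.cos_nonneg_of_neg_pi_div_two_le_of_le
      · have : 0 ≤ 2 * π * |t| := by positivity
        linarith
      · nlinarith
    rw [abs_of_nonneg h2, abs_of_nonneg (h2.trans h1)]
    exact h1
  rcases le_max_iff.1 hz2 with h | h
  · exact (min_le_left _ _).trans (hmono _ _ h hx)
  · exact (min_le_right _ _).trans (hmono _ _ h hy)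

/-- near a critical point -/
theorem near_crit {k x : ℝ} (hk : k = -(1 / 4) ∨ k = 1 / 4 ∨ k = 3 / 4) (hx : |x - k| ≤ 1 / 4) :
    4 * |x - k| ≤ |cos (2 * π * x)| ∧ |sin (2 * π * x)| = cos (2 * π * (x - k)) := by
  have hpi := Real.pi_pos
  have habs : |sin (2 * π * (x - k))| = sin (2 * π * |x - k|) := by
    rcases abs_cases (x - k) with ⟨h, h0⟩ | ⟨h, h0⟩
    · rw [h]
      rw [h] at hx
      exact abs_of_nonneg (Real.sin_nonneg_of_nonneg_of_le_pi (by positivity) (by nlinarith))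
    · rw [h]
      rw [h] at hx
      rw [show 2 * π * -(x - k) = -(2 * π * (x - k)) by ring, sin_neg]
      exact abs_of_nonpos (Real.sin_nonpos_of_nonpos_of_neg_pi_le (by nlinarith) (by nlinarith))
  have hcos0 : 0 ≤ cos (2 * π * (x - k)) := by
    obtain ⟨h1, h2⟩ := abs_le.1 hx
    apply Real.cos_nonneg_of_neg_pi_div_two_le_of_le <;> nlinarith
  have hj : 4 * |x - k| ≤ sin (2 * π * |x - k|) := by
    have h1 := Real.mul_le_sin (x := 2 * π * |x - k|) (by positivity) (by nlinarith)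
    calc 4 * |x - k| = 2 / π * (2 * π * |x - k|) := by field_simp; ring
      _ ≤ _ := h1
  have h3 : |cos (2 * π * x)| = |sin (2 * π * (x - k))| ∧
      |sin (2 * π * x)| = |cos (2 * π * (x - k))| := by
    rcases hk with hk | hk | hk
    · rw [hk, show 2 * π * (x - -(1 / 4)) = 2 * π * x + π / 2 by ring, sin_add_pi_div_two,
        cos_add_pi_div_two, abs_neg]
      exact ⟨rfl, rfl⟩
    · rw [hk, show 2 * π * (x - 1 / 4) = 2 * π * x - π / 2 by ring, sin_sub_pi_div_two,
        cos_sub_pi_div_two, abs_neg]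
      exact ⟨rfl, rfl⟩
    · rw [hk, show 2 * π * (x - 3 / 4) = 2 * π * x + π / 2 - 2 * π by ring, sin_sub_two_pi,
        cos_sub_two_pi, sin_add_pi_div_two, cos_add_pi_div_two, abs_neg]
      exact ⟨rfl, rfl⟩
  constructor
  · rw [h3.1, habs]
    exact hj
  · rw [h3.2, abs_of_nonneg hcos0]

theorem cos_mvt (x y : ℝ) : ∃ z ∈ Set.uIcc x y,
    cos (2 * π * y) - cos (2 * π * x) = -(2 * π * sin (2 * π * z)) * (y - x) := by
  rcases eq_or_ne x y with h | h
  · exact ⟨x, Set.left_mem_uIcc, by rw [h]; ring⟩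
  · have hd : ∀ t, HasDerivAt (fun t : ℝ => cos (2 * π * t)) (-(2 * π * sin (2 * π * t))) t := by
      intro t
      have h2 : HasDerivAt (fun t : ℝ => 2 * π * t) (2 * π) t := by
        have := (hasDerivAt_id t).const_mul (2 * π)
        simpa using this
      refine h2.cos.congr_deriv ?_
      ring
    obtain ⟨ξ, hξ, h2⟩ := exists_hasDerivAt_eq_slope (fun t : ℝ => cos (2 * π * t))
      (fun t => -(2 * π * sin (2 * π * t))) (a := min x y) (b := max x y)
      (by rcases lt_or_gt_of_ne h with h | h <;> simp [h])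
      (continuous_iff_continuousAt.2 fun z => (hd z).continuousAt).continuousOn
      (fun z _ => hd z)
    refine ⟨ξ, ⟨hξ.1.le, hξ.2.le⟩, ?_⟩
    rw [h2]
    rcases le_total x y with h3 | h3
    · rw [min_eq_left h3, max_eq_right h3, div_mul_cancel₀]
      exact sub_ne_zero.2 h.symm
    · rw [min_eq_right h3, max_eq_left h3]
      have : x - y ≠ 0 := sub_ne_zero.2 h
      rw [div_mul_eq_mul_div, eq_div_iff this]
      ring

/-- an orbit with its itinerary -/
structure Orb {q : ℕ} [NeZero q] (a : ℝ) (ξ : ZMod q → ℝ) (m : ZMod q → ℤ) (e : ZMod q → ℝ)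
    (k : ℝ) : Prop where
  eq : ∀ i, F a (ξ i) = ξ (i - 1) + ξ (i + 1) + m i
  br : ∀ i, i ≠ 0 → |ξ i - e i| ≤ 1 / 4
  cr : |ξ 0 - k| ≤ 1 / 4
  out : ∀ i, i ≠ 0 → 4 ≤ |a * cos (2 * π * ξ i)|

theorem L_out {a x t : ℝ} (h : t ≤ |a * cos (2 * π * x)|) (ht : 0 ≤ t) :
    6.28 * t - 2 ≤ |L a x| := by
  have hpi : (3.14:ℝ) < π := Real.pi_gt_d2
  have e : L a x = 2 + 2 * π * (a * cos (2 * π * x)) := by unfold L; ring
  have h1 : |2 * π * (a * cos (2 * π * x))| - 2 ≤ |L a x| := by
    rw [e]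
    have := abs_sub_abs_le_abs_sub (2 * π * (a * cos (2 * π * x))) (-2)
    rw [abs_neg, abs_of_pos (by norm_num : (0:ℝ) < 2)] at this
    rw [show 2 + 2 * π * (a * cos (2 * π * x)) = 2 * π * (a * cos (2 * π * x)) - -2 by ring]
    exact this
  have h2 : 6.28 * t ≤ |2 * π * (a * cos (2 * π * x))| := by
    rw [abs_mul, abs_of_pos (by positivity : (0:ℝ) < 2 * π)]
    nlinarith
  linarith

theorem L_in {a x : ℝ} (h : |L a x| ≤ 6) : |a * cos (2 * π * x)| ≤ 1.3 := by
  by_contra hcon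
  rw [not_le] at hcon
  have := L_out hcon.le (by norm_num)
  norm_num at this
  linarith

/-- the position of the critical point of an elliptic orbit -/
theorem crit_pos {a k x : ℝ} (ha : 100 ≤ a) (hk : k = -(1 / 4) ∨ k = 1 / 4 ∨ k = 3 / 4)
    (hx : |x - k| ≤ 1 / 4) (hL : |L a x| ≤ 6) : a * |x - k| ≤ 0.325 ∧ |x - k| ≤ 0.00325 := by
  have h1 := L_in hL
  rw [abs_mul, abs_of_pos (by linarith)] at h1
  obtain ⟨h2, -⟩ := near_crit hk hx
  have h3 : a * (4 * |x - k|) ≤ 1.3 := (mul_le_mul_of_nonneg_left h2 (by linarith)).trans h1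
  have h4 := abs_nonneg (x - k)
  constructor
  · linarith
  · nlinarith

theorem sin_near {k x : ℝ} (hk : k = -(1 / 4) ∨ k = 1 / 4 ∨ k = 3 / 4) (hx : |x - k| ≤ 0.00325) :
    0.99 ≤ |sin (2 * π * x)| := by
  have hpi : π < 3.15 := Real.pi_lt_d2
  have hpi0 := Real.pi_pos
  rw [(near_crit hk (hx.trans (by norm_num))).2]
  have h1 := Real.one_sub_sq_div_two_le_cos (x := 2 * π * (x - k))
  have h2 : (2 * π * (x - k)) ^ 2 ≤ 0.01 := by
    rw [← sq_abs, abs_mul, abs_of_pos (by positivity : (0:ℝ) < 2 * π)]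
    have h3 : 2 * π * |x - k| ≤ 0.1 := by nlinarith [abs_nonneg (x - k)]
    calc (2 * π * |x - k|) ^ 2 ≤ 0.1 ^ 2 := pow_le_pow_left₀ (by positivity) h3 2
      _ = 0.01 := by norm_num
  linarith

theorem between {x y z k r : ℝ} (hz : z ∈ Set.uIcc x y) (hx : |x - k| ≤ r) (hy : |y - k| ≤ r) :
    |z - k| ≤ r := by
  rw [abs_le] at hx hy ⊢
  rcases Set.mem_uIcc.1 hz with ⟨h1, h2⟩ | ⟨h1, h2⟩ <;> constructor <;> linarith

theorem uIcc_dist {x y z : ℝ} (hz : z ∈ Set.uIcc x y) : |z - x| ≤ |y - x| := by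
  rcases Set.mem_uIcc.1 hz with ⟨h1, h2⟩ | ⟨h1, h2⟩
  · rw [abs_of_nonneg (by linarith), abs_of_nonneg (by linarith)]; linarith
  · rw [abs_of_nonpos (by linarith), abs_of_nonpos (by linarith)]; linarith

/-- the final computation -/
theorem final_comp {η n z : ℝ} (hη : 0 ≤ η) (hη4 : η ≤ 4) (hn : 0 ≤ n) (hz : 0 ≤ z) {u : ℝ}
    (h1 : 39 * n ≤ 2 * η + 0.00153 * z + 0.395 * ((2 * n + z) / 20))
    (h2 : u ≤ η + 39.5 * n + 0.395 * ((2 * n + z) / 20))
    (h3 : 0.89 * z ≤ u * n) (h4 : z ≤ 26) : z ≤ η ^ 2 := by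
  have hn1 : n ≤ 0.052 * η + 0.0006 * z := by linarith
  have hu1 : u ≤ 3.1 * η + 0.044 * z := by linarith
  have h5 : u * n ≤ (3.1 * η + 0.044 * z) * (0.052 * η + 0.0006 * z) := by
    calc u * n ≤ (3.1 * η + 0.044 * z) * n := mul_le_mul_of_nonneg_right hu1 hn
      _ ≤ _ := mul_le_mul_of_nonneg_left hn1 (by positivity)
  have h6 : (3.1 * η + 0.044 * z) * (0.052 * η + 0.0006 * z) =
      0.1612 * η ^ 2 + 0.004148 * (η * z) + 0.0000264 * (z * z) := by ring
  have h7 : η * z ≤ 4 * z := mul_le_mul_of_nonneg_right hη4 hz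
  have h8 : z * z ≤ 26 * z := mul_le_mul_of_nonneg_right h4 hz
  nlinarith [sq_nonneg η]

/-- **two parameters with elliptic orbits of the same itinerary** -/
theorem compare {q : ℕ} [NeZero q] {A a a' η k : ℝ} (hA : 100 ≤ A) (ha : A ≤ a) (ha2 : a ≤ A + 1)
    (ha' : A ≤ a') (ha2' : a' ≤ A + 1) {ξ ξ' e : ZMod q → ℝ} {m : ZMod q → ℤ}
    (he : ∀ i, e i = 0 ∨ e i = 1 / 2) (hk : k = -(1 / 4) ∨ k = 1 / 4 ∨ k = 3 / 4)
    (h : Orb a ξ m e k) (h' : Orb a' ξ' m e k) {w w' : ZMod q → ℝ}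
    (hw : Sol (fun i => L a (ξ i)) w) (hw' : Sol (fun i => L a' (ξ' i)) w')
    (hη : |dfc (fun i => L a (ξ i)) w| ≤ η) (hη' : |dfc (fun i => L a' (ξ' i)) w'| ≤ η)
    (hη4 : η ≤ 4) : |a' - a| ≤ η ^ 2 / A := by
  have hpi : (3.1415:ℝ) < π := Real.pi_gt_d4
  have hpi2 : π < 3.1416 := Real.pi_lt_d4
  have hη0 : 0 ≤ η := (abs_nonneg _).trans hη
  have ha0 : 0 < a := by linarith
  set c : ZMod q → ℝ := fun i => L a (ξ i) with hc
  set c' : ZMod q → ℝ := fun i => L a' (ξ' i) with hc'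
  set α := |a' - a| with hα
  have hα0 : 0 ≤ α := abs_nonneg _
  have hα1 : α ≤ 1 := by rw [hα, abs_le]; constructor <;> linarith
  set Δ : ZMod q → ℝ := fun i => ξ' i - ξ i with hΔ
  choose ζ hζ hζ2 using fun i => mvt a (ξ i) (ξ' i)
  set ct : ZMod q → ℝ := fun i => L a (ζ i) with hct
  -- lower bounds
  have l1 : ∀ i, i ≠ 0 → 22 ≤ |c i| := fun i hi => by
    have := L_out (h.out i hi) (by norm_num)
    norm_num at this
    show 22 ≤ |L a (ξ i)|
    linarith
  have l2 : ∀ i, i ≠ 0 → 22 ≤ |c' i| := fun i hi => by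
    have := L_out (h'.out i hi) (by norm_num)
    norm_num at this
    show 22 ≤ |L a' (ξ' i)|
    linarith
  have l3 : ∀ i, i ≠ 0 → 22 ≤ |ct i| := fun i hi => by
    have hb := branch (he i) (h.br i hi) (h'.br i hi) (hζ i)
    have b1 : 4 ≤ (A + 1) * |cos (2 * π * ξ i)| := by
      have := h.out i hi
      rw [abs_mul, abs_of_pos ha0] at this
      exact this.trans (mul_le_mul_of_nonneg_right ha2 (abs_nonneg _))
    have b2 : 4 ≤ (A + 1) * |cos (2 * π * ξ' i)| := by
      have := h'.out i hi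
      rw [abs_mul, abs_of_pos (by linarith)] at this
      exact this.trans (mul_le_mul_of_nonneg_right ha2' (abs_nonneg _))
    have b3 : 4 ≤ (A + 1) * |cos (2 * π * ζ i)| := by
      rcases min_le_iff.1 hb with h3 | h3
      · exact b1.trans (mul_le_mul_of_nonneg_left h3 (by linarith))
      · exact b2.trans (mul_le_mul_of_nonneg_left h3 (by linarith))
    have b4 : 3.95 ≤ |a * cos (2 * π * ζ i)| := by
      rw [abs_mul, abs_of_pos ha0]
      have h5 := abs_nonneg (cos (2 * π * ζ i))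
      nlinarith
    have := L_out b4 (by norm_num)
    norm_num at this
    show 22 ≤ |L a (ζ i)|
    linarith
  obtain ⟨wt, hwt⟩ := sol_exists (c := ct) (l := 22) (by norm_num) l3
  -- the difference equation
  have hD : ∀ i, ct i * Δ i = Δ (i - 1) + Δ (i + 1) + (-((a' - a) * sin (2 * π * ξ' i))) := by
    intro i
    have e1 := h.eq i
    have e2 := h'.eq i
    have e3 := hζ2 i
    have e4 : F a' (ξ' i) - F a (ξ' i) = (a' - a) * sin (2 * π * ξ' i) := by unfold F; ring
    show L a (ζ i) * (ξ' i - ξ i) = (ξ' (i - 1) - ξ (i - 1)) + (ξ' (i + 1) - ξ (i + 1)) +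
      (-((a' - a) * sin (2 * π * ξ' i)))
    linarith
  have hse : ∀ i, |(-((a' - a) * sin (2 * π * ξ' i)))| ≤ α := by
    intro i
    rw [abs_neg, abs_mul]
    exact mul_le_of_le_one_right (abs_nonneg _) (Real.abs_sin_le_one _)
  set N0 := |Δ 0| with hN0
  have hN00 : 0 ≤ N0 := abs_nonneg _
  have hM : ∀ i, i ≠ 0 → |Δ i| ≤ (2 * N0 + α) / 20 := by
    intro i hi
    have := max_prin (c := ct) (D := Δ) (l := 22) (by norm_num) l3 (fun i _ => hD i) hse i hi
    norm_num at this
    exact this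
  set M := (2 * N0 + α) / 20 with hMdef
  have hM0 : 0 ≤ M := by positivity
  set n := a * N0 with hn
  set z := a * α with hz
  have hn0 : 0 ≤ n := by positivity
  have hz0 : 0 ≤ z := by positivity
  have haM : a * M = (2 * n + z) / 20 := by rw [hMdef, hn, hz]; ring
  have hαz : α ≤ z / 100 := by
    rw [hz]
    nlinarith
  have hpisq : 4 * π ^ 2 ≤ 39.5 := by nlinarith
  have hpisq2 : 39.47 ≤ 4 * π ^ 2 := by nlinarith
  -- differences of the coefficients
  have hlip : ∀ x y : ℝ, |L a x - L a y| ≤ 39.5 * (a * |x - y|) := by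
    intro x y
    refine (L_lip a x y).trans ?_
    rw [abs_of_pos ha0, mul_assoc]
    exact mul_le_mul_of_nonneg_right hpisq (by positivity)
  have d1 : ∀ i, i ≠ 0 → |c' i - c i| ≤ 6.3 * α + 39.5 * (a * M) := by
    intro i hi
    have e1 : c' i - c i = 2 * π * (a' - a) * cos (2 * π * ξ' i) + (L a (ξ' i) - L a (ξ i)) := by
      show L a' (ξ' i) - L a (ξ i) = _
      unfold L
      ring
    rw [e1]
    refine (abs_add_le _ _).trans (add_le_add ?_ ?_)
    · rw [abs_mul, abs_mul, abs_of_pos (by positivity : (0:ℝ) < 2 * π)]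
      have h1 := Real.abs_cos_le_one (2 * π * ξ' i)
      have h2 : 2 * π * α * |cos (2 * π * ξ' i)| ≤ 2 * π * α * 1 :=
        mul_le_mul_of_nonneg_left h1 (by positivity)
      refine h2.trans ?_
      nlinarith
    · refine (hlip _ _).trans ?_
      have := hM i hi
      have h2 : a * |Δ i| ≤ a * M := mul_le_mul_of_nonneg_left this ha0.le
      show 39.5 * (a * |ξ' i - ξ i|) ≤ _
      linarith [h2]
  have d2 : ∀ i, |ct i - c i| ≤ 39.5 * (a * |Δ i|) := by
    intro i
    refine (hlip _ _).trans ?_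
    have := uIcc_dist (hζ i)
    have h2 : a * |ζ i - ξ i| ≤ a * |Δ i| := mul_le_mul_of_nonneg_left this ha0.le
    linarith
  -- the critical index
  have w1 : ∀ {c w : ZMod q → ℝ}, (∀ i, i ≠ 0 → 22 ≤ |c i|) → Sol c w → ∀ i, |w i| ≤ 1 := by
    intro c w hc h i
    by_cases hi : i = 0
    · rw [hi, h.one, abs_one]
    · have := sol_le (l := 22) (by norm_num) hc h i hi
      norm_num at this
      linarith
  have c0 : ∀ {c w : ZMod q → ℝ}, (∀ i, i ≠ 0 → 22 ≤ |c i|) → Sol c w →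
      |c 0 - dfc c w| ≤ 2 := by
    intro c w hc h
    have h1 := w1 hc h (-1)
    have h2 := w1 hc h 1
    have : c 0 - dfc c w = w (-1) + w 1 := by unfold dfc; ring
    rw [this]
    exact (abs_add_le _ _).trans (by linarith)
  have hc6 : |L a (ξ 0)| ≤ 6 := by
    have h1 := c0 l1 hw
    have h2 := abs_sub_abs_le_abs_sub (c 0) (dfc c w)
    show |c 0| ≤ 6
    linarith
  have hc6' : |L a' (ξ' 0)| ≤ 6 := by
    have h1 := c0 l2 hw'
    have h2 := abs_sub_abs_le_abs_sub (c' 0) (dfc c' w')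
    show |c' 0| ≤ 6
    linarith
  obtain ⟨p1, p2⟩ := crit_pos (by linarith) hk h.cr hc6
  obtain ⟨p1', p2'⟩ := crit_pos (by linarith) hk h'.cr hc6'
  have hn66 : n ≤ 0.66 := by
    have h1 : N0 ≤ |ξ' 0 - k| + |ξ 0 - k| := by
      have : Δ 0 = (ξ' 0 - k) - (ξ 0 - k) := by show ξ' 0 - ξ 0 = _; ring
      rw [hN0, this]
      exact abs_sub _ _
    have h2 : a * |ξ' 0 - k| ≤ 0.33 := by
      have h3 : a ≤ a' * 1.01 := by linarith
      have h4 := abs_nonneg (ξ' 0 - k)
      nlinarith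
    rw [hn]
    nlinarith
  -- first estimate
  have hp0 : 39 * n ≤ |c' 0 - c 0| + 0.09 * α := by
    obtain ⟨y, hy, hy2⟩ := cos_mvt (ξ 0) (ξ' 0)
    have hyk := between hy p2 p2'
    have hs := sin_near hk hyk
    have e1 : c' 0 - c 0 = 2 * π * (a' - a) * cos (2 * π * ξ' 0) +
        2 * π * a * (cos (2 * π * ξ' 0) - cos (2 * π * ξ 0)) := by
      show L a' (ξ' 0) - L a (ξ 0) = _
      unfold L
      ring
    have h1 : |2 * π * (a' - a) * cos (2 * π * ξ' 0)| ≤ 0.09 * α := by
      rw [abs_mul, abs_mul, abs_of_pos (by positivity : (0:ℝ) < 2 * π)]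
      have h2 := L_in hc6'
      rw [abs_mul, abs_of_pos (by linarith : 0 < a')] at h2
      have h3 := abs_nonneg (cos (2 * π * ξ' 0))
      have h4 : |cos (2 * π * ξ' 0)| ≤ 0.013 := by nlinarith
      have h5 : 2 * π * α * |cos (2 * π * ξ' 0)| ≤ 2 * π * α * 0.013 :=
        mul_le_mul_of_nonneg_left h4 (by positivity)
      refine h5.trans ?_
      nlinarith
    have h2 : 39 * n ≤ |2 * π * a * (cos (2 * π * ξ' 0) - cos (2 * π * ξ 0))| := by
      rw [hy2]
      have e2 : 2 * π * a * (-(2 * π * sin (2 * π * y)) * (ξ' 0 - ξ 0)) =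
          -(4 * π ^ 2 * sin (2 * π * y) * (a * Δ 0)) := by
        show _ = -(4 * π ^ 2 * sin (2 * π * y) * (a * (ξ' 0 - ξ 0)))
        ring
      rw [e2, abs_neg, abs_mul, abs_mul, abs_mul a, abs_of_pos (by positivity : (0:ℝ) < 4 * π ^ 2),
        abs_of_pos ha0]
      show 39 * n ≤ 4 * π ^ 2 * |sin (2 * π * y)| * n
      apply mul_le_mul_of_nonneg_right _ hn0
      nlinarith
    have h3 : |2 * π * a * (cos (2 * π * ξ' 0) - cos (2 * π * ξ 0))| ≤ |c' 0 - c 0| +
        |2 * π * (a' - a) * cos (2 * π * ξ' 0)| := by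
      rw [e1]
      have := abs_sub (2 * π * (a' - a) * cos (2 * π * ξ' 0) +
        2 * π * a * (cos (2 * π * ξ' 0) - cos (2 * π * ξ 0))) (2 * π * (a' - a) * cos (2 * π * ξ' 0))
      rwa [add_sub_cancel_left] at this
    linarith
  have hdiff := dfc_diff hw hw'
  rw [← Finset.add_sum_erase _ _ (Finset.mem_univ (0 : ZMod q)), hw.one, hw'.one, one_mul,
    one_mul] at hdiff
  have htail := tail_le (l := 22) (d := fun i => c' i - c i) (by norm_num) l1 l2 hw hw' d1
    (by positivity)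
  have e20 : ((2:ℝ) / (22 - 2)) ^ 2 = 1 / 100 := by norm_num
  rw [e20] at htail
  have f1 : 39 * n ≤ 2 * η + 0.00153 * z + 0.395 * ((2 * n + z) / 20) := by
    have h1 : |c' 0 - c 0| ≤ 2 * η + 1 / 100 * (6.3 * α + 39.5 * (a * M)) := by
      have e : c' 0 - c 0 = dfc c' w' - dfc c w -
          ∑ i ∈ univ.erase 0, w i * w' i * (c' i - c i) := by linarith
      rw [e]
      refine (abs_sub _ _).trans (add_le_add ((abs_sub _ _).trans (by linarith)) htail)
    rw [haM] at h1
    linarith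
  -- second estimate
  have hdiff2 := dfc_diff hw hwt
  rw [← Finset.add_sum_erase _ _ (Finset.mem_univ (0 : ZMod q)), hw.one, hwt.one, one_mul,
    one_mul] at hdiff2
  have htail2 := tail_le (l := 22) (d := fun i => ct i - c i) (R := 39.5 * (a * M)) (by norm_num)
    l1 l3 hw hwt (fun i hi => (d2 i).trans (by
      have := hM i hi
      have h2 : a * |Δ i| ≤ a * M := mul_le_mul_of_nonneg_left this ha0.le
      linarith)) (by positivity)
  rw [e20] at htail2
  set u := |dfc ct wt| with hu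
  have f2 : u ≤ η + 39.5 * n + 0.395 * ((2 * n + z) / 20) := by
    have e : dfc ct wt = dfc c w + ((ct 0 - c 0) +
        ∑ i ∈ univ.erase 0, w i * wt i * (ct i - c i)) := by linarith
    have h1 := d2 0
    rw [hu, e]
    have h2 := (abs_add_le (dfc c w) ((ct 0 - c 0) +
        ∑ i ∈ univ.erase 0, w i * wt i * (ct i - c i)))
    have h3 := abs_add_le (ct 0 - c 0) (∑ i ∈ univ.erase 0, w i * wt i * (ct i - c i))
    rw [haM] at htail2
    have h4 : a * |Δ 0| = n := rfl
    rw [h4] at h1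
    linarith
  -- third estimate
  have f3 : 0.89 * z ≤ u * n := by
    have hg := green hwt hD
    rw [← Finset.add_sum_erase _ _ (Finset.mem_univ (0 : ZMod q)), hwt.one, one_mul] at hg
    have hs : |∑ i ∈ univ.erase 0, wt i * (-((a' - a) * sin (2 * π * ξ' i)))| ≤ 0.1 * α := by
      refine (Finset.abs_sum_le_sum_abs _ _).trans ?_
      have h1 := sol_sum (l := 22) (by norm_num) l3 hwt
      calc ∑ i ∈ univ.erase 0, |wt i * (-((a' - a) * sin (2 * π * ξ' i)))| ≤
          ∑ i ∈ univ.erase 0, |wt i| * α := by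
            apply Finset.sum_le_sum
            intro i _
            rw [abs_mul]
            exact mul_le_mul_of_nonneg_left (hse i) (abs_nonneg _)
        _ = (∑ i ∈ univ.erase 0, |wt i|) * α := by rw [Finset.sum_mul]
        _ ≤ 0.1 * α := by
          apply mul_le_mul_of_nonneg_right _ hα0
          refine h1.trans (by norm_num)
    have hs0 : 0.99 * α ≤ |(-((a' - a) * sin (2 * π * ξ' 0)))| := by
      rw [abs_neg, abs_mul]
      have := sin_near hk p2'
      rw [mul_comm]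
      exact mul_le_mul_of_nonneg_left this (abs_nonneg _)
    have h1 : 0.89 * α ≤ |Δ 0 * dfc ct wt| := by
      rw [hg]
      have h2 := abs_sub_abs_le_abs_sub (-((a' - a) * sin (2 * π * ξ' 0)))
        (-(∑ i ∈ univ.erase 0, wt i * (-((a' - a) * sin (2 * π * ξ' i)))))
      rw [abs_neg (∑ i ∈ univ.erase 0, wt i * (-((a' - a) * sin (2 * π * ξ' i)))),
        sub_neg_eq_add] at h2
      linarith
    rw [abs_mul] at h1
    have h2 : a * (0.89 * α) ≤ a * (|Δ 0| * |dfc ct wt|) := mul_le_mul_of_nonneg_left h1 ha0.le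
    calc 0.89 * z = a * (0.89 * α) := by rw [hz]; ring
      _ ≤ a * (|Δ 0| * |dfc ct wt|) := h2
      _ = u * n := by rw [hu, hn]; ring
  have f4 : z ≤ 26 := by
    have h1 := c0 l3 hwt
    have h2 := d2 0
    have h4 : a * |Δ 0| = n := rfl
    rw [h4] at h2
    have h3 : u ≤ 35 := by
      have e : dfc ct wt = -(ct 0 - dfc ct wt) + (ct 0 - c 0) + c 0 := by ring
      have h5 : |dfc ct wt| ≤ |-(ct 0 - dfc ct wt)| + |ct 0 - c 0| + |c 0| := by
        conv_lhs => rw [e]
        exact (abs_add_le _ _).trans (add_le_add (abs_add_le _ _) le_rfl)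
      rw [abs_neg] at h5
      have h6 : |c 0| ≤ 6 := hc6
      rw [hu]
      linarith
    have h7 : u * n ≤ 35 * 0.66 := mul_le_mul h3 hn66 hn0 (by norm_num)
    linarith
  have hfin := final_comp hη0 hη4 hn0 hz0 f1 f2 f3 f4
  rw [le_div_iff₀ (by linarith)]
  calc α * A ≤ α * a := mul_le_mul_of_nonneg_left ha hα0
    _ = z := by rw [hz]; ring
    _ ≤ η ^ 2 := hfin

end Pool.Agent.V8H61.SM
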