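import Mathlib

set_option autoImplicit false

/-!
# Cyclic three-term recurrences
-/

namespace Pool.Agent.V8H61.SM

open Finset

variable {q : ℕ} [NeZero q]

/-- the solution off the index `0` -/
structure Sol (c w : ZMod q → ℝ) : Prop where
  one : w 0 = 1
  eq : ∀ i, i ≠ 0 → c i * w i = w (i - 1) + w (i + 1)

/-- the defect at the index `0` -/
def dfc (c w : ZMod q → ℝ) : ℝ := c 0 - w (-1) - w 1

theorem sum_shift (f : ZMod q → ℝ) (j : ZMod q) : ∑ i, f (i + j) = ∑ i, f i :=
  Equiv.sum_comp (Equiv.addRight j) f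

/-- bound for the sum -/
theorem sol_sum {c w : ZMod q → ℝ} {l : ℝ} (hl : 2 < l) (hc : ∀ i, i ≠ 0 → l ≤ |c i|)
    (h : Sol c w) : ∑ i ∈ univ.erase 0, |w i| ≤ 2 / (l - 2) := by
  have h1 : ∀ i ∈ univ.erase (0 : ZMod q), l * |w i| ≤ |w (i - 1)| + |w (i + 1)| := by
    intro i hi
    have hi0 : i ≠ 0 := Finset.ne_of_mem_erase hi
    have h2 := h.eq i hi0
    calc l * |w i| ≤ |c i| * |w i| := mul_le_mul_of_nonneg_right (hc i hi0) (abs_nonneg _)
      _ = |w (i - 1) + w (i + 1)| := by rw [← abs_mul, h2]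
      _ ≤ _ := abs_add_le _ _
  have h2 := Finset.sum_le_sum h1
  rw [← Finset.mul_sum, Finset.sum_add_distrib] at h2
  have h0 : |w 0| = 1 := by rw [h.one, abs_one]
  have htot : ∑ i, |w i| = 1 + ∑ i ∈ univ.erase 0, |w i| := by
    rw [← Finset.add_sum_erase _ _ (Finset.mem_univ (0 : ZMod q)), h0]
  have h3 : ∑ i ∈ univ.erase (0 : ZMod q), |w (i - 1)| ≤ ∑ i, |w i| := by
    calc ∑ i ∈ univ.erase (0 : ZMod q), |w (i - 1)| ≤ ∑ i, |w (i - 1)| :=
          Finset.sum_le_sum_of_subset_of_nonneg (Finset.erase_subset _ _) fun _ _ _ => abs_nonneg _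
      _ = _ := by simpa [sub_eq_add_neg] using sum_shift (fun i => |w i|) (-1)
  have h4 : ∑ i ∈ univ.erase (0 : ZMod q), |w (i + 1)| ≤ ∑ i, |w i| := by
    calc ∑ i ∈ univ.erase (0 : ZMod q), |w (i + 1)| ≤ ∑ i, |w (i + 1)| :=
          Finset.sum_le_sum_of_subset_of_nonneg (Finset.erase_subset _ _) fun _ _ _ => abs_nonneg _
      _ = _ := sum_shift (fun i => |w i|) 1
  rw [le_div_iff₀ (by linarith)]
  nlinarith

theorem sol_le {c w : ZMod q → ℝ} {l : ℝ} (hl : 2 < l) (hc : ∀ i, i ≠ 0 → l ≤ |c i|)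
    (h : Sol c w) (i : ZMod q) (hi : i ≠ 0) : |w i| ≤ 2 / (l - 2) :=
  (Finset.single_le_sum (f := fun i => |w i|) (fun _ _ => abs_nonneg _)
    (Finset.mem_erase.2 ⟨hi, Finset.mem_univ i⟩)).trans (sol_sum hl hc h)

/-- maximum principle -/
theorem max_prin {c D e : ZMod q → ℝ} {l α : ℝ} (hl : 2 < l) (hc : ∀ i, i ≠ 0 → l ≤ |c i|)
    (hD : ∀ i, i ≠ 0 → c i * D i = D (i - 1) + D (i + 1) + e i) (he : ∀ i, |e i| ≤ α)
    (i : ZMod q) (hi : i ≠ 0) : |D i| ≤ (2 * |D 0| + α) / (l - 2) := by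
  have hα : 0 ≤ α := (abs_nonneg _).trans (he 0)
  have hb : ∀ i, i ≠ 0 → l * |D i| ≤ |D (i - 1)| + |D (i + 1)| + α := by
    intro i hi
    have h2 := hD i hi
    calc l * |D i| ≤ |c i| * |D i| := mul_le_mul_of_nonneg_right (hc i hi) (abs_nonneg _)
      _ = |D (i - 1) + D (i + 1) + e i| := by rw [← abs_mul, h2]
      _ ≤ |D (i - 1) + D (i + 1)| + |e i| := abs_add_le _ _
      _ ≤ _ := add_le_add (abs_add_le _ _) (he i)
  obtain ⟨j, hj⟩ := Finite.exists_max (fun i : ZMod q => |D i|)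
  rw [le_div_iff₀ (by linarith)]
  have h0 := abs_nonneg (D 0)
  by_cases hj0 : j = 0
  · rw [hj0] at hj
    have h1 := hb i hi
    have h2 := hj (i - 1)
    have h3 := hj (i + 1)
    have h4 := abs_nonneg (D i)
    nlinarith
  · have h1 := hb j hj0
    have h2 := hj (j - 1)
    have h3 := hj (j + 1)
    have h4 := hj i
    nlinarith

/-- existence -/
theorem sol_exists {c : ZMod q → ℝ} {l : ℝ} (hl : 2 < l) (hc : ∀ i, i ≠ 0 → l ≤ |c i|) :
    ∃ w, Sol c w := by
  classical
  let Λ : (ZMod q → ℝ) →ₗ[ℝ] (ZMod q → ℝ) :=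
    { toFun := fun w i => if i = 0 then w 0 else c i * w i - w (i - 1) - w (i + 1)
      map_add' := by
        intro v w
        funext i
        simp only [Pi.add_apply]
        split_ifs <;> ring
      map_smul' := by
        intro r w
        funext i
        simp only [Pi.smul_apply, smul_eq_mul, RingHom.id_apply]
        split_ifs <;> ring }
  have hinj : Function.Injective Λ := by
    rw [← LinearMap.ker_eq_bot, LinearMap.ker_eq_bot']
    intro w hw
    have h0 : w 0 = 0 := by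
      have := congrFun hw 0
      simpa [Λ] using this
    have h1 : ∀ i, i ≠ 0 → c i * w i = w (i - 1) + w (i + 1) + 0 := by
      intro i hi
      have h2 := congrFun hw i
      simp only [Λ, LinearMap.coe_mk, AddHom.coe_mk, if_neg hi, Pi.zero_apply] at h2
      linarith
    funext i
    by_cases hi : i = 0
    · rw [hi, h0]; rfl
    · have h3 := max_prin (e := fun _ => 0) (α := 0) hl hc h1 (fun _ => by simp) i hi
      rw [h0] at h3
      simp only [abs_zero, mul_zero, add_zero, zero_div] at h3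
      exact abs_nonpos_iff.1 h3
  have hsurj : Function.Surjective Λ := LinearMap.injective_iff_surjective.1 hinj
  obtain ⟨w, hw⟩ := hsurj (fun i => if i = 0 then 1 else 0)
  refine ⟨w, ?_, ?_⟩
  · have := congrFun hw 0
    simpa [Λ] using this
  · intro i hi
    have h2 := congrFun hw i
    simp only [Λ, LinearMap.coe_mk, AddHom.coe_mk, if_neg hi] at h2
    linarith

/-- Green's identity -/
theorem green {c w D e : ZMod q → ℝ} (h : Sol c w)
    (hD : ∀ i, c i * D i = D (i - 1) + D (i + 1) + e i) : D 0 * dfc c w = ∑ i, w i * e i := by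
  have h1 : ∑ i, w i * (c i * D i) = ∑ i, w i * D (i - 1) + ∑ i, w i * D (i + 1) +
      ∑ i, w i * e i := by
    rw [← Finset.sum_add_distrib, ← Finset.sum_add_distrib]
    apply Finset.sum_congr rfl
    intro i _
    rw [hD i]; ring
  have h2 : ∑ i, w i * D (i - 1) = ∑ i, w (i + 1) * D i := by
    have := sum_shift (fun i => w i * D (i - 1)) 1
    simpa using this.symm
  have h3 : ∑ i, w i * D (i + 1) = ∑ i, w (i - 1) * D i := by
    have := sum_shift (fun i => w (i - 1) * D i) 1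
    simpa using this
  have h4 : ∑ i, w i * (c i * D i) - ∑ i, w (i + 1) * D i - ∑ i, w (i - 1) * D i =
      ∑ i, (c i * w i - w (i - 1) - w (i + 1)) * D i := by
    rw [← Finset.sum_sub_distrib, ← Finset.sum_sub_distrib]
    apply Finset.sum_congr rfl
    intro i _
    ring
  have h5 : ∑ i, (c i * w i - w (i - 1) - w (i + 1)) * D i = D 0 * dfc c w := by
    rw [← Finset.add_sum_erase _ _ (Finset.mem_univ (0 : ZMod q))]
    have : ∑ i ∈ univ.erase (0 : ZMod q), (c i * w i - w (i - 1) - w (i + 1)) * D i = 0 := by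
      apply Finset.sum_eq_zero
      intro i hi
      rw [h.eq i (Finset.ne_of_mem_erase hi)]
      ring
    rw [this, h.one]
    unfold dfc
    rw [zero_sub, zero_add]
    ring
  linarith

/-- comparison of two defects -/
theorem dfc_diff {c c' w w' : ZMod q → ℝ} (h : Sol c w) (h' : Sol c' w') :
    dfc c' w' - dfc c w = ∑ i, w i * w' i * (c' i - c i) := by
  classical
  have hD : ∀ i, c i * w' i = w' (i - 1) + w' (i + 1) +
      ((c i - c' i) * w' i + if i = 0 then dfc c' w' else 0) := by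
    intro i
    by_cases hi : i = 0
    · rw [if_pos hi, hi, h'.one]
      unfold dfc
      rw [zero_sub, zero_add]
      ring
    · rw [if_neg hi]
      have := h'.eq i hi
      linarith
  have hg := green h hD
  rw [h'.one, one_mul] at hg
  have e : ∑ i, w i * ((c i - c' i) * w' i + if i = 0 then dfc c' w' else 0) =
      ∑ i, w i * w' i * (c i - c' i) + dfc c' w' := by
    have : ∀ i, w i * ((c i - c' i) * w' i + if i = 0 then dfc c' w' else 0) =
        w i * w' i * (c i - c' i) + if i = 0 then w i * dfc c' w' else 0 := by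
      intro i
      split_ifs <;> ring
    simp_rw [this]
    rw [Finset.sum_add_distrib, Finset.sum_ite_eq' univ (0 : ZMod q), if_pos (Finset.mem_univ _),
      h.one, one_mul]
  rw [e] at hg
  have e2 : ∑ i, w i * w' i * (c' i - c i) = - ∑ i, w i * w' i * (c i - c' i) := by
    rw [← Finset.sum_neg_distrib]
    apply Finset.sum_congr rfl
    intro i _
    ring
  rw [e2]
  linarith

/-- the tail of the comparison sum -/
theorem tail_le {c c' w w' : ZMod q → ℝ} {l R : ℝ} (hl : 2 < l) (hc : ∀ i, i ≠ 0 → l ≤ |c i|)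
    (hc' : ∀ i, i ≠ 0 → l ≤ |c' i|) (h : Sol c w) (h' : Sol c' w')
    {d : ZMod q → ℝ} (hR : ∀ i, i ≠ 0 → |d i| ≤ R) (hR0 : 0 ≤ R) :
    |∑ i ∈ univ.erase 0, w i * w' i * d i| ≤ (2 / (l - 2)) ^ 2 * R := by
  have hε : 0 ≤ 2 / (l - 2) := div_nonneg (by norm_num) (by linarith)
  refine (Finset.abs_sum_le_sum_abs _ _).trans ?_
  have h1 : ∀ i ∈ univ.erase (0 : ZMod q), |w i * w' i * d i| ≤ |w i| * (2 / (l - 2) * R) := by
    intro i hi
    have hi0 := Finset.ne_of_mem_erase hi
    rw [abs_mul, abs_mul, mul_assoc]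
    apply mul_le_mul_of_nonneg_left _ (abs_nonneg _)
    exact mul_le_mul (sol_le hl hc' h' i hi0) (hR i hi0) (abs_nonneg _) hε
  refine (Finset.sum_le_sum h1).trans ?_
  rw [← Finset.sum_mul]
  calc (∑ i ∈ univ.erase 0, |w i|) * (2 / (l - 2) * R) ≤ 2 / (l - 2) * (2 / (l - 2) * R) :=
        mul_le_mul_of_nonneg_right (sol_sum hl hc h) (by positivity)
    _ = _ := by ring

/-- the solution `0, 1, …` -/
def Dr (c : ℕ → ℝ) : ℕ → ℝ
  | 0 => 0
  | 1 => 1
  | k + 2 => c (k + 1) * Dr c (k + 1) - Dr c k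

/-- the solution `1, c 0, …` -/
def Ar (c : ℕ → ℝ) : ℕ → ℝ
  | 0 => 1
  | 1 => c 0
  | k + 2 => c (k + 1) * Ar c (k + 1) - Ar c k

theorem wronski (c : ℕ → ℝ) (k : ℕ) : Ar c k * Dr c (k + 1) - Ar c (k + 1) * Dr c k = 1 := by
  induction k with
  | zero => simp [Ar, Dr]
  | succ k ih =>
    show Ar c (k + 1) * (c (k + 1) * Dr c (k + 1) - Dr c k) -
      (c (k + 1) * Ar c (k + 1) - Ar c k) * Dr c (k + 1) = 1
    linarith

/-- the trace -/
theorem trace_eq {c w : ZMod q → ℝ} (h : Sol c w) :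
    dfc c w * Dr (fun k => c (k : ZMod q)) q =
      Ar (fun k => c (k : ZMod q)) q - Dr (fun k => c (k : ZMod q)) (q - 1) - 2 := by
  have hq : 1 ≤ q := Nat.one_le_iff_ne_zero.2 (NeZero.ne q)
  set C : ℕ → ℝ := fun k => c (k : ZMod q) with hC
  have hw : ∀ k, k ≤ q → w (k : ZMod q) = Ar C k + (w 1 - c 0) * Dr C k := by
    intro k
    induction k using Nat.strong_induction_on with
    | _ k ih =>
      match k with
      | 0 => intro _; simp [Ar, Dr, h.one]
      | 1 => intro _; simp [Ar, Dr, hC]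
      | k + 2 =>
        intro hk
        have hne : ((k + 1 : ℕ) : ZMod q) ≠ 0 := by
          rw [Ne, ZMod.natCast_eq_zero_iff]
          intro hd
          have := Nat.le_of_dvd (by omega) hd
          omega
        have h1 := h.eq _ hne
        have e1 : ((k + 1 : ℕ) : ZMod q) - 1 = (k : ZMod q) := by push_cast; ring
        have e2 : ((k + 1 : ℕ) : ZMod q) + 1 = ((k + 2 : ℕ) : ZMod q) := by push_cast; ring
        rw [e1, e2, ih k (by omega) (by omega), ih (k + 1) (by omega) (by omega)] at h1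
        show w ((k + 2 : ℕ) : ZMod q) = (C (k + 1) * Ar C (k + 1) - Ar C k) +
          (w 1 - c 0) * (C (k + 1) * Dr C (k + 1) - Dr C k)
        have e3 : C (k + 1) = c ((k + 1 : ℕ) : ZMod q) := rfl
        rw [e3]
        linarith
  have hq1 := hw q le_rfl
  rw [ZMod.natCast_self, h.one] at hq1
  have hq2 := hw (q - 1) (by omega)
  have e4 : ((q - 1 : ℕ) : ZMod q) = -1 := by
    rw [Nat.cast_sub hq, ZMod.natCast_self]
    simp
  rw [e4] at hq2
  have hwr := wronski C (q - 1)
  rw [Nat.sub_add_cancel hq] at hwr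
  unfold dfc
  rw [hq2]
  linear_combination (1 + Dr C (q - 1)) * hq1 - hwr

theorem Dr_ge {C : ℕ → ℝ} (n : ℕ) (h : ∀ k, 1 ≤ k → k ≤ n → 2 ≤ |C k|) :
    ∏ k ∈ range n, (|C (k + 1)| - 1) ≤ |Dr C (n + 1)| ∧ |Dr C n| ≤ |Dr C (n + 1)| := by
  induction n with
  | zero => simp [Dr]
  | succ n ih =>
    obtain ⟨h1, h2⟩ := ih fun k hk hk' => h k hk (by omega)
    have hc := h (n + 1) (by omega) le_rfl
    have h3 : |C (n + 1)| * |Dr C (n + 1)| - |Dr C n| ≤ |Dr C (n + 2)| := by
      show _ ≤ |C (n + 1) * Dr C (n + 1) - Dr C n|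
      rw [← abs_mul]
      exact abs_sub_abs_le_abs_sub _ _
    have h4 : (|C (n + 1)| - 1) * |Dr C (n + 1)| ≤ |Dr C (n + 2)| := by linarith
    have h5 := abs_nonneg (Dr C (n + 1))
    constructor
    · rw [Finset.prod_range_succ, mul_comm]
      exact (mul_le_mul_of_nonneg_left h1 (by linarith)).trans h4
    · refine le_trans ?_ h4
      nlinarith

theorem prod_zmod (g : ZMod q → ℝ) : ∏ i, g i = ∏ k ∈ range q, g (k : ZMod q) := by
  refine Finset.prod_nbij' (fun i => i.val) (fun k => (k : ZMod q)) ?_ ?_ ?_ ?_ ?_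
  · intro i _
    exact Finset.mem_range.2 (ZMod.val_lt i)
  · intro k _
    exact Finset.mem_univ _
  · intro i _
    exact ZMod.natCast_zmod_val i
  · intro k hk
    exact ZMod.val_cast_of_lt (Finset.mem_range.1 hk)
  · intro i _
    rw [ZMod.natCast_zmod_val]

/-- the lower bound in the cyclic notation -/
theorem Dr_ge_zmod {c : ZMod q → ℝ} (h : ∀ i, i ≠ 0 → 2 ≤ |c i|) :
    ∏ i, (if i = 0 then 1 else |c i| - 1) ≤ |Dr (fun k => c (k : ZMod q)) q| := by
  have hq : 1 ≤ q := Nat.one_le_iff_ne_zero.2 (NeZero.ne q)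
  have hne : ∀ k, 1 ≤ k → k ≤ q - 1 → ((k : ℕ) : ZMod q) ≠ 0 := by
    intro k h1 h2
    rw [Ne, ZMod.natCast_eq_zero_iff]
    intro hd
    have := Nat.le_of_dvd (by omega) hd
    omega
  have h1 := (Dr_ge (C := fun k => c (k : ZMod q)) (q - 1) fun k h1 h2 => h _ (hne k h1 h2)).1
  rw [Nat.sub_add_cancel hq] at h1
  refine le_trans (le_of_eq ?_) h1
  have hr : range q = range (q - 1 + 1) := by rw [Nat.sub_add_cancel hq]
  rw [prod_zmod, hr, Finset.prod_range_succ', Nat.cast_zero, if_pos rfl, mul_one]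
  apply Finset.prod_congr rfl
  intro k hk
  rw [Finset.mem_range] at hk
  rw [if_neg (hne (k + 1) (by omega) (by omega))]

end Pool.Agent.V8H61.SM
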