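import Pool.Agent.V8H61.SM.Ev

set_option autoImplicit false

/-!
# Growth outside the bad events
-/

namespace Pool.Agent.V8H61.SM

open Real Finset MeasureTheory Function Pool.Agent.TH705.SM
open Pool.Agent.V1152.SMI (cc cc_coe cc_cont)

theorem X_shift (a s t : ℝ) (k : ℕ) (i : ℕ) :
    X a (X a s k t) i (X a s (k + 1) t) = X a s (k + i) t := by
  induction i using Nat.strong_induction_on with
  | _ i ih =>
    match i with
    | 0 => rfl
    | 1 => rfl
    | i + 2 =>
      rw [X_succ, ih (i + 1) (by omega), ih i (by omega), show k + (i + 2) = (k + i) + 2 by ring,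
        X_succ]
      rfl

theorem X_back (a s t : ℝ) {m : ℕ} (hm : 1 ≤ m) (i : ℕ) (hi : i ≤ m) :
    X a (X a s m t) i (F a (X a s m t) - X a s (m + 1) t) = X a s (m - i) t := by
  obtain ⟨m, rfl⟩ : ∃ m', m = m' + 1 := ⟨m - 1, by omega⟩
  induction i using Nat.strong_induction_on with
  | _ i ih =>
    match i with
    | 0 => rfl
    | 1 =>
      show F a (X a s (m + 1) t) - X a s (m + 1 + 1) t = X a s (m + 1 - 1) t
      rw [show m + 1 + 1 = m + 2 by ring, X_succ, Nat.add_sub_cancel]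
      ring
    | i + 2 =>
      rw [X_succ, ih (i + 1) (by omega) (by omega), ih i (by omega) (by omega)]
      have e1 : m + 1 - i = (m - 1 - i) + 2 := by omega
      have e2 : m + 1 - (i + 1) = (m - 1 - i) + 1 := by omega
      have e3 : m + 1 - (i + 2) = m - 1 - i := by omega
      rw [e1, e2, e3, X_succ]
      ring

theorem cf_congr {c c' : ℕ → ℝ} (n : ℕ) : ∀ j j', (∀ i, i < n → c' (j + i) = c (j' + i)) →
    cf c' n j = cf c n j' := by
  induction n with
  | zero => intro j j' _; rfl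
  | succ n ih =>
    intro j j' h
    show 1 / (c' j - cf c' n (j + 1)) = 1 / (c j' - cf c n (j' + 1))
    have h0 := h 0 (by omega)
    rw [add_zero, add_zero] at h0
    rw [h0, ih (j + 1) (j' + 1) (fun i hi => by
      have := h (i + 1) (by omega)
      rwa [show j + 1 + i = j + (i + 1) by ring, show j' + 1 + i = j' + (i + 1) by ring])]

theorem ric_cf {c c' : ℕ → ℝ} (b n : ℕ) : ∀ j, (∀ i, i < n → c' (j + i) = c (b + n - 1 - i)) →
    ric c b 0 n = cf c' n j := by
  induction n with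
  | zero => intro j _; rfl
  | succ n ih =>
    intro j h
    show 1 / (c (b + n) - ric c b 0 n) = 1 / (c' j - cf c' n (j + 1))
    have h0 := h 0 (by omega)
    rw [add_zero, show b + (n + 1) - 1 - 0 = b + n by omega] at h0
    rw [h0, ih (j + 1) (fun i hi => by
      have := h (i + 1) (by omega)
      rwa [show j + (i + 1) = j + 1 + i by ring, show b + (n + 1) - 1 - (i + 1) = b + n - 1 - i by omega]
        at this)]

/-- the growth, for a point outside the bad events -/
theorem grow_pt {a s t θ : ℝ} {w n : ℕ} (hθ : 0 < θ)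
    (hθw : 2 < θ * ((2 * l0 - 1) ^ 2) ^ (w + 1))
    (h1 : ∀ k, 1 ≤ k → k ≤ n → |cs a s t k| < 2 * l0 → 2 * (w + 1) < k ∧ k + (w + 1) ≤ n)
    (h2 : ∀ j, 1 ≤ j → j ≤ n → ∀ d, d < 2 * (w + 1) →
      ((X a s (j + 1) t : UnitAddCircle), (X a s j t : UnitAddCircle)) ∉ Pe a (2 * l0) d)
    (h3 : ∀ k, 1 ≤ k → k ≤ n →
      ((X a s k t : UnitAddCircle), (X a s (k - 1) t : UnitAddCircle)) ∉ Bt a (2 * l0) θ w) :
    ∏ k ∈ range n, gf (cs a s t) (2 * l0) θ (k + 1) ≤ |D a s (n + 1) t| := by
  classical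
  have hl0 := l0_ge
  set l := 2 * l0 with hl
  have hafter : ∀ k, 1 ≤ k → k ≤ n → |cs a s t k| < l → ∀ j, k < j → j ≤ k + 2 * (w + 1) → j ≤ n →
      l ≤ |cs a s t j| := by
    intro k hk1 hk2 hk3 j hj1 hj2 hj3
    by_contra hcon
    rw [not_le] at hcon
    have hex : ∃ j, k < j ∧ |cs a s t j| < l := ⟨j, hj1, hcon⟩
    set j' := Nat.find hex with hj'
    obtain ⟨b1, b2⟩ := Nat.find_spec hex
    have b3 := Nat.find_min' hex ⟨hj1, hcon⟩
    have b4 : ∀ i, k < i → i < j' → l ≤ |cs a s t i| := by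
      intro i hi1 hi2
      have := Nat.find_min hex hi2
      rw [not_and, not_lt] at this
      exact this hi1
    rw [← hj'] at b1 b2 b3
    apply h2 k hk1 hk2 (j' - k - 1) (by omega)
    apply mem_Pe
    · exact hk3
    · rw [X_shift, show k + (j' - k - 1 + 1) = j' by omega]
      exact b2
    · intro i hi1 hi2
      rw [X_shift]
      exact b4 (k + i) (by omega) (by omega)
  refine grow (D := fun j => D a s j t) (c := cs a s t) (l := l) (w := w + 1) (by linarith)
    (by omega) rfl rfl (fun j => rfl) hθ hθw ?_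
  intro k hk1 hk2 hk3
  obtain ⟨c1, c2⟩ := h1 k hk1 hk2 hk3
  have hbefore : ∀ j, j < k → k ≤ j + 2 * (w + 1) → l ≤ |cs a s t j| := by
    intro j hj1 hj2
    by_contra hcon
    rw [not_le] at hcon
    have := hafter j (by omega) (by omega) hcon k hj1 hj2 hk2
    linarith
  refine ⟨c1, c2, hafter k hk1 hk2 hk3, hbefore, ?_⟩
  by_contra hcon
  rw [not_le] at hcon
  apply h3 k hk1 hk2
  rw [mem_Bt]
  obtain ⟨m, rfl⟩ : ∃ m, k = m + 1 := ⟨k - 1, by omega⟩
  rw [Nat.add_sub_cancel]
  have hm1 : 1 ≤ m := by omega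
  refine ⟨hk3, ?_, ?_, ?_, ?_⟩
  · intro i a1 a2
    show l ≤ |L a (X a (X a s m t) i (X a s (m + 1) t))|
    rw [X_shift]
    exact hafter (m + 1) hk1 hk2 hk3 (m + i) (by omega) (by omega) (by omega)
  · exact hbefore m (by omega) (by omega)
  · intro i a1 a2
    show l ≤ |L a (X a (X a s m t) i (F a (X a s m t) - X a s (m + 1) t))|
    rw [X_back a s t hm1 i (by omega)]
    exact hbefore (m - i) (by omega) (by omega)
  · have e1 : cf (cs a (X a s m t) (X a s (m + 1) t)) (w + 1) 2 =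
        cf (cs a s t) (w + 1) (m + 1 + 1) := by
      apply cf_congr
      intro i hi
      show L a (X a (X a s m t) (2 + i) (X a s (m + 1) t)) = L a (X a s (m + 1 + 1 + i) t)
      rw [X_shift, show m + (2 + i) = m + 1 + 1 + i by ring]
    have e2 : ric (cs a s t) (m + 1 - (w + 1)) 0 (w + 1) =
        1 / (L a (X a s m t) - cf (cs a (X a s m t) (F a (X a s m t) - X a s (m + 1) t)) w 1) := by
      show 1 / (cs a s t (m + 1 - (w + 1) + w) - ric (cs a s t) (m + 1 - (w + 1)) 0 w) = _
      rw [show m + 1 - (w + 1) + w = m by omega]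
      rw [ric_cf (c := cs a s t) (c' := cs a (X a s m t) (F a (X a s m t) - X a s (m + 1) t))
        (m + 1 - (w + 1)) w 1]
      · rfl
      · intro i hi
        show L a (X a (X a s m t) (1 + i) (F a (X a s m t) - X a s (m + 1) t)) =
          L a (X a s (m + 1 - (w + 1) + w - 1 - i) t)
        rw [X_back a s t hm1 (1 + i) (by omega)]
        congr 2
        omega
    rw [e1, ← e2]
    exact hcon

/-- the bad set -/
def Bad (a θ : ℝ) (w n : ℕ) : Set T2 :=
  (⋃ k ∈ (Finset.Icc 1 n).filter (fun k => k ≤ 2 * (w + 1) ∨ n < k + (w + 1)),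
    ((S a)^[k - 1]) ⁻¹' Cr a (2 * l0)) ∪
  (⋃ j ∈ Finset.Icc 1 n, ⋃ d ∈ Finset.range (2 * (w + 1)), ((S a)^[j]) ⁻¹' Pe a (2 * l0) d) ∪
  (⋃ k ∈ Finset.Icc 1 n, ((S a)^[k - 1]) ⁻¹' Bt a (2 * l0) θ w)

theorem Bad_meas (a θ : ℝ) (w n : ℕ) : MeasurableSet (Bad a θ w n) := by
  have hS : ∀ i, Measurable ((S a)^[i]) := fun i => ((S_cont a).iterate i).measurable
  refine (MeasurableSet.union ?_ ?_).union ?_
  · exact MeasurableSet.biUnion (Finset.countable_toSet _) fun k _ => hS _ (Cr_meas _ _)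
  · exact MeasurableSet.biUnion (Finset.countable_toSet _) fun j _ =>
      MeasurableSet.biUnion (Finset.countable_toSet _) fun d _ => hS _ (Pe_meas _ _ _)
  · exact MeasurableSet.biUnion (Finset.countable_toSet _) fun k _ => hS _ (Bt_meas _ _ _ _)

theorem grow_bad {a s t θ : ℝ} {w n : ℕ} (hθ : 0 < θ)
    (hθw : 2 < θ * ((2 * l0 - 1) ^ 2) ^ (w + 1))
    (hp : ((t : UnitAddCircle), (s : UnitAddCircle)) ∉ Bad a θ w n) :
    ∏ k ∈ range n, gf (cs a s t) (2 * l0) θ (k + 1) ≤ |D a s (n + 1) t| := by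
  have hl0 := l0_ge
  unfold Bad at hp
  simp only [Set.mem_union, not_or, Set.mem_iUnion, exists_prop, not_exists, not_and,
    Set.mem_preimage, S_iter_X, Finset.mem_filter, Finset.mem_Icc, Finset.mem_range] at hp
  obtain ⟨⟨p1, p2⟩, p3⟩ := hp
  apply grow_pt hθ hθw
  · intro k hk1 hk2 hk3
    by_contra hcon
    apply p1 k ⟨⟨hk1, hk2⟩, by omega⟩
    rw [show k - 1 + 1 = k by omega]
    exact mem_Cr (by linarith) hk3
  · intro j hj1 hj2 d hd
    exact p2 j ⟨hj1, hj2⟩ d hd
  · intro k hk1 hk2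
    have := p3 k ⟨hk1, hk2⟩
    rwa [show k - 1 + 1 = k by omega] at this

theorem vol_pre (a : ℝ) (k : ℕ) {A : Set T2} (hA : MeasurableSet A) :
    volume.real (((S a)^[k]) ⁻¹' A) = volume.real A := by
  rw [measureReal_def, measureReal_def, (iter_mp a k).measure_preimage hA.nullMeasurableSet]

theorem vol_Bad {a : ℝ} {w : ℕ} (n : ℕ) (hl : 1000 ≤ 2 * l0) (hla : 2 * l0 ≤ |a|)
    (hw : |a| ^ 6 * (2 * l0 + 1) ≤ (2 * l0 + 1) ^ w) :
    volume.real (Bad a (1 / |a| ^ 9) w n) ≤ 3 * (w + 1) * (2 * l0 / |a|) +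
      n * (2 * (w + 1)) * (2 * (2 * l0 / |a|) ^ 2) + n * (972 * (2 * l0 + 1) / |a| ^ 3) := by
  have ha0 : 0 < |a| := by linarith
  have hl16 : 16 ≤ 2 * l0 := by linarith
  unfold Bad
  refine (measureReal_union_le _ _).trans (add_le_add ((measureReal_union_le _ _).trans
    (add_le_add ?_ ?_)) ?_)
  · refine (measureReal_biUnion_finset_le _ _).trans ?_
    calc ∑ k ∈ (Finset.Icc 1 n).filter (fun k => k ≤ 2 * (w + 1) ∨ n < k + (w + 1)),
          volume.real (((S a)^[k - 1]) ⁻¹' Cr a (2 * l0))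
        ≤ ∑ k ∈ (Finset.Icc 1 n).filter (fun k => k ≤ 2 * (w + 1) ∨ n < k + (w + 1)),
          (2 * l0 / |a|) := by
          apply Finset.sum_le_sum
          intro k _
          rw [vol_pre a _ (Cr_meas _ _)]
          exact vol_Cr ha0 hl16
      _ = ((Finset.Icc 1 n).filter (fun k => k ≤ 2 * (w + 1) ∨ n < k + (w + 1))).card *
          (2 * l0 / |a|) := by rw [Finset.sum_const, nsmul_eq_mul]
      _ ≤ _ := by
          apply mul_le_mul_of_nonneg_right _ (by positivity)
          have hsub : (Finset.Icc 1 n).filter (fun k => k ≤ 2 * (w + 1) ∨ n < k + (w + 1)) ⊆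
              Finset.Icc 1 (2 * (w + 1)) ∪ Finset.Ioc (n - (w + 1)) n := by
            intro k hk
            rw [Finset.mem_filter, Finset.mem_Icc] at hk
            rw [Finset.mem_union, Finset.mem_Icc, Finset.mem_Ioc]
            rcases hk.2 with h | h
            · left; exact ⟨hk.1.1, h⟩
            · right; constructor <;> omega
          have h1 := (Finset.card_le_card hsub).trans (Finset.card_union_le _ _)
          rw [Nat.card_Icc, Nat.card_Ioc] at h1
          have h2 : ((Finset.Icc 1 n).filter (fun k => k ≤ 2 * (w + 1) ∨ n < k + (w + 1))).card ≤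
              3 * (w + 1) := by omega
          exact_mod_cast h2
  · refine (measureReal_biUnion_finset_le _ _).trans ?_
    calc ∑ j ∈ Finset.Icc 1 n, volume.real (⋃ d ∈ Finset.range (2 * (w + 1)),
          ((S a)^[j]) ⁻¹' Pe a (2 * l0) d)
        ≤ ∑ j ∈ Finset.Icc 1 n, ((2 * (w + 1) : ℕ) * (2 * (2 * l0 / |a|) ^ 2)) := by
          apply Finset.sum_le_sum
          intro j _
          refine (measureReal_biUnion_finset_le _ _).trans ?_
          calc ∑ d ∈ Finset.range (2 * (w + 1)), volume.real (((S a)^[j]) ⁻¹' Pe a (2 * l0) d)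
              ≤ ∑ d ∈ Finset.range (2 * (w + 1)), (2 * (2 * l0 / |a|) ^ 2) := by
                apply Finset.sum_le_sum
                intro d _
                rw [vol_pre a _ (Pe_meas _ _ _)]
                exact vol_Pe hla d
            _ = _ := by rw [Finset.sum_const, Finset.card_range, nsmul_eq_mul]
      _ = _ := by
        rw [Finset.sum_const, Nat.card_Icc, nsmul_eq_mul]
        push_cast
        ring
  · refine (measureReal_biUnion_finset_le _ _).trans ?_
    calc ∑ k ∈ Finset.Icc 1 n, volume.real (((S a)^[k - 1]) ⁻¹' Bt a (2 * l0) (1 / |a| ^ 9) w)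
        ≤ ∑ k ∈ Finset.Icc 1 n, (972 * (2 * l0 + 1) / |a| ^ 3) := by
          apply Finset.sum_le_sum
          intro k _
          rw [vol_pre a _ (Bt_meas _ _ _ _)]
          exact vol_Bt hl hla hw
      _ = _ := by
        rw [Finset.sum_const, Nat.card_Icc, nsmul_eq_mul, Nat.add_sub_cancel]

end Pool.Agent.V8H61.SM
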