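import Pool.Agent.V1152.SMIF

set_option autoImplicit false

/-!
# Functions invariant under a product with another system
-/

namespace Pool.Agent.V8H61.SM

open Real Finset MeasureTheory Function Pool.Agent.TH705.SM

/-- invariant functions of products -/
theorem rel {X Y : Type*} [MeasurableSpace X] [MeasurableSpace Y] {μ : Measure X} {ν : Measure Y}
    [IsProbabilityMeasure μ] [IsProbabilityMeasure ν] {T : X → X} (hT : MeasurePreserving T μ μ)
    {Φ : Y → Y} (hΦ : MeasurePreserving Φ ν ν)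
    {g : X → ℝ} (hg : Measurable g) (hg1 : ∀ x, |g x| ≤ 1) {n : ℕ} (hn : 1 ≤ n) {B : ℝ}
    (hB0 : 0 ≤ B) (hB : ∀ k, 3 ≤ k → k < n → |∫ x, g (T^[k] x) * g x ∂μ| ≤ B)
    {f : X × Y → ℝ} (hf : Measurable f) (hf2 : Integrable (fun q => f q ^ 2) (μ.prod ν))
    (hinv : ∀ᵐ q ∂(μ.prod ν), f (T q.1, Φ q.2) = f q) :
    ∫ y, (∫ x, f (x, y) * g x ∂μ) ^ 2 ∂ν ≤ (5 / n + B) * ∫ q, f q ^ 2 ∂(μ.prod ν) := by
  have hn0 : (0:ℝ) < n := by exact_mod_cast hn
  set h : Y → ℝ := fun y => ∫ x, f (x, y) * g x ∂μ with hh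
  have hfg : StronglyMeasurable (fun q : X × Y => f q * g q.1) :=
    (hf.mul (hg.comp measurable_fst)).stronglyMeasurable
  have hm : Measurable h := hfg.integral_prod_left'.measurable
  have hg2 : ∀ x, g x ^ 2 ≤ 1 := fun x => by
    rw [← sq_abs]; exact pow_le_one₀ (abs_nonneg _) (hg1 x)
  -- `h` is square integrable
  have hle : ∀ᵐ y ∂ν, h y ^ 2 ≤ ∫ x, f (x, y) ^ 2 ∂μ := by
    filter_upwards [hf2.prod_left_ae] with y hy
    have hfm : Measurable (fun x => f (x, y)) := hf.comp measurable_prodMk_right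
    have i1 : Integrable (fun x => f (x, y) * g x) μ := by
      refine Integrable.mono' ((hy.add (integrable_const 1)))
        (hfm.mul hg).aestronglyMeasurable (Filter.Eventually.of_forall fun x => ?_)
      rw [Real.norm_eq_abs, abs_mul]
      show |f (x, y)| * |g x| ≤ f (x, y) ^ 2 + 1
      have h1 := hg1 x
      have h2 := abs_nonneg (f (x, y))
      have h3 : |f (x, y)| * |g x| ≤ |f (x, y)| * 1 := mul_le_mul_of_nonneg_left h1 h2
      nlinarith [sq_abs (f (x, y)), sq_nonneg (|f (x, y)| - 1)]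
    have i2 : Integrable (fun x => 2 * h y * (f (x, y) * g x) - h y ^ 2) μ :=
      (i1.const_mul _).sub (integrable_const _)
    have h4 : ∫ x, (2 * h y * (f (x, y) * g x) - h y ^ 2) ∂μ ≤ ∫ x, f (x, y) ^ 2 ∂μ := by
      apply integral_mono i2 hy
      intro x
      show 2 * h y * (f (x, y) * g x) - h y ^ 2 ≤ f (x, y) ^ 2
      nlinarith [sq_nonneg (f (x, y) * g x - h y), hg2 x, sq_nonneg (f (x, y)),
        mul_nonneg (sq_nonneg (f (x, y))) (sub_nonneg.2 (hg2 x))]
    rw [integral_sub (i1.const_mul _) (integrable_const _), integral_const_mul, integral_const] at h4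
    have h5 : ∫ x, f (x, y) * g x ∂μ = h y := rfl
    rw [h5] at h4
    simp only [probReal_univ, one_smul] at h4
    nlinarith
  have hh2 : Integrable (fun y => h y ^ 2) ν := by
    refine Integrable.mono' hf2.integral_prod_right (hm.pow_const 2).aestronglyMeasurable ?_
    filter_upwards [hle] with y hy
    rw [Real.norm_eq_abs, abs_of_nonneg (sq_nonneg _)]
    exact hy
  set Hs := ∫ y, h y ^ 2 ∂ν with hHs
  have hHs0 : 0 ≤ Hs := integral_nonneg fun y => sq_nonneg _
  have hTk : ∀ k, MeasurePreserving (T^[k]) μ μ := fun k => hT.iterate k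
  have hΦk : ∀ k, MeasurePreserving (Φ^[k]) ν ν := fun k => hΦ.iterate k
  have hcomp : ∀ k (u : X → ℝ), Measurable u → ∫ x, u (T^[k] x) ∂μ = ∫ x, u x ∂μ := by
    intro k u hu
    have h1 := (hTk k).map_eq
    calc ∫ x, u (T^[k] x) ∂μ = ∫ x, u x ∂(Measure.map (T^[k]) μ) := by
          rw [integral_map (hTk k).measurable.aemeasurable hu.aestronglyMeasurable]
      _ = _ := by rw [h1]
  have hcompY : ∀ k (u : Y → ℝ), Measurable u → ∫ x, u (Φ^[k] x) ∂ν = ∫ x, u x ∂ν := by
    intro k u hu
    have h1 := (hΦk k).map_eq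
    calc ∫ x, u (Φ^[k] x) ∂ν = ∫ x, u x ∂(Measure.map (Φ^[k]) ν) := by
          rw [integral_map (hΦk k).measurable.aemeasurable hu.aestronglyMeasurable]
      _ = _ := by rw [h1]
  have hhk : ∀ k, Integrable (fun y => h (Φ^[k] y) ^ 2) ν := fun k =>
    (hΦk k).integrable_comp_of_integrable (g := fun y => h y ^ 2) hh2
  have hgm : ∀ k, Measurable (fun x => g (T^[k] x)) := fun k => hg.comp (hTk k).measurable
  have hhm : ∀ k, Measurable (fun y => h (Φ^[k] y)) := fun k => hm.comp (hΦk k).measurable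
  set G : ℕ → X × Y → ℝ := fun k q => g (T^[k] q.1) * h (Φ^[k] q.2) with hG
  have hGm : ∀ k, Measurable (G k) := fun k =>
    ((hgm k).comp measurable_fst).mul ((hhm k).comp measurable_snd)
  have hGsq : ∀ k q, G k q ^ 2 ≤ h (Φ^[k] q.2) ^ 2 := by
    intro k q
    show (g (T^[k] q.1) * h (Φ^[k] q.2)) ^ 2 ≤ _
    rw [mul_pow]
    exact mul_le_of_le_one_left (sq_nonneg _) (hg2 _)
  have hG2 : ∀ k, Integrable (fun q => G k q ^ 2) (μ.prod ν) := by
    intro k
    refine Integrable.mono' ((hhk k).comp_snd μ) ((hGm k).pow_const 2).aestronglyMeasurable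
      (Filter.Eventually.of_forall fun q => ?_)
    rw [Real.norm_eq_abs, abs_of_nonneg (sq_nonneg _)]
    exact hGsq k q
  have hprod : ∀ u v : X × Y → ℝ, Measurable u → Measurable v →
      Integrable (fun q => u q ^ 2) (μ.prod ν) → Integrable (fun q => v q ^ 2) (μ.prod ν) →
      Integrable (fun q => u q * v q) (μ.prod ν) := by
    intro u v hu hv hu2 hv2
    refine Integrable.mono' (hu2.add hv2) (hu.mul hv).aestronglyMeasurable
      (Filter.Eventually.of_forall fun q => ?_)
    rw [Real.norm_eq_abs, abs_mul]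
    show |u q| * |v q| ≤ u q ^ 2 + v q ^ 2
    nlinarith [sq_abs (u q), sq_abs (v q), sq_nonneg (|u q| - |v q|), sq_nonneg (|u q|),
      sq_nonneg (|v q|)]
  have hfG : ∀ k, Integrable (fun q => f q * G k q) (μ.prod ν) := fun k =>
    hprod _ _ hf (hGm k) hf2 (hG2 k)
  have hGG : ∀ i j, Integrable (fun q => G i q * G j q) (μ.prod ν) := fun i j =>
    hprod _ _ (hGm i) (hGm j) (hG2 i) (hG2 j)
  -- step 1
  have s1 : ∫ q, f q * G 0 q ∂(μ.prod ν) = Hs := by
    rw [integral_prod_symm _ (hfG 0)]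
    apply integral_congr_ae
    refine Filter.Eventually.of_forall fun y => ?_
    show ∫ x, f (x, y) * (g x * h y) ∂μ = h y ^ 2
    have e : ∀ x, f (x, y) * (g x * h y) = (f (x, y) * g x) * h y := fun x => by ring
    simp_rw [e]
    rw [integral_mul_const, sq]
  -- step 2
  have hτ : MeasurePreserving (Prod.map T Φ) (μ.prod ν) (μ.prod ν) := hT.prod hΦ
  have s2 : ∀ k, ∫ q, f q * G k q ∂(μ.prod ν) = Hs := by
    intro k
    induction k with
    | zero => exact s1
    | succ k ih =>
      rw [← ih]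
      have h1 := hτ.map_eq
      have hmm : Measurable (fun q => f q * G k q) := hf.mul (hGm k)
      calc ∫ q, f q * G (k + 1) q ∂(μ.prod ν)
          = ∫ q, (fun q => f q * G k q) (Prod.map T Φ q) ∂(μ.prod ν) := by
            apply integral_congr_ae
            filter_upwards [hinv] with q hq
            show f q * (g (T^[k + 1] q.1) * h (Φ^[k + 1] q.2)) =
              f (T q.1, Φ q.2) * (g (T^[k] (T q.1)) * h (Φ^[k] (Φ q.2)))
            rw [hq, iterate_succ_apply, iterate_succ_apply]
        _ = ∫ q, f q * G k q ∂(Measure.map (Prod.map T Φ) (μ.prod ν)) := by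
            rw [integral_map hτ.measurable.aemeasurable hmm.aestronglyMeasurable]
        _ = _ := by rw [h1]
  -- step 3
  have hcg : ∀ i j : ℕ, |∫ x, g (T^[i] x) * g (T^[j] x) ∂μ| ≤ 1 := by
    intro i j
    have := norm_integral_le_of_norm_le_const (μ := μ) (f := fun x => g (T^[i] x) * g (T^[j] x))
      (C := 1) (Filter.Eventually.of_forall fun x => by
        rw [Real.norm_eq_abs, abs_mul]
        nlinarith [hg1 (T^[i] x), hg1 (T^[j] x), abs_nonneg (g (T^[i] x)),
          abs_nonneg (g (T^[j] x))])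
    simpa using this
  have hshift : ∀ i j : ℕ, i ≤ j → ∫ x, g (T^[i] x) * g (T^[j] x) ∂μ =
      ∫ x, g (T^[j - i] x) * g x ∂μ := by
    intro i j hij
    have h3 := hcomp i (fun x => g (T^[j - i] x) * g x) ((hgm _).mul hg)
    rw [← h3]
    apply integral_congr_ae
    refine Filter.Eventually.of_forall fun x => ?_
    simp only
    rw [← iterate_add_apply, Nat.sub_add_cancel hij]
    ring
  have hpair : ∀ i ∈ range n, ∀ j ∈ range n, |∫ x, g (T^[i] x) * g (T^[j] x) ∂μ| ≤
      B + if j ∈ Icc (i - 2) (i + 2) then 1 else 0 := by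
    intro i hi j hj
    rw [Finset.mem_range] at hi hj
    by_cases h : j ∈ Icc (i - 2) (i + 2)
    · rw [if_pos h]
      have := hcg i j
      linarith
    · rw [if_neg h, add_zero]
      rw [Finset.mem_Icc] at h
      rcases le_total i j with hij | hij
      · rw [hshift i j hij]
        exact hB (j - i) (by omega) (by omega)
      · have e : ∫ x, g (T^[i] x) * g (T^[j] x) ∂μ = ∫ x, g (T^[j] x) * g (T^[i] x) ∂μ := by
          apply integral_congr_ae
          exact Filter.Eventually.of_forall fun x => mul_comm _ _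
        rw [e, hshift j i hij]
        exact hB (i - j) (by omega) (by omega)
  have hch : ∀ i j : ℕ, Integrable (fun y => h (Φ^[i] y) * h (Φ^[j] y)) ν ∧
      |∫ y, h (Φ^[i] y) * h (Φ^[j] y) ∂ν| ≤ Hs := by
    intro i j
    have e1 : ∀ k, ∫ y, h (Φ^[k] y) ^ 2 ∂ν = Hs := fun k => hcompY k (fun y => h y ^ 2) (hm.pow_const 2)
    have i1 : Integrable (fun y => (h (Φ^[i] y) ^ 2 + h (Φ^[j] y) ^ 2) / 2) ν :=
      ((hhk i).add (hhk j)).div_const 2
    have hb : ∀ y, ‖h (Φ^[i] y) * h (Φ^[j] y)‖ ≤ (h (Φ^[i] y) ^ 2 + h (Φ^[j] y) ^ 2) / 2 := by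
      intro y
      rw [Real.norm_eq_abs, abs_mul]
      nlinarith [sq_abs (h (Φ^[i] y)), sq_abs (h (Φ^[j] y)),
        sq_nonneg (|h (Φ^[i] y)| - |h (Φ^[j] y)|)]
    refine ⟨Integrable.mono' i1 ((hhm i).mul (hhm j)).aestronglyMeasurable
      (Filter.Eventually.of_forall hb), ?_⟩
    have h1 := norm_integral_le_of_norm_le i1 (Filter.Eventually.of_forall hb)
    rw [Real.norm_eq_abs] at h1
    refine h1.trans (le_of_eq ?_)
    rw [integral_div, integral_add (hhk i) (hhk j), e1, e1]
    ring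
  set P : X × Y → ℝ := fun q => ∑ k ∈ range n, G k q with hP
  set β := 5 / (n:ℝ) + B with hβ
  have hβ0 : 0 < β := by positivity
  have hPsq : ∀ q, P q ^ 2 = ∑ i ∈ range n, ∑ j ∈ range n, G i q * G j q := by
    intro q
    rw [hP, sq, sum_mul_sum]
  have hPint : Integrable (fun q => P q ^ 2) (μ.prod ν) := by
    simp_rw [hPsq]
    exact integrable_finsetSum _ fun i _ => integrable_finsetSum _ fun j _ => hGG i j
  have hP2 : ∫ q, P q ^ 2 ∂(μ.prod ν) ≤ n ^ 2 * β * Hs := by
    have e : ∫ q, P q ^ 2 ∂(μ.prod ν) =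
        ∑ i ∈ range n, ∑ j ∈ range n, (∫ x, g (T^[i] x) * g (T^[j] x) ∂μ) *
          ∫ y, h (Φ^[i] y) * h (Φ^[j] y) ∂ν := by
      simp_rw [hPsq]
      rw [integral_finsetSum _ fun i _ => integrable_finsetSum _ fun j _ => hGG i j]
      apply Finset.sum_congr rfl
      intro i _
      rw [integral_finsetSum _ fun j _ => hGG i j]
      apply Finset.sum_congr rfl
      intro j _
      rw [← integral_prod_mul]
      apply integral_congr_ae
      refine Filter.Eventually.of_forall fun q => ?_
      show g (T^[i] q.1) * h (Φ^[i] q.2) * (g (T^[j] q.1) * h (Φ^[j] q.2)) =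
        g (T^[i] q.1) * g (T^[j] q.1) * (h (Φ^[i] q.2) * h (Φ^[j] q.2))
      ring
    rw [e]
    have h1 : ∀ i ∈ range n, ∑ j ∈ range n, (∫ x, g (T^[i] x) * g (T^[j] x) ∂μ) *
          ∫ y, h (Φ^[i] y) * h (Φ^[j] y) ∂ν ≤ (n * B + 5) * Hs := by
      intro i hi
      have h2 : ∀ j ∈ range n, (∫ x, g (T^[i] x) * g (T^[j] x) ∂μ) *
          ∫ y, h (Φ^[i] y) * h (Φ^[j] y) ∂ν ≤
            (B + if j ∈ Icc (i - 2) (i + 2) then 1 else 0) * Hs := by
        intro j hj
        refine (le_abs_self _).trans ?_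
        rw [abs_mul]
        exact mul_le_mul (hpair i hi j hj) (hch i j).2 (abs_nonneg _)
          ((abs_nonneg _).trans (hpair i hi j hj))
      refine (Finset.sum_le_sum h2).trans ?_
      rw [← Finset.sum_mul]
      apply mul_le_mul_of_nonneg_right _ hHs0
      rw [Finset.sum_add_distrib, Finset.sum_const, card_range, nsmul_eq_mul]
      apply add_le_add le_rfl
      rw [← Finset.sum_filter, Finset.sum_const, nsmul_eq_mul, mul_one]
      have hsub : (range n).filter (fun j => j ∈ Icc (i - 2) (i + 2)) ⊆ Icc (i - 2) (i + 2) := by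
        intro j hj
        exact (Finset.mem_filter.1 hj).2
      have h3 := Finset.card_le_card hsub
      rw [Nat.card_Icc] at h3
      have h4 : ((range n).filter (fun j => j ∈ Icc (i - 2) (i + 2))).card ≤ 5 := by omega
      exact_mod_cast h4
    refine (Finset.sum_le_sum h1).trans (le_of_eq ?_)
    rw [Finset.sum_const, card_range, nsmul_eq_mul, hβ]
    field_simp
    ring
  -- conclusion
  have hsumf : ∫ q, f q * P q ∂(μ.prod ν) = n * Hs := by
    have e : ∀ q, f q * P q = ∑ k ∈ range n, f q * G k q := fun q => Finset.mul_sum _ _ _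
    simp_rw [e]
    rw [integral_finsetSum _ fun k _ => hfG k]
    simp_rw [s2]
    rw [Finset.sum_const, card_range, nsmul_eq_mul]
  have hPm : Measurable P := Finset.measurable_fun_sum _ fun k _ => hGm k
  have hfP : Integrable (fun q => f q * P q) (μ.prod ν) := hprod _ _ hf hPm hf2 hPint
  have hfin : 2 * (n * Hs) ≤ n * β * ∫ q, f q ^ 2 ∂(μ.prod ν) +
      1 / (n * β) * ∫ q, P q ^ 2 ∂(μ.prod ν) := by
    rw [← hsumf, ← integral_const_mul, ← integral_const_mul, ← integral_const_mul,
      ← integral_add (hf2.const_mul _) (hPint.const_mul _)]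
    apply integral_mono (hfP.const_mul 2) ((hf2.const_mul _).add (hPint.const_mul _))
    intro q
    show 2 * (f q * P q) ≤ n * β * f q ^ 2 + 1 / (n * β) * P q ^ 2
    have hc : 0 < n * β := by positivity
    have e : n * β * f q ^ 2 + 1 / (n * β) * P q ^ 2 - 2 * (f q * P q) =
        (n * β * f q - P q) ^ 2 / (n * β) := by
      field_simp
      ring
    have : 0 ≤ (n * β * f q - P q) ^ 2 / (n * β) := by positivity
    linarith
  have h9 : 1 / (n * β) * ∫ q, P q ^ 2 ∂(μ.prod ν) ≤ n * Hs := by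
    calc 1 / (n * β) * ∫ q, P q ^ 2 ∂(μ.prod ν) ≤ 1 / (n * β) * (n ^ 2 * β * Hs) :=
          mul_le_mul_of_nonneg_left hP2 (by positivity)
      _ = n * Hs := by field_simp
  have h10 : n * Hs ≤ n * (β * ∫ q, f q ^ 2 ∂(μ.prod ν)) := by linarith
  exact le_of_mul_le_mul_left h10 hn0

open Pool.Agent.V1152.SMI (iB iB_eq iB_meas iB_abs iB_int Smoothable mix_box CC CC_pos)

theorem S_Si (a : ℝ) (p : T2) : S a (Si a p) = p := by
  unfold Si S
  simp

theorem Si_mp (a : ℝ) : MeasurePreserving (Si a) (volume : Measure T2) volume := by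
  refine ⟨(Si_cont a).measurable, ?_⟩
  have h1 := (S_mp a).map_eq
  calc Measure.map (Si a) volume = Measure.map (Si a) (Measure.map (S a) volume) := by rw [h1]
    _ = Measure.map (Si a ∘ S a) volume :=
      Measure.map_map (Si_cont a).measurable (S_cont a).measurable
    _ = volume := by
      have : Si a ∘ S a = id := by
        funext p
        exact Si_S a p
      rw [this, Measure.map_id]

theorem Si_iter_S (a : ℝ) (k : ℕ) (p : T2) : (Si a)^[k] ((S a)^[k] p) = p := by
  induction k generalizing p with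
  | zero => rfl
  | succ k ih =>
    rw [iterate_succ_apply, iterate_succ_apply', Si_S, ih]

/-- the centred indicator function of a box -/
noncomputable def cB (E J : Set UnitAddCircle) (q : T2) : ℝ :=
  iB E J q - volume.real E * volume.real J

theorem cB_meas {E J : Set UnitAddCircle} (hE : MeasurableSet E) (hJ : MeasurableSet J) :
    Measurable (cB E J) := (iB_meas hE hJ).sub_const _

theorem cB_abs (E J : Set UnitAddCircle) (q : T2) : |cB E J q| ≤ 1 := by
  have h1 : 0 ≤ volume.real E * volume.real J := mul_nonneg measureReal_nonneg measureReal_nonneg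
  have h2 : volume.real E * volume.real J ≤ 1 := by
    have := mul_le_mul (measureReal_le_one (μ := volume) (s := E))
      (measureReal_le_one (μ := volume) (s := J)) measureReal_nonneg zero_le_one
    simpa using this
  have h3 : iB E J q = 0 ∨ iB E J q = 1 := by
    rw [iB_eq]
    by_cases h : q ∈ E ×ˢ J
    · right; rw [Set.indicator_of_mem h]
    · left; rw [Set.indicator_of_notMem h]
  unfold cB
  rw [abs_le]
  rcases h3 with h3 | h3 <;> rw [h3] <;> constructor <;> linarith

theorem int_iter (a : ℝ) (k : ℕ) {u : T2 → ℝ} (hu : Measurable u) :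
    ∫ q, u ((S a)^[k] q) = ∫ q, u q := by
  have h4 := (iter_mp a k).map_eq
  calc ∫ q : T2, u ((S a)^[k] q) = ∫ q, u q ∂(Measure.map ((S a)^[k]) volume) := by
        rw [integral_map (iter_mp a k).measurable.aemeasurable hu.aestronglyMeasurable]
    _ = _ := by rw [h4]

theorem cB_corr {a : ℝ} (ha : 1 ≤ |a|) {k : ℕ} (hk : 3 ≤ k) {E J : Set UnitAddCircle}
    (hE : MeasurableSet E) (hJ : MeasurableSet J) {Dv : ℝ} (happ : Smoothable J Dv) :
    |∫ q, cB E J ((S a)^[k] q) * cB E J q| ≤ CC * (1 + Dv) * √(k / |a|) := by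
  refine le_trans (le_of_eq ?_) (mix_box ha hk hE hJ hE hJ happ happ)
  congr 1
  set v := volume.real E * volume.real J with hv
  have mG := iB_meas hE hJ
  have mS := (iter_mp a k).measurable
  have bd : ∀ (u : T2 → ℝ), Measurable u → (∀ q, |u q| ≤ 1) → Integrable u :=
    fun u hu hb => Integrable.of_bound hu.aestronglyMeasurable 1
      (Filter.Eventually.of_forall fun x => by rw [norm_eq_abs]; exact hb x)
  have iG := bd _ mG (iB_abs E J)
  have iGS : Integrable (fun q => iB E J ((S a)^[k] q)) :=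
    bd _ (mG.comp mS) (fun q => iB_abs E J _)
  have iGG : Integrable (fun q => iB E J ((S a)^[k] q) * iB E J q) := by
    refine bd _ ((mG.comp mS).mul mG) fun q => ?_
    show |iB E J ((S a)^[k] q) * iB E J q| ≤ 1
    rw [abs_mul]
    nlinarith [iB_abs E J ((S a)^[k] q), iB_abs E J q, abs_nonneg (iB E J ((S a)^[k] q)),
      abs_nonneg (iB E J q)]
  have hGI : ∫ q, iB E J ((S a)^[k] q) * iB E J q =
      volume.real ((S a)^[k] ⁻¹' (E ×ˢ J) ∩ (E ×ˢ J)) := by
    have e : (fun q => iB E J ((S a)^[k] q) * iB E J q) =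
        ((S a)^[k] ⁻¹' (E ×ˢ J) ∩ (E ×ˢ J)).indicator (fun _ => (1:ℝ)) := by
      funext q
      rw [iB_eq]
      by_cases h1 : (S a)^[k] q ∈ E ×ˢ J <;> by_cases h2 : q ∈ E ×ˢ J <;>
        simp [Set.indicator, Set.mem_preimage, h1, h2]
    rw [e, integral_indicator ((mS (hE.prod hJ)).inter (hE.prod hJ)), setIntegral_const,
      smul_eq_mul, mul_one]
  rw [← hGI]
  have e : ∀ q, cB E J ((S a)^[k] q) * cB E J q =
      iB E J ((S a)^[k] q) * iB E J q - v * iB E J ((S a)^[k] q) - v * iB E J q + v * v := by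
    intro q
    show (iB E J ((S a)^[k] q) - v) * (iB E J q - v) = _
    ring
  simp_rw [e]
  have i1 : Integrable (fun q => iB E J ((S a)^[k] q) * iB E J q - v * iB E J ((S a)^[k] q)) :=
    iGG.sub (iGS.const_mul v)
  have i2 : Integrable (fun q => iB E J ((S a)^[k] q) * iB E J q - v * iB E J ((S a)^[k] q) -
      v * iB E J q) := i1.sub (iG.const_mul v)
  rw [integral_add i2 (integrable_const _), integral_sub i1 (iG.const_mul v),
    integral_sub iGG (iGS.const_mul v), integral_const_mul, integral_const_mul,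
    int_iter a k mG, iB_int hE hJ, integral_const]
  simp only [probReal_univ, one_smul]
  ring

/-- the exponent -/
theorem choose_n {a : ℝ} (ha : 1 ≤ |a|) : ∃ n : ℕ, 1 ≤ n ∧ (5:ℝ) / n ≤ 10 * |a| ^ (-(1 / 3) : ℝ) ∧
    ∀ k : ℕ, k < n → √(k / |a|) ≤ |a| ^ (-(1 / 3) : ℝ) := by
  have ha0 : 0 < |a| := by linarith
  set l := |a| ^ (1 / 3 : ℝ) with hl
  have hl1 : 1 ≤ l := Real.one_le_rpow ha (by norm_num)
  have hl3 : l ^ 3 = |a| := by
    rw [hl, ← Real.rpow_natCast, ← Real.rpow_mul ha0.le]
    norm_num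
  have hinvl : |a| ^ (-(1 / 3) : ℝ) = 1 / l := by
    rw [Real.rpow_neg ha0.le, ← hl, inv_eq_one_div]
  refine ⟨⌊l⌋₊, Nat.le_floor (by exact_mod_cast hl1), ?_, ?_⟩
  · have hN1 : 1 ≤ ⌊l⌋₊ := Nat.le_floor (by exact_mod_cast hl1)
    have hlN : l < (⌊l⌋₊ : ℝ) + 1 := Nat.lt_floor_add_one l
    have h1 : (1:ℝ) ≤ (⌊l⌋₊ : ℝ) := by exact_mod_cast hN1
    rw [hinvl, mul_one_div, div_le_div_iff₀ (by linarith) (by linarith)]
    linarith
  · intro k hk
    have hkl : (k:ℝ) ≤ l := by
      have h1 : (⌊l⌋₊ : ℝ) ≤ l := Nat.floor_le (by linarith)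
      have h2 : (k:ℝ) ≤ (⌊l⌋₊ : ℝ) := by exact_mod_cast hk.le
      linarith
    rw [hinvl]
    apply Real.sqrt_le_iff.2
    refine ⟨by positivity, ?_⟩
    rw [← hl3, div_pow, one_pow, div_le_div_iff₀ (by positivity) (by positivity)]
    nlinarith [pow_pos (by linarith : (0:ℝ) < l) 2]

/-- the constant -/
noncomputable def CD : ℝ := 10 + CC * 3

theorem CD_pos : 0 < CD := by
  have := CC_pos
  unfold CD
  positivity

/-- **products with other systems, boxes with a Borel set in the first coordinate** -/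
theorem dis_one {a : ℝ} (ha : 1 ≤ |a|) {T : T2 → T2} (hT : T = S a ∨ T = Si a) {Y : Type*}
    [MeasurableSpace Y] {ν : Measure Y} [IsProbabilityMeasure ν] {Φ : Y → Y}
    (hΦ : MeasurePreserving Φ ν ν) {f : T2 × Y → ℝ} (hf : Measurable f)
    (hf2 : Integrable (fun q => f q ^ 2) ((volume : Measure T2).prod ν))
    (hinv : ∀ᵐ q ∂((volume : Measure T2).prod ν), f (T q.1, Φ q.2) = f q)
    {E J : Set UnitAddCircle} (hE : MeasurableSet E) (hJ : MeasurableSet J)
    (happ : Smoothable J 2) :
    ∫ y, ((∫ p in E ×ˢ J, f (p, y)) - volume.real E * volume.real J * ∫ p, f (p, y)) ^ 2 ∂ν ≤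
      CD * |a| ^ (-(1 / 3) : ℝ) * ∫ q, f q ^ 2 ∂((volume : Measure T2).prod ν) := by
  have ha0 : 0 < |a| := by linarith
  have hCC := CC_pos
  obtain ⟨n, hn, hn1, hn2⟩ := choose_n ha
  set u := |a| ^ (-(1 / 3) : ℝ) with hu
  have hu0 : 0 < u := Real.rpow_pos_of_pos ha0 _
  have hmp : MeasurePreserving T (volume : Measure T2) volume := by
    rcases hT with h | h <;> rw [h]
    · exact S_mp a
    · exact Si_mp a
  have hcor : ∀ k, 3 ≤ k → k < n → |∫ q, cB E J (T^[k] q) * cB E J q| ≤ CC * (1 + 2) * u := by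
    intro k hk hkn
    have h1 := cB_corr ha hk hE hJ happ
    have h2 : CC * (1 + 2) * √(k / |a|) ≤ CC * (1 + 2) * u :=
      mul_le_mul_of_nonneg_left (hn2 k hkn) (by positivity)
    rcases hT with h | h
    · rw [h]
      exact h1.trans h2
    · rw [h]
      refine le_trans (le_of_eq ?_) (h1.trans h2)
      congr 1
      have hm := cB_meas hE hJ
      have hm2 : Measurable (fun q => cB E J ((Si a)^[k] q) * cB E J q) :=
        (hm.comp (((Si_mp a).iterate k).measurable)).mul hm
      rw [← int_iter a k hm2]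
      apply integral_congr_ae
      refine Filter.Eventually.of_forall fun q => ?_
      show cB E J ((Si a)^[k] ((S a)^[k] q)) * cB E J ((S a)^[k] q) = _
      rw [Si_iter_S, mul_comm]
  have h := rel hmp hΦ (cB_meas hE hJ) (cB_abs E J) hn (B := CC * (1 + 2) * u) (by positivity)
    hcor hf hf2 hinv
  have hlhs : ∫ y, ((∫ p in E ×ˢ J, f (p, y)) - volume.real E * volume.real J *
      ∫ p, f (p, y)) ^ 2 ∂ν = ∫ y, (∫ x, f (x, y) * cB E J x) ^ 2 ∂ν := by
    apply integral_congr_ae
    filter_upwards [hf2.prod_left_ae] with y hy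
    have hfm : Measurable (fun x => f (x, y)) := hf.comp measurable_prodMk_right
    have i1 : Integrable (fun x => f (x, y)) := by
      refine Integrable.mono' ((hy.add (integrable_const 1)))
        hfm.aestronglyMeasurable (Filter.Eventually.of_forall fun x => ?_)
      rw [Real.norm_eq_abs]
      show |f (x, y)| ≤ f (x, y) ^ 2 + 1
      nlinarith [sq_abs (f (x, y)), sq_nonneg (|f (x, y)| - 1)]
    congr 1
    have e : ∀ x, f (x, y) * cB E J x =
        (E ×ˢ J).indicator (fun x => f (x, y)) x - volume.real E * volume.real J * f (x, y) := by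
      intro x
      unfold cB
      rw [iB_eq]
      by_cases hx : x ∈ E ×ˢ J
      · rw [Set.indicator_of_mem hx, Set.indicator_of_mem hx]; ring
      · rw [Set.indicator_of_notMem hx, Set.indicator_of_notMem hx]; ring
    simp_rw [e]
    rw [integral_sub (i1.indicator (hE.prod hJ)) (i1.const_mul _), integral_const_mul,
      integral_indicator (hE.prod hJ)]
  rw [hlhs]
  refine h.trans ?_
  apply mul_le_mul_of_nonneg_right _ (integral_nonneg fun q => sq_nonneg _)
  unfold CD
  linarith

/-- **products with other systems, boxes with a Borel set in the second coordinate** -/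
theorem dis_two {a : ℝ} (ha : 1 ≤ |a|) {Y : Type*}
    [MeasurableSpace Y] {ν : Measure Y} [IsProbabilityMeasure ν] {Φ : Y → Y}
    (hΦ : MeasurePreserving Φ ν ν) {f : T2 × Y → ℝ} (hf : Measurable f)
    (hf2 : Integrable (fun q => f q ^ 2) ((volume : Measure T2).prod ν))
    (hinv : ∀ᵐ q ∂((volume : Measure T2).prod ν), f (S a q.1, Φ q.2) = f q)
    {E J : Set UnitAddCircle} (hE : MeasurableSet E) (hJ : MeasurableSet J)
    (happ : Smoothable J 2) :
    ∫ y, ((∫ p in J ×ˢ E, f (p, y)) - volume.real E * volume.real J * ∫ p, f (p, y)) ^ 2 ∂ν ≤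
      CD * |a| ^ (-(1 / 3) : ℝ) * ∫ q, f q ^ 2 ∂((volume : Measure T2).prod ν) := by
  have hsw : MeasurePreserving (Prod.swap : T2 → T2) (volume : Measure T2) volume :=
    Measure.measurePreserving_swap (μ := (volume : Measure UnitAddCircle)) (ν := volume)
  have hτ : MeasurePreserving (Prod.map (Prod.swap : T2 → T2) (id : Y → Y))
      ((volume : Measure T2).prod ν) ((volume : Measure T2).prod ν) :=
    hsw.prod (MeasurePreserving.id ν)
  set f' : T2 × Y → ℝ := fun q => f (q.1.swap, q.2) with hf'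
  have hf'm : Measurable f' := hf.comp hτ.measurable
  have hf'2 : Integrable (fun q => f' q ^ 2) ((volume : Measure T2).prod ν) :=
    hτ.integrable_comp_of_integrable (g := fun q => f q ^ 2) hf2
  have hinv' : ∀ᵐ q ∂((volume : Measure T2).prod ν), f' (Si a q.1, Φ q.2) = f' q := by
    have h1 := hτ.quasiMeasurePreserving.ae hinv
    filter_upwards [h1] with q hq
    have hq' : f (S a q.1.swap, Φ q.2) = f (q.1.swap, q.2) := hq
    show f ((Si a q.1).swap, Φ q.2) = f (q.1.swap, q.2)
    rw [← hq']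
    rfl
  have h := dis_one ha (Or.inr rfl) hΦ hf'm hf'2 hinv' hE hJ happ
  have hint : ∀ (u : T2 → ℝ), Measurable u → ∫ q : T2, u q.swap = ∫ q, u q := by
    intro u hu
    have h4 := hsw.map_eq
    calc ∫ q : T2, u q.swap = ∫ q, u q ∂(Measure.map (Prod.swap : T2 → T2) volume) := by
          rw [integral_map hsw.measurable.aemeasurable hu.aestronglyMeasurable]
      _ = _ := by rw [h4]
  have e1 : ∫ q, f' q ^ 2 ∂((volume : Measure T2).prod ν) =
      ∫ q, f q ^ 2 ∂((volume : Measure T2).prod ν) := by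
    have h4 := hτ.map_eq
    calc ∫ q, f' q ^ 2 ∂((volume : Measure T2).prod ν) =
        ∫ q, f q ^ 2 ∂(Measure.map (Prod.map (Prod.swap : T2 → T2) (id : Y → Y))
          ((volume : Measure T2).prod ν)) := by
          rw [integral_map hτ.measurable.aemeasurable (hf.pow_const 2).aestronglyMeasurable]
          rfl
      _ = _ := by rw [h4]
  have e2 : ∀ y, ∫ p, f' (p, y) = ∫ p, f (p, y) := fun y =>
    hint (fun p => f (p, y)) (hf.comp measurable_prodMk_right)
  have e3 : ∀ y, ∫ p in E ×ˢ J, f' (p, y) = ∫ p in J ×ˢ E, f (p, y) := by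
    intro y
    rw [← integral_indicator (hE.prod hJ), ← integral_indicator (hJ.prod hE)]
    have hfy : Measurable (fun p : T2 => f (p, y)) := hf.comp measurable_prodMk_right
    have e4 := hint ((J ×ˢ E).indicator (fun p : T2 => f (p, y))) (hfy.indicator (hJ.prod hE))
    refine Eq.trans ?_ e4
    apply integral_congr_ae
    refine Filter.Eventually.of_forall fun p => ?_
    show (E ×ˢ J).indicator (fun p => f' (p, y)) p =
      (J ×ˢ E).indicator (fun p => f (p, y)) p.swap
    by_cases hp : p ∈ E ×ˢ J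
    · have hp' : p.swap ∈ J ×ˢ E := ⟨hp.2, hp.1⟩
      rw [Set.indicator_of_mem hp, Set.indicator_of_mem hp']
    · have hp' : p.swap ∉ J ×ˢ E := fun h => hp ⟨h.2, h.1⟩
      rw [Set.indicator_of_notMem hp, Set.indicator_of_notMem hp']
  rw [e1] at h
  simp_rw [e2, e3] at h
  exact h

end Pool.Agent.V8H61.SM
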