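import Pool.Agent.V8H61.SM.Tor

set_option autoImplicit false

/-!
# Critical times and pairs of critical times
-/

namespace Pool.Agent.V8H61.SM

open Real Finset MeasureTheory Function Pool.Agent.TH705.SM
open Pool.Agent.V1152.SMI (cc cc_coe cc_cont)

/-- a cutoff of the critical strip -/
noncomputable def gs (a l x : ℝ) : ℝ := 1 - rho (L a x / l)

theorem gs_cont (a l : ℝ) : Continuous (gs a l) :=
  continuous_const.sub (rho_cont.comp ((L_cont a).div_const l))

theorem gs_per (a l : ℝ) : Periodic (gs a l) 1 := by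
  intro x
  unfold gs
  have := L_period a x 1
  simp only [Nat.cast_one] at this
  rw [this]

theorem gs_nonneg (a l x : ℝ) : 0 ≤ gs a l x := by
  unfold gs
  have := rho_le_one (L a x / l)
  linarith

theorem gs_le (a l x : ℝ) : gs a l x ≤ 1 := by
  unfold gs
  have := rho_nonneg (L a x / l)
  linarith

theorem gs_one {a l x : ℝ} (hl : 0 < l) (h : |L a x| < l) : gs a l x = 1 := by
  unfold gs
  rw [rho_zero, sub_zero]
  rwa [abs_div, abs_of_pos hl, div_lt_one hl]

/-- on the circle -/
noncomputable def gc (a l : ℝ) : UnitAddCircle → ℝ := (gs_per a l).lift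

theorem gc_coe (a l x : ℝ) : gc a l (x : UnitAddCircle) = gs a l x := Periodic.lift_coe _ x

theorem gc_cont (a l : ℝ) : Continuous (gc a l) := lift_cont (gs_per a l) (gs_cont a l)

/-- the cutoff of the good region -/
theorem rr_per (a l : ℝ) : Periodic (fun x => rho (L a x / l)) 1 := by
  intro x
  have := L_period a x 1
  simp only [Nat.cast_one] at this
  simp only [this]

noncomputable def rc (a l : ℝ) : UnitAddCircle → ℝ := (rr_per a l).lift

theorem rc_coe (a l x : ℝ) : rc a l (x : UnitAddCircle) = rho (L a x / l) := Periodic.lift_coe _ x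

theorem rc_cont (a l : ℝ) : Continuous (rc a l) :=
  lift_cont (rr_per a l) (rho_cont.comp ((L_cont a).div_const l))

/-- the critical strip -/
def Cr (a l : ℝ) : Set T2 := {p | 1 ≤ gc a l p.1}

theorem Cr_meas (a l : ℝ) : MeasurableSet (Cr a l) :=
  measurableSet_le measurable_const ((gc_cont a l).comp continuous_fst).measurable

theorem mem_Cr {a l s t : ℝ} (hl : 0 < l) (h : |L a t| < l) :
    ((t : UnitAddCircle), (s : UnitAddCircle)) ∈ Cr a l := by
  show 1 ≤ gc a l (t : UnitAddCircle)
  rw [gc_coe, gs_one hl h]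

theorem vol_le_int {G : T2 → ℝ} (hG : Continuous G) (h0 : ∀ p, 0 ≤ G p) :
    volume.real {p | 1 ≤ G p} ≤ ∫ p, G p := by
  have hm : MeasurableSet {p : T2 | 1 ≤ G p} := measurableSet_le measurable_const hG.measurable
  have h1 : volume.real {p : T2 | 1 ≤ G p} = ∫ p, ({p : T2 | 1 ≤ G p}).indicator (fun _ => (1:ℝ)) p := by
    rw [integral_indicator hm]
    simp
  rw [h1]
  apply integral_mono ((integrable_const 1).indicator hm) (integrable_cont hG)
  intro p
  simp only
  by_cases hp : p ∈ {p : T2 | 1 ≤ G p}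
  · rw [Set.indicator_of_mem hp]; exact hp
  · rw [Set.indicator_of_notMem hp]; exact h0 p

theorem vol_Cr {a l : ℝ} (ha : 0 < |a|) (hl : 16 ≤ l) : volume.real (Cr a l) ≤ l / |a| := by
  have hG : Continuous (fun p : T2 => gc a l p.1) := (gc_cont a l).comp continuous_fst
  have h0 : ∀ p : T2, 0 ≤ gc a l p.1 := by
    rintro ⟨p1, p2⟩
    induction p1 using QuotientAddGroup.induction_on with
    | H x => exact (gc_coe a l x).symm ▸ gs_nonneg a l x
  refine (vol_le_int hG h0).trans ?_
  rw [int_T2 _ (integrable_cont hG)]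
  simp only [gc_coe]
  rw [intervalIntegral.integral_const]
  simp only [sub_zero, one_smul]
  exact kappa_le ha hl

/-- the weight of a pair of critical times at distance `d + 1` -/
noncomputable def Gp (a l : ℝ) (d : ℕ) (p : T2) : ℝ :=
  gc a l p.2 * (∏ i ∈ range d, rc a l0 ((S a)^[i] p).1) * gc a l ((S a)^[d] p).1

theorem Gp_cont (a l : ℝ) (d : ℕ) : Continuous (Gp a l d) := by
  unfold Gp
  refine (((gc_cont a l).comp continuous_snd).mul ?_).mul
    ((gc_cont a l).comp (continuous_fst.comp ((S_cont a).iterate d)))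
  apply continuous_finsetProd
  intro i _
  exact (rc_cont a l0).comp (continuous_fst.comp ((S_cont a).iterate i))

theorem chi_prod (a l s t : ℝ) (d : ℕ) :
    ∏ i ∈ range d, rho (L a (X a s (i + 1) t) / l) = chi a l s d t := by
  induction d with
  | zero => rfl
  | succ d ih =>
    rw [Finset.prod_range_succ, ih]
    rfl

theorem Gp_coe (a l s t : ℝ) (d : ℕ) : Gp a l d ((t : UnitAddCircle), (s : UnitAddCircle)) =
    gs a l s * chi a l0 s d t * gs a l (X a s (d + 1) t) := by
  unfold Gp
  simp only [S_iter_X, gc_coe, rc_coe]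
  rw [chi_prod]

theorem Gp_nonneg (a l : ℝ) (d : ℕ) (p : T2) : 0 ≤ Gp a l d p := by
  obtain ⟨p1, p2⟩ := p
  induction p1 using QuotientAddGroup.induction_on with
  | H t =>
    induction p2 using QuotientAddGroup.induction_on with
    | H s =>
      have h := Gp_coe a l s t d
      have h2 : 0 ≤ gs a l s * chi a l0 s d t * gs a l (X a s (d + 1) t) :=
        mul_nonneg (mul_nonneg (gs_nonneg _ _ _) (chi_mem a l0 s d t).1) (gs_nonneg _ _ _)
      rw [← h] at h2
      exact h2

/-- a pair of critical times at distance `d + 1`, with no critical time in between -/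
def Pe (a l : ℝ) (d : ℕ) : Set T2 := {p | 1 ≤ Gp a l d p}

theorem Pe_meas (a l : ℝ) (d : ℕ) : MeasurableSet (Pe a l d) :=
  measurableSet_le measurable_const (Gp_cont a l d).measurable

theorem mem_Pe {a s t : ℝ} {d : ℕ} (h1 : |L a s| < 2 * l0) (h2 : |L a (X a s (d + 1) t)| < 2 * l0)
    (h3 : ∀ i, 1 ≤ i → i ≤ d → 2 * l0 ≤ |L a (X a s i t)|) :
    ((t : UnitAddCircle), (s : UnitAddCircle)) ∈ Pe a (2 * l0) d := by
  have hl0 := l0_ge
  show 1 ≤ Gp a (2 * l0) d _
  rw [Gp_coe, gs_one (by linarith) h1, gs_one (by linarith) h2, mul_one, one_mul, ← chi_prod]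
  apply le_of_eq
  symm
  apply Finset.prod_eq_one
  intro i hi
  rw [Finset.mem_range] at hi
  apply rho_one
  have h4 := h3 (i + 1) (by omega) (by omega)
  have h5 : 2 ≤ |L a (X a s (i + 1) t) / l0| := by
    rw [abs_div, abs_of_pos (by linarith : 0 < l0), le_div_iff₀ (by linarith)]
    exact h4
  rw [← sq_abs]
  nlinarith

theorem vol_Pe {a : ℝ} (ha : 2 * l0 ≤ |a|) (d : ℕ) :
    volume.real (Pe a (2 * l0) d) ≤ 2 * (2 * l0 / |a|) ^ 2 := by
  have hl0 := l0_ge
  have ha0 : 0 < |a| := by linarith
  set l := 2 * l0 with hl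
  have hk : ∫ x in (0:ℝ)..1, gs a l x ≤ l / |a| := kappa_le ha0 (by linarith)
  have hk0 : 0 ≤ ∫ x in (0:ℝ)..1, gs a l x :=
    intervalIntegral.integral_nonneg zero_le_one fun x _ => gs_nonneg a l x
  refine (vol_le_int (Gp_cont a l d) (Gp_nonneg a l d)).trans ?_
  rw [int_T2 _ (integrable_cont (Gp_cont a l d))]
  simp only [Gp_coe]
  have hin : ∀ s : ℝ, ∫ t in (0:ℝ)..1, gs a l s * chi a l0 s d t * gs a l (X a s (d + 1) t) ≤
      gs a l s * (2 * (l / |a|)) := by
    intro s
    have h1 := dens (a := a) (l := l0) le_rfl (by linarith) s d (gs_cont a l) (gs_per a l)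
      (gs_nonneg a l)
    simp only [mul_assoc]
    rw [intervalIntegral.integral_const_mul]
    apply mul_le_mul_of_nonneg_left _ (gs_nonneg a l s)
    linarith
  have hX := X_cont a
  have hcont : Continuous (fun s : ℝ => ∫ t in (0:ℝ)..1,
      gs a l s * chi a l0 s d t * gs a l (X a s (d + 1) t)) := by
    refine intervalIntegral.continuous_parametric_intervalIntegral_of_continuous' (f := fun s t =>
      gs a l s * chi a l0 s d t * gs a l (X a s (d + 1) t)) ?_ 0 1
    have hG : Continuous fun q : ℝ × ℝ => Gp a l d ((q.2 : UnitAddCircle), (q.1 : UnitAddCircle)) :=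
      (Gp_cont a l d).comp (((AddCircle.continuous_mk' 1).comp continuous_snd).prodMk
        ((AddCircle.continuous_mk' 1).comp continuous_fst))
    refine hG.congr ?_
    rintro ⟨s, t⟩
    exact Gp_coe a l s t d
  calc ∫ s in (0:ℝ)..1, ∫ t in (0:ℝ)..1, gs a l s * chi a l0 s d t * gs a l (X a s (d + 1) t)
      ≤ ∫ s in (0:ℝ)..1, gs a l s * (2 * (l / |a|)) :=
        intervalIntegral.integral_mono_on zero_le_one (hcont.intervalIntegrable _ _)
          (((gs_cont a l).mul continuous_const).intervalIntegrable _ _) (fun s _ => hin s)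
    _ = (∫ s in (0:ℝ)..1, gs a l s) * (2 * (l / |a|)) := intervalIntegral.integral_mul_const _ _
    _ ≤ (l / |a|) * (2 * (l / |a|)) := mul_le_mul_of_nonneg_right hk (by positivity)
    _ = _ := by ring

end Pool.Agent.V8H61.SM
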