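import Pool.Agent.V8H61.SM.Cmp

set_option autoImplicit false

/-!
# The set of the excluded parameters
-/

namespace Pool.Agent.V8H61.SM

open Real Finset MeasureTheory Pool.Agent.TH705.SM

/-- the expansion off the index `0` -/
noncomputable def PP {q : ℕ} [NeZero q] (a : ℝ) (ξ : ZMod q → ℝ) : ℝ :=
  ∏ i, (if i = 0 then 1 else |L a (ξ i)| - 1)

/-- a weakly hyperbolic periodic orbit with at most one point in the strip -/
structure Ell {q : ℕ} [NeZero q] (K θ a : ℝ) (ξ : ZMod q → ℝ) : Prop where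
  int : ∀ i, ∃ m : ℤ, F a (ξ i) = ξ (i - 1) + ξ (i + 1) + m
  rg : ∀ i, -(1 / 4) ≤ ξ i ∧ ξ i < 3 / 4
  out : ∀ i, i ≠ 0 → K ≤ |a * cos (2 * π * ξ i)|
  ell : |Ar (fun k => L a (ξ (k : ZMod q))) q - Dr (fun k => L a (ξ (k : ZMod q))) (q - 1)| ≤
    2 * PP a ξ ^ θ

/-- labels -/
abbrev Lab := ℕ × Bool × Fin 3

def mL (s : Lab) : ℤ := if s.2.1 then -(s.1 : ℤ) else s.1

noncomputable def eL (s : Lab) : ℝ := if s.2.2 = 0 then 0 else 1 / 2

noncomputable def kL (s : Lab) : ℝ :=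
  if s.2.2 = 0 then -(1 / 4) else if s.2.2 = 1 then 1 / 4 else 3 / 4

theorem eL_cases (s : Lab) : eL s = 0 ∨ eL s = 1 / 2 := by
  unfold eL; split_ifs <;> simp

theorem kL_cases (s : Lab) : kL s = -(1 / 4) ∨ kL s = 1 / 4 ∨ kL s = 3 / 4 := by
  unfold kL; split_ifs <;> simp

/-- the labels at the index `i` -/
def SL (N : ℕ) {q : ℕ} (i : ZMod q) : Finset Lab :=
  if i = 0 then ((range (N + 5)).filter (fun j => N ≤ j + 2)) ×ˢ (univ : Finset (Bool × Fin 3))
  else range (N + 5) ×ˢ (univ : Finset Bool) ×ˢ ({0, 1} : Finset (Fin 3))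

/-- the weights -/
noncomputable def WL (K : ℝ) (N : ℕ) (s : Lab) : ℝ :=
  if s.1 + 3 ≤ N then 1 / (10 * N * (N - 2 - s.1)) else 1 / (6 * K - 3) ^ 2

noncomputable def WI (K θ : ℝ) (N : ℕ) {q : ℕ} (i : ZMod q) (s : Lab) : ℝ :=
  if i = 0 then 1 else WL K N s ^ (1 - θ)

theorem WL_pos {K : ℝ} (hK : 4 ≤ K) {N : ℕ} (hN : 100 ≤ N) (s : Lab) :
    0 < WL K N s ∧ WL K N s ≤ 1 := by
  unfold WL
  split_ifs with h
  · have h1 : (s.1:ℝ) + 3 ≤ N := by exact_mod_cast h
    have h2 : (100:ℝ) ≤ N := by exact_mod_cast hN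
    have h3 : 1 ≤ (N:ℝ) - 2 - s.1 := by linarith
    constructor
    · positivity
    · rw [div_le_one (by positivity)]
      nlinarith
  · have h1 : 1 ≤ (6 * K - 3) ^ 2 := one_le_pow₀ (by linarith)
    constructor
    · positivity
    · rw [div_le_one (by positivity)]
      exact h1

theorem WI_pos {K θ : ℝ} (hK : 4 ≤ K) (hθ : θ ≤ 1) {N : ℕ} (hN : 100 ≤ N) {q : ℕ} (i : ZMod q)
    (s : Lab) : 0 < WI K θ N i s ∧ WI K θ N i s ≤ 1 := by
  unfold WI
  split_ifs
  · norm_num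
  · obtain ⟨h1, h2⟩ := WL_pos hK hN s
    exact ⟨Real.rpow_pos_of_pos h1 _, Real.rpow_le_one h1.le h2 (by linarith)⟩

/-- the products of the two distances -/
theorem dist_prod {N : ℕ} {a x : ℝ} {m : ℤ} (hN : 100 ≤ N) (ha : (N:ℝ) ≤ a)
    (hx : -(1 / 4) ≤ x ∧ x ≤ 3 / 4) {y : ℝ} (hy : -(1 / 2) ≤ y ∧ y ≤ 3 / 2)
    (h : F a x = y + m) :
    ((N:ℝ) - |(m:ℝ)| - 2 ≤ 0 ∨ N * ((N:ℝ) - |(m:ℝ)| - 2) ≤ (a * cos (2 * π * x)) ^ 2) := by
  have hN' : (100:ℝ) ≤ N := by exact_mod_cast hN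
  set s := sin (2 * π * x) with hs
  have hF : 2 * x + a * s = y + m := h
  have hsc : (a * cos (2 * π * x)) ^ 2 = (a * (1 - s)) * (a * (1 + s)) := by
    have := Real.sin_sq_add_cos_sq (2 * π * x)
    rw [← hs] at this
    have e : cos (2 * π * x) ^ 2 = 1 - s ^ 2 := by linarith
    rw [mul_pow, e]
    ring
  have hs1 := Real.sin_le_one (2 * π * x)
  have hs2 := Real.neg_one_le_sin (2 * π * x)
  rw [← hs] at hs1 hs2
  by_cases hk : (N:ℝ) - |(m:ℝ)| - 2 ≤ 0
  · exact Or.inl hk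
  rw [not_le] at hk
  right
  have h1 : (N:ℝ) - |(m:ℝ)| - 2 ≤ a * (1 - s) := by
    have := le_abs_self (m:ℝ)
    nlinarith
  have h2 : (N:ℝ) - |(m:ℝ)| - 2 ≤ a * (1 + s) := by
    have := neg_abs_le (m:ℝ)
    nlinarith
  rw [hsc]
  rcases le_total 0 s with h3 | h3
  · have h4 : (N:ℝ) ≤ a * (1 + s) := by nlinarith
    calc (N:ℝ) * (N - |(m:ℝ)| - 2) = (N - |(m:ℝ)| - 2) * N := by ring
      _ ≤ a * (1 - s) * (a * (1 + s)) := mul_le_mul h1 h4 (by positivity) (hk.le.trans h1)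
  · have h4 : (N:ℝ) ≤ a * (1 - s) := by nlinarith
    exact mul_le_mul h4 h2 hk.le (by linarith)

theorem m_range {N : ℕ} {a x : ℝ} {m : ℤ} (ha2 : a ≤ N + 1) (ha0 : 0 ≤ a)
    (hx : -(1 / 4) ≤ x ∧ x ≤ 3 / 4) {y : ℝ} (hy : -(1 / 2) ≤ y ∧ y ≤ 3 / 2)
    (h : F a x = y + m) : m.natAbs < N + 5 := by
  have hF : 2 * x + a * sin (2 * π * x) = y + m := h
  have hs1 := Real.sin_le_one (2 * π * x)
  have hs2 := Real.neg_one_le_sin (2 * π * x)
  have h1 : (m:ℝ) ≤ N + 3 := by nlinarith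
  have h2 : -((N:ℝ) + 4) ≤ m := by nlinarith
  have h3 : m ≤ N + 3 := by exact_mod_cast h1
  have h4 : -((N:ℤ) + 4) ≤ m := by
    have : ((-((N:ℤ) + 4) : ℤ) : ℝ) ≤ (m:ℝ) := by push_cast; linarith
    exact_mod_cast this
  omega

/-- the weight of a point outside the strip -/
theorem weight {K : ℝ} (hK : 4 ≤ K) {N : ℕ} {a x : ℝ} {m : ℤ} (hN : 100 ≤ N) (ha : (N:ℝ) ≤ a)
    (hx : -(1 / 4) ≤ x ∧ x ≤ 3 / 4) {y : ℝ} (hy : -(1 / 2) ≤ y ∧ y ≤ 3 / 2)
    (h : F a x = y + m) (hout : K ≤ |a * cos (2 * π * x)|) (s : Lab) (hs : s.1 = m.natAbs) :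
    1 ≤ WL K N s * (|L a x| - 1) ^ 2 ∧ 22 ≤ |L a x| := by
  have hN' : (100:ℝ) ≤ N := by exact_mod_cast hN
  have hL := L_out hout (by linarith)
  refine ⟨?_, by linarith⟩
  have habs : |(m:ℝ)| = (s.1:ℝ) := by
    rw [hs, ← Int.cast_abs, Int.abs_eq_natAbs]
    simp
  unfold WL
  split_ifs with hc
  · have h1 : (s.1:ℝ) + 3 ≤ N := by exact_mod_cast hc
    have h2 := dist_prod hN ha hx hy h
    rw [habs] at h2
    rcases h2 with h2 | h2
    · linarith
    · set C := |a * cos (2 * π * x)| with hC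
      have hCsq : (a * cos (2 * π * x)) ^ 2 = C ^ 2 := (sq_abs _).symm
      rw [hCsq] at h2
      have hC10 : 10 ≤ C := by
        by_contra hcon
        rw [not_le] at hcon
        have : C ^ 2 < 100 := by nlinarith
        nlinarith
      have h3 := L_out (le_refl C) (by linarith)
      have h4 : 5.98 * C ≤ |L a x| - 1 := by linarith
      have h5 : (5.98 * C) ^ 2 ≤ (|L a x| - 1) ^ 2 := pow_le_pow_left₀ (by positivity) h4 2
      have h6 : (0:ℝ) < 10 * N * (N - 2 - s.1) := by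
        have : 0 < (N:ℝ) - 2 - s.1 := by linarith
        positivity
      rw [div_mul_eq_mul_div, one_mul, le_div_iff₀ h6]
      nlinarith
  · have h4 : 6 * K - 3 ≤ |L a x| - 1 := by linarith
    have h5 : (6 * K - 3) ^ 2 ≤ (|L a x| - 1) ^ 2 := pow_le_pow_left₀ (by linarith) h4 2
    have h6 : 0 < (6 * K - 3) ^ 2 := by
      have : 0 < 6 * K - 3 := by linarith
      positivity
    rw [div_mul_eq_mul_div, one_mul, le_div_iff₀ h6, one_mul]
    exact h5

theorem one_le_prod {ι : Type*} (s : Finset ι) {g : ι → ℝ} (h : ∀ i ∈ s, 1 ≤ g i) :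
    1 ≤ ∏ i ∈ s, g i := by
  have := Finset.prod_le_prod (s := s) (f := fun _ => (1:ℝ)) (g := g)
    (fun _ _ => zero_le_one) h
  simpa using this

theorem label_exists {K θ : ℝ} (hK : 4 ≤ K) (hθ0 : 0 ≤ θ) (hθ : θ < 1) {N : ℕ} (hN : 100 ≤ N)
    {q : ℕ} [NeZero q] {a : ℝ} (ha : (N:ℝ) ≤ a)
    (ha2 : a ≤ N + 1) {ξ : ZMod q → ℝ} (h : Ell K θ a ξ) :
    ∃ f ∈ Fintype.piFinset (fun i : ZMod q => SL N i),
      Orb a ξ (fun i => mL (f i)) (fun i => eL (f i)) (kL (f 0)) ∧
      ∃ w, Sol (fun i => L a (ξ i)) w ∧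
        |dfc (fun i => L a (ξ i)) w| ≤ 4 * √(∏ i, WI K θ N i (f i)) := by
  classical
  have hN' : (100:ℝ) ≤ N := by exact_mod_cast hN
  have ha0 : 0 < a := by linarith
  choose m hm using h.int
  have hy : ∀ i, -(1 / 2) ≤ ξ (i - 1) + ξ (i + 1) ∧ ξ (i - 1) + ξ (i + 1) ≤ 3 / 2 := fun i => by
    have h1 := h.rg (i - 1)
    have h2 := h.rg (i + 1)
    constructor <;> linarith [h1.1, h1.2, h2.1, h2.2]
  have hx : ∀ i, -(1 / 4) ≤ ξ i ∧ ξ i ≤ 3 / 4 := fun i => ⟨(h.rg i).1, (h.rg i).2.le⟩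
  have hl : ∀ i, i ≠ 0 → 22 ≤ |L a (ξ i)| := fun i hi =>
    (weight hK hN ha (hx i) (hy i) (hm i) (h.out i hi) ((m i).natAbs, true, 0) rfl).2
  obtain ⟨w, hw⟩ := sol_exists (c := fun i => L a (ξ i)) (l := 22) (by norm_num) hl
  -- the product
  have htr := trace_eq hw
  have hDr := Dr_ge_zmod (c := fun i => L a (ξ i)) (fun i hi => by linarith [hl i hi])
  have hell := h.ell
  have hPP : PP a ξ = ∏ i, (if i = 0 then 1 else |L a (ξ i)| - 1) := rfl
  rw [← hPP] at hDr
  set P := PP a ξ with hP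
  have hP1 : 1 ≤ P := by
    rw [hPP]
    apply one_le_prod
    intro i _
    split_ifs with hi
    · exact le_rfl
    · linarith [hl i hi]
  have hPθ : 1 ≤ P ^ θ := Real.one_le_rpow hP1 hθ0
  have hdP : |dfc (fun i => L a (ξ i)) w| * P ≤ 4 * P ^ θ := by
    calc |dfc (fun i => L a (ξ i)) w| * P ≤ |dfc (fun i => L a (ξ i)) w| *
        |Dr (fun k => (fun i => L a (ξ i)) (k : ZMod q)) q| :=
          mul_le_mul_of_nonneg_left hDr (abs_nonneg _)
      _ = |Ar (fun k => (fun i => L a (ξ i)) (k : ZMod q)) q -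
          Dr (fun k => (fun i => L a (ξ i)) (k : ZMod q)) (q - 1) - 2| := by
        rw [← abs_mul, htr]
      _ ≤ |Ar (fun k => (fun i => L a (ξ i)) (k : ZMod q)) q -
          Dr (fun k => (fun i => L a (ξ i)) (k : ZMod q)) (q - 1)| + |(2:ℝ)| := abs_sub _ _
      _ ≤ 2 * P ^ θ + 2 := add_le_add hell (by norm_num)
      _ ≤ 4 * P ^ θ := by linarith
  have hP0 : 0 < P := by linarith
  have hd4' : |dfc (fun i => L a (ξ i)) w| ≤ 4 * P ^ (-(1 - θ)) := by
    have e : P ^ (-(1 - θ)) = P ^ θ / P := by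
      rw [show -(1 - θ) = θ - 1 by ring, Real.rpow_sub hP0, Real.rpow_one]
    rw [e, mul_div_assoc', le_div_iff₀ hP0]
    exact hdP
  have hd4 : |dfc (fun i => L a (ξ i)) w| ≤ 4 := by
    have h1 : P ^ (-(1 - θ)) ≤ 1 := Real.rpow_le_one_of_one_le_of_nonpos hP1 (by linarith)
    linarith
  have hc6 : |L a (ξ 0)| ≤ 6 := by
    have w1 : ∀ i, |w i| ≤ 1 := by
      intro i
      by_cases hi : i = 0
      · rw [hi, hw.one, abs_one]
      · have := sol_le (l := 22) (by norm_num) hl hw i hi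
        norm_num at this
        linarith
    have e : L a (ξ 0) = dfc (fun i => L a (ξ i)) w + (w (-1) + w 1) := by unfold dfc; ring
    rw [e]
    refine (abs_add_le _ _).trans ?_
    have := abs_add_le (w (-1)) (w 1)
    linarith [w1 (-1), w1 1]
  -- the labels
  set b : ZMod q → Fin 3 := fun i =>
    if i = 0 then (if ξ 0 ≤ 0 then 0 else if ξ 0 ≤ 1 / 2 then 1 else 2)
    else (if ξ i ≤ 1 / 4 then 0 else 1) with hb
  set f : ZMod q → Lab := fun i => ((m i).natAbs, decide (m i < 0), b i) with hf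
  have hmL : ∀ i, mL (f i) = m i := by
    intro i
    unfold mL
    by_cases h1 : m i < 0
    · have e : (f i).2.1 = true := decide_eq_true h1
      rw [if_pos e]
      show -((m i).natAbs : ℤ) = m i
      omega
    · have e : ¬ (f i).2.1 = true := by
        show ¬ decide (m i < 0) = true
        simpa using h1
      rw [if_neg e]
      show ((m i).natAbs : ℤ) = m i
      omega
  refine ⟨f, ?_, ⟨?_, ?_, ?_, fun i hi => hK.trans (h.out i hi)⟩, w, hw, ?_⟩
  · rw [Fintype.mem_piFinset]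
    intro i
    have hrange := m_range ha2 ha0.le (hx i) (hy i) (hm i)
    unfold SL
    by_cases hi : i = 0
    · rw [if_pos hi, Finset.mem_product]
      refine ⟨Finset.mem_filter.2 ⟨Finset.mem_range.2 hrange, ?_⟩, Finset.mem_univ _⟩
      show N ≤ (m i).natAbs + 2
      rw [hi]
      rcases dist_prod hN ha (hx 0) (hy 0) (hm 0) with h1 | h1
      · have habs : |((m 0 : ℤ) : ℝ)| = (((m 0).natAbs : ℕ) : ℝ) := by
          rw [← Int.cast_abs, Int.abs_eq_natAbs]
          simp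
        rw [habs] at h1
        have : (N:ℝ) ≤ ((m 0).natAbs : ℝ) + 2 := by linarith
        exact_mod_cast this
      · have h2 := L_in hc6
        have h3 : (a * cos (2 * π * ξ 0)) ^ 2 ≤ 1.69 := by
          rw [← sq_abs]
          calc |a * cos (2 * π * ξ 0)| ^ 2 ≤ 1.3 ^ 2 := pow_le_pow_left₀ (abs_nonneg _) h2 2
            _ = 1.69 := by norm_num
        have habs : |((m 0 : ℤ) : ℝ)| = (((m 0).natAbs : ℕ) : ℝ) := by
          rw [← Int.cast_abs, Int.abs_eq_natAbs]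
          simp
        rw [habs] at h1
        have h4 : (N:ℝ) - ((m 0).natAbs : ℝ) - 2 < 1 := by
          by_contra hcon
          rw [not_lt] at hcon
          nlinarith
        have h5 : (N:ℝ) < ((m 0).natAbs : ℝ) + 3 := by linarith
        have h6 : N < (m 0).natAbs + 3 := by exact_mod_cast h5
        omega
    · rw [if_neg hi, Finset.mem_product, Finset.mem_product]
      refine ⟨Finset.mem_range.2 hrange, Finset.mem_univ _, ?_⟩
      show b i ∈ ({0, 1} : Finset (Fin 3))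
      rw [hb]
      simp only [if_neg hi]
      split_ifs <;> simp
  · intro i
    simp only [hmL]
    exact hm i
  · intro i hi
    have h1 := hx i
    show |ξ i - eL (f i)| ≤ 1 / 4
    have h2 : eL (f i) = if b i = 0 then 0 else 1 / 2 := rfl
    have h3 : b i = if ξ i ≤ 1 / 4 then 0 else 1 := by rw [hb]; simp only [if_neg hi]
    by_cases hc : ξ i ≤ 1 / 4
    · rw [h2, h3, if_pos hc, if_pos rfl, abs_le]
      constructor <;> linarith [h1.1]
    · rw [h2, h3, if_neg hc, if_neg (by decide), abs_le]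
      rw [not_le] at hc
      constructor <;> linarith [h1.2]
  · have h1 := hx 0
    show |ξ 0 - kL (f 0)| ≤ 1 / 4
    have h2 : kL (f 0) = if b 0 = 0 then -(1 / 4) else if b 0 = 1 then 1 / 4 else 3 / 4 := rfl
    have h3 : b 0 = if ξ 0 ≤ 0 then 0 else if ξ 0 ≤ 1 / 2 then 1 else 2 := by
      rw [hb]; simp only [if_true]
    by_cases hc : ξ 0 ≤ 0
    · rw [h2, h3, if_pos hc, if_pos rfl, abs_le]
      constructor <;> linarith [h1.1]
    · by_cases hc2 : ξ 0 ≤ 1 / 2
      · rw [h2, h3, if_neg hc, if_pos hc2, if_neg (by decide), if_pos rfl, abs_le]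
        rw [not_le] at hc
        constructor <;> linarith
      · rw [h2, h3, if_neg hc, if_neg hc2, if_neg (by decide), if_neg (by decide), abs_le]
        rw [not_le] at hc2
        constructor <;> linarith [h1.2]
  · -- the weights
    have hW : 1 ≤ (∏ i, (if i = 0 then 1 else WL K N (f i))) * P ^ 2 := by
      rw [hPP, ← Finset.prod_pow, ← Finset.prod_mul_distrib]
      apply one_le_prod
      intro i _
      by_cases hi : i = 0
      · rw [if_pos hi, if_pos hi]; norm_num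
      · rw [if_neg hi, if_neg hi]
        exact (weight hK hN ha (hx i) (hy i) (hm i) (h.out i hi) (f i) rfl).1
    have hW0 : ∀ i : ZMod q, (0:ℝ) ≤ (if i = 0 then 1 else WL K N (f i)) := by
      intro i
      split_ifs
      · norm_num
      · exact (WL_pos hK hN _).1.le
    set Qw := ∏ i, (if i = 0 then 1 else WL K N (f i)) with hQw
    have hQ0 : 0 ≤ Qw := Finset.prod_nonneg fun i _ => hW0 i
    have hPw : ∏ i, WI K θ N i (f i) = Qw ^ (1 - θ) := by
      rw [hQw, ← Real.finsetProd_rpow _ _ (fun i _ => hW0 i)]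
      apply Finset.prod_congr rfl
      intro i _
      unfold WI
      split_ifs
      · rw [Real.one_rpow]
      · rfl
    have h1 : P ^ (-(1 - θ)) ≤ √(∏ i, WI K θ N i (f i)) := by
      rw [hPw]
      apply Real.le_sqrt_of_sq_le
      have h2 : (P ^ 2)⁻¹ ≤ Qw := by
        rw [inv_le_iff_one_le_mul₀ (by positivity)]
        exact hW
      calc (P ^ (-(1 - θ))) ^ 2 = ((P ^ 2)⁻¹) ^ (1 - θ) := by
            rw [Real.rpow_neg hP0.le, inv_pow, Real.inv_rpow (by positivity),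
              ← Real.rpow_natCast, ← Real.rpow_natCast, ← Real.rpow_mul hP0.le,
              ← Real.rpow_mul hP0.le, mul_comm ((2:ℕ):ℝ) (1 - θ)]
        _ ≤ Qw ^ (1 - θ) := Real.rpow_le_rpow (by positivity) h2 (by linarith)
    linarith

/-- the parameters with an elliptic orbit with the labels `f` -/
def EL (K θ : ℝ) (N : ℕ) {q : ℕ} [NeZero q] (f : ZMod q → Lab) : Set ℝ :=
  {a | (N:ℝ) ≤ a ∧ a ≤ N + 1 ∧ ∃ ξ : ZMod q → ℝ,
    Orb a ξ (fun i => mL (f i)) (fun i => eL (f i)) (kL (f 0)) ∧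
      ∃ w, Sol (fun i => L a (ξ i)) w ∧
        |dfc (fun i => L a (ξ i)) w| ≤ 4 * √(∏ i, WI K θ N i (f i))}

theorem vol_EL {K θ : ℝ} (hK : 4 ≤ K) (hθ : θ < 1) {N : ℕ} (hN : 100 ≤ N) {q : ℕ} [NeZero q]
    (f : ZMod q → Lab) :
    volume (EL K θ N f) ≤ ENNReal.ofReal (16 * (∏ i, WI K θ N i (f i)) / N) := by
  have hN' : (100:ℝ) ≤ N := by exact_mod_cast hN
  set Pw := ∏ i, WI K θ N i (f i) with hPw
  have hPw0 : 0 ≤ Pw := Finset.prod_nonneg fun i _ => (WI_pos hK hθ.le hN i _).1.le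
  have hPw1 : Pw ≤ 1 := Finset.prod_le_one (fun i _ => (WI_pos hK hθ.le hN i _).1.le)
    fun i _ => (WI_pos hK hθ.le hN i _).2
  have hs1 : √Pw ≤ 1 := Real.sqrt_le_one.2 hPw1
  refine (Real.volume_le_diam _).trans ?_
  apply Metric.ediam_le
  rintro a ⟨a1, a2, ξ, hξ, w, hw, hη⟩ a' ⟨b1, b2, ξ', hξ', w', hw', hη'⟩
  rw [edist_dist, Real.dist_eq, abs_sub_comm]
  apply ENNReal.ofReal_le_ofReal
  have h := compare hN' a1 a2 b1 b2 (fun i => eL_cases (f i)) (kL_cases (f 0)) hξ hξ' hw hw' hη hη'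
    (by linarith)
  refine h.trans (le_of_eq ?_)
  rw [mul_pow, Real.sq_sqrt hPw0]
  norm_num

/-- the sum of the weights at an index -/
theorem sum_W {K θ : ℝ} (hK : 4 ≤ K) (hθ0 : 0 ≤ θ) (hθ : θ < 1)
    (hKθ : 15 ≤ (6 * K - 3) ^ (1 - θ)) {N : ℕ} (hN : 100 ≤ N)
    (hN2 : (N:ℝ) ^ (2 * θ - 1) * (1 + Real.log N) ≤ 1 / 32) {q : ℕ} (i : ZMod q) :
    ∑ s ∈ SL N i, WI K θ N i s ≤ if i = 0 then 42 else 1 / 4 := by
  have hN' : (100:ℝ) ≤ N := by exact_mod_cast hN
  unfold SL WI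
  by_cases hi : i = 0
  · simp only [if_pos hi]
    rw [Finset.sum_const, nsmul_eq_mul, mul_one, Finset.card_product]
    have h1 : ((range (N + 5)).filter (fun j => N ≤ j + 2)).card ≤ 7 := by
      have hsub : (range (N + 5)).filter (fun j => N ≤ j + 2) ⊆ Finset.Icc (N - 2) (N + 4) := by
        intro j hj
        rw [Finset.mem_filter, Finset.mem_range] at hj
        rw [Finset.mem_Icc]
        omega
      have := Finset.card_le_card hsub
      rw [Nat.card_Icc] at this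
      omega
    have h2 : (univ : Finset (Bool × Fin 3)).card = 6 := by rfl
    rw [h2]
    have h3 : (((range (N + 5)).filter (fun j => N ≤ j + 2)).card : ℝ) ≤ 7 := by exact_mod_cast h1
    push_cast
    linarith
  · simp only [if_neg hi]
    have e : ∑ s ∈ range (N + 5) ×ˢ (univ : Finset Bool) ×ˢ ({0, 1} : Finset (Fin 3)),
        WL K N s ^ (1 - θ) = 4 * ∑ j ∈ range (N + 5), (if j + 3 ≤ N then
          1 / (10 * (N:ℝ) * (N - 2 - j)) else 1 / (6 * K - 3) ^ 2) ^ (1 - θ) := by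
      rw [Finset.sum_product]
      rw [Finset.mul_sum]
      apply Finset.sum_congr rfl
      intro j _
      unfold WL
      simp only
      rw [Finset.sum_const, nsmul_eq_mul]
      have : ((univ : Finset Bool) ×ˢ ({0, 1} : Finset (Fin 3))).card = 4 := by rfl
      rw [this]
      norm_num
    rw [e]
    obtain ⟨M, rfl⟩ : ∃ M, N = M + 2 := ⟨N - 2, by omega⟩
    rw [show M + 2 + 5 = M + 7 by ring, Finset.sum_range_add]
    have h1 : ∑ j ∈ range M, (if j + 3 ≤ M + 2 then 1 / (10 * ((M + 2 : ℕ) : ℝ) *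
        (((M + 2 : ℕ) : ℝ) - 2 - j)) else 1 / (6 * K - 3) ^ 2) ^ (1 - θ) ≤ 1 / 32 := by
      have hM0 : (0:ℝ) < ((M + 2 : ℕ) : ℝ) := by positivity
      set T := ((M + 2 : ℕ) : ℝ) with hT
      have e1 : ∑ j ∈ range M, (if j + 3 ≤ M + 2 then 1 / (10 * T *
          (T - 2 - j)) else 1 / (6 * K - 3) ^ 2) ^ (1 - θ) ≤
          T ^ (2 * θ - 1) * ∑ j ∈ range M, (((j + 1 : ℕ) : ℝ))⁻¹ := by
        rw [← Finset.sum_range_reflect, Finset.mul_sum]
        apply Finset.sum_le_sum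
        intro j hj
        rw [Finset.mem_range] at hj
        rw [if_pos (by omega)]
        have e2 : (T - 2 - ((M - 1 - j : ℕ) : ℝ)) = ((j + 1 : ℕ) : ℝ) := by
          have : (M - 1 - j) + (j + 1) = M := by omega
          have h3 : ((M - 1 - j : ℕ) : ℝ) + ((j + 1 : ℕ) : ℝ) = M := by exact_mod_cast this
          rw [hT]
          push_cast at h3 ⊢
          linarith
        rw [e2]
        set J := ((j + 1 : ℕ) : ℝ) with hJ
        have hJ0 : 0 < J := by positivity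
        have hJT : J ≤ T := by
          rw [hJ, hT]
          exact_mod_cast (by omega : j + 1 ≤ M + 2)
        have h4 : 1 / (10 * T * J) ≤ (T * J)⁻¹ := by
          rw [one_div]
          apply inv_anti₀ (by positivity)
          nlinarith [mul_pos hM0 hJ0]
        calc (1 / (10 * T * J)) ^ (1 - θ) ≤ ((T * J)⁻¹) ^ (1 - θ) :=
              Real.rpow_le_rpow (by positivity) h4 (by linarith)
          _ = (T * J) ^ θ * (T * J)⁻¹ := by
              rw [Real.inv_rpow (by positivity), ← Real.rpow_neg (by positivity),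
                show -(1 - θ) = θ + (-1) by ring, Real.rpow_add (by positivity),
                Real.rpow_neg_one]
          _ ≤ (T * T) ^ θ * (T * J)⁻¹ := by
              apply mul_le_mul_of_nonneg_right _ (by positivity)
              exact Real.rpow_le_rpow (by positivity) (mul_le_mul_of_nonneg_left hJT hM0.le) hθ0
          _ = T ^ (2 * θ - 1) * J⁻¹ := by
              rw [mul_inv, ← mul_assoc, Real.mul_rpow hM0.le hM0.le, ← Real.rpow_add hM0,
                show 2 * θ - 1 = (θ + θ) + (-1) by ring, Real.rpow_add hM0 (θ + θ),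
                Real.rpow_neg_one]
      refine e1.trans ?_
      have h2 : ∑ j ∈ range M, (((j + 1 : ℕ) : ℝ))⁻¹ ≤ 1 + Real.log T := by
        have := harmonic_le_one_add_log M
        unfold harmonic at this
        push_cast at this
        have h3 : Real.log M ≤ Real.log T := by
          rcases Nat.eq_zero_or_pos M with h0 | h0
          · omega
          · apply Real.log_le_log (by exact_mod_cast h0)
            rw [hT]; push_cast; linarith
        refine le_trans ?_ (add_le_add le_rfl h3)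
        push_cast
        exact this
      exact (mul_le_mul_of_nonneg_left h2 (by positivity)).trans hN2
    have h2 : ∑ k ∈ range 7, (if M + k + 3 ≤ M + 2 then 1 / (10 * ((M + 2 : ℕ) : ℝ) *
        (((M + 2 : ℕ) : ℝ) - 2 - ((M + k : ℕ) : ℝ))) else 1 / (6 * K - 3) ^ 2) ^ (1 - θ) ≤
        7 / 225 := by
      have hK0 : 0 < 6 * K - 3 := by linarith
      have h3 : (1 / (6 * K - 3) ^ 2) ^ (1 - θ) ≤ 1 / 225 := by
        have e2 : (1 / (6 * K - 3) ^ 2) ^ (1 - θ) = 1 / ((6 * K - 3) ^ (1 - θ)) ^ 2 := by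
          rw [Real.div_rpow (by norm_num) (by positivity), Real.one_rpow, ← Real.rpow_natCast,
            ← Real.rpow_natCast, ← Real.rpow_mul hK0.le, ← Real.rpow_mul hK0.le,
            mul_comm ((2:ℕ):ℝ) (1 - θ)]
        rw [e2]
        apply one_div_le_one_div_of_le (by norm_num)
        calc (225:ℝ) = 15 ^ 2 := by norm_num
          _ ≤ _ := pow_le_pow_left₀ (by norm_num) hKθ 2
      have : ∀ k ∈ range 7, (if M + k + 3 ≤ M + 2 then 1 / (10 * ((M + 2 : ℕ) : ℝ) *
        (((M + 2 : ℕ) : ℝ) - 2 - ((M + k : ℕ) : ℝ))) else 1 / (6 * K - 3) ^ 2) ^ (1 - θ) ≤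
          1 / 225 := by
        intro k _
        rw [if_neg (by omega)]
        exact h3
      refine (Finset.sum_le_sum this).trans (le_of_eq ?_)
      rw [Finset.sum_const, card_range]
      norm_num
    have h3 := add_le_add h1 h2
    refine (mul_le_mul_of_nonneg_left h3 (by norm_num)).trans ?_
    norm_num

/-- the parameters with a weakly hyperbolic orbit of length `q` -/
def EQ (K θ : ℝ) (N q : ℕ) [NeZero q] : Set ℝ :=
  {a | (N:ℝ) ≤ a ∧ a ≤ N + 1 ∧ ∃ ξ : ZMod q → ℝ, Ell K θ a ξ}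

theorem vol_EQ {K θ : ℝ} (hK : 4 ≤ K) (hθ0 : 0 ≤ θ) (hθ : θ < 1)
    (hKθ : 15 ≤ (6 * K - 3) ^ (1 - θ)) {N : ℕ} (hN : 100 ≤ N)
    (hN2 : (N:ℝ) ^ (2 * θ - 1) * (1 + Real.log N) ≤ 1 / 32) (q : ℕ) [NeZero q] :
    volume (EQ K θ N q) ≤ ENNReal.ofReal (672 / N * (1 / 4) ^ (q - 1)) := by
  classical
  have hN' : (100:ℝ) ≤ N := by exact_mod_cast hN
  have hWp : ∀ (i : ZMod q) (s : Lab), 0 ≤ WI K θ N i s := fun i s => (WI_pos hK hθ.le hN i s).1.le
  have hsub : EQ K θ N q ⊆ ⋃ f ∈ Fintype.piFinset (fun i : ZMod q => SL N i), EL K θ N f := by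
    rintro a ⟨a1, a2, ξ, hξ⟩
    obtain ⟨f, hf, h1, h2⟩ := label_exists hK hθ0 hθ hN a1 a2 hξ
    simp only [Set.mem_iUnion, exists_prop]
    exact ⟨f, hf, a1, a2, ξ, h1, h2⟩
  have hpos : ∀ (f : ZMod q → Lab), 0 ≤ 16 * (∏ i, WI K θ N i (f i)) / (N:ℝ) := fun f => by
    have : 0 ≤ ∏ i, WI K θ N i (f i) := Finset.prod_nonneg fun i _ => hWp i _
    positivity
  calc volume (EQ K θ N q) ≤
        volume (⋃ f ∈ Fintype.piFinset (fun i : ZMod q => SL N i), EL K θ N f) :=
        measure_mono hsub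
    _ ≤ ∑ f ∈ Fintype.piFinset (fun i : ZMod q => SL N i), volume (EL K θ N f) :=
        measure_biUnion_finset_le _ _
    _ ≤ ∑ f ∈ Fintype.piFinset (fun i : ZMod q => SL N i),
        ENNReal.ofReal (16 * (∏ i, WI K θ N i (f i)) / N) :=
          Finset.sum_le_sum fun f _ => vol_EL hK hθ hN f
    _ = ENNReal.ofReal (∑ f ∈ Fintype.piFinset (fun i : ZMod q => SL N i),
        16 * (∏ i, WI K θ N i (f i)) / N) := by
        rw [ENNReal.ofReal_sum_of_nonneg fun f _ => hpos f]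
    _ ≤ _ := by
        apply ENNReal.ofReal_le_ofReal
        have e1 : ∑ f ∈ Fintype.piFinset (fun i : ZMod q => SL N i),
            16 * (∏ i, WI K θ N i (f i)) / (N:ℝ) =
            16 / N * ∏ i : ZMod q, ∑ s ∈ SL N i, WI K θ N i s := by
          rw [Finset.prod_univ_sum, Finset.mul_sum]
          apply Finset.sum_congr rfl
          intro f _
          ring
        rw [e1]
        have h1 : ∏ i : ZMod q, ∑ s ∈ SL N i, WI K θ N i s ≤
            ∏ i : ZMod q, (if i = 0 then (42:ℝ) else 1 / 4) :=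
          Finset.prod_le_prod (fun i _ => Finset.sum_nonneg fun s _ => hWp i s)
            fun i _ => sum_W hK hθ0 hθ hKθ hN hN2 i
        have h2 : ∏ i : ZMod q, (if i = 0 then (42:ℝ) else 1 / 4) = 42 * (1 / 4) ^ (q - 1) := by
          rw [← Finset.mul_prod_erase _ _ (Finset.mem_univ (0 : ZMod q)), if_pos rfl]
          congr 1
          have : ∀ i ∈ univ.erase (0 : ZMod q), (if i = 0 then (42:ℝ) else 1 / 4) = 1 / 4 :=
            fun i hi => if_neg (Finset.ne_of_mem_erase hi)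
          rw [Finset.prod_congr rfl this, Finset.prod_const,
            Finset.card_erase_of_mem (Finset.mem_univ _), Finset.card_univ, ZMod.card]
        rw [h2] at h1
        calc 16 / (N:ℝ) * ∏ i : ZMod q, ∑ s ∈ SL N i, WI K θ N i s ≤
            16 / N * (42 * (1 / 4) ^ (q - 1)) := mul_le_mul_of_nonneg_left h1 (by positivity)
          _ = _ := by ring

theorem vol_all {K θ : ℝ} (hK : 4 ≤ K) (hθ0 : 0 ≤ θ) (hθ : θ < 1)
    (hKθ : 15 ≤ (6 * K - 3) ^ (1 - θ)) {N : ℕ} (hN : 100 ≤ N)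
    (hN2 : (N:ℝ) ^ (2 * θ - 1) * (1 + Real.log N) ≤ 1 / 32) :
    volume (⋃ n : ℕ, EQ K θ N (n + 1)) ≤ ENNReal.ofReal (896 / N) := by
  have hN' : (100:ℝ) ≤ N := by exact_mod_cast hN
  refine (measure_iUnion_le _).trans ?_
  have h1 : ∀ n : ℕ, volume (EQ K θ N (n + 1)) ≤ ENNReal.ofReal (672 / N * (1 / 4) ^ n) :=
    fun n => by simpa using vol_EQ hK hθ0 hθ hKθ hN hN2 (n + 1)
  refine (ENNReal.tsum_le_tsum h1).trans ?_
  have hs : Summable (fun n : ℕ => (672:ℝ) / N * (1 / 4) ^ n) :=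
    (summable_geometric_of_lt_one (by norm_num) (by norm_num)).mul_left _
  rw [← ENNReal.ofReal_tsum_of_nonneg (fun n => by positivity) hs]
  apply ENNReal.ofReal_le_ofReal
  rw [tsum_mul_left, tsum_geometric_of_lt_one (by norm_num) (by norm_num)]
  apply le_of_eq
  field_simp
  norm_num

/-- the size condition holds for large `N` -/
theorem large_N {θ : ℝ} (hθ : θ < 1 / 2) : ∃ N₀ : ℕ, 100 ≤ N₀ ∧ ∀ N : ℕ, N₀ ≤ N →
    (N:ℝ) ^ (2 * θ - 1) * (1 + Real.log N) ≤ 1 / 32 := by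
  have h1 : Filter.Tendsto (fun x : ℝ => x ^ (2 * θ - 1) * (1 + Real.log x)) Filter.atTop
      (nhds 0) := by
    have h2 : Filter.Tendsto (fun x : ℝ => x ^ (2 * θ - 1)) Filter.atTop (nhds 0) := by
      have := tendsto_rpow_neg_atTop (y := 1 - 2 * θ) (by linarith)
      simpa using this
    have h3 : Filter.Tendsto (fun x : ℝ => Real.log x / x ^ (1 - 2 * θ)) Filter.atTop (nhds 0) :=
      (isLittleO_log_rpow_atTop (by linarith)).tendsto_div_nhds_zero
    have h4 := h2.add h3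
    rw [add_zero] at h4
    refine h4.congr' ?_
    filter_upwards [Filter.eventually_gt_atTop 0] with x hx
    rw [show 2 * θ - 1 = -(1 - 2 * θ) by ring, Real.rpow_neg hx.le]
    ring
  have h5 := (h1.comp tendsto_natCast_atTop_atTop).eventually (ge_mem_nhds (by norm_num :
    (0:ℝ) < 1 / 32))
  obtain ⟨N₁, hN₁⟩ := Filter.eventually_atTop.1 h5
  exact ⟨max N₁ 100, le_max_right _ _, fun N hN => hN₁ N ((le_max_left _ _).trans hN)⟩

end Pool.Agent.V8H61.SM
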