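import Pool.Agent.V8H61.SM.Ev

set_option autoImplicit false

/-!
# The mean square of the orbit averages, for all times
-/

namespace Pool.Agent.V8H61.SM

open Real Finset MeasureTheory Function Pool.Agent.TH705.SM

/-- mean squares of sums over blocks -/
theorem block {X : Type*} [MeasurableSpace X] {μ : Measure X} [IsProbabilityMeasure μ]
    {T : X → X} (hT : MeasurePreserving T μ μ) {f : X → ℝ} (hf : Measurable f) {M : ℝ}
    (hM : ∀ x, |f x| ≤ M) {V : ℕ → ℝ}
    (hV : ∀ n, V n = ∫ x, (∑ k ∈ range n, f (T^[k] x)) ^ 2 ∂μ) {A B : ℝ} (hA : 0 ≤ A) (hB : 0 ≤ B)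
    {N : ℕ} (hN : 1 ≤ N) (h : ∀ n, n ≤ N → V n ≤ A * n + B * n ^ 2) (n : ℕ) :
    V n ≤ 2 * (A / N + B) * n ^ 2 + 2 * A * n + 2 * B * n ^ 2 := by
  have hit : ∀ k, MeasurePreserving (T^[k]) μ μ := fun k => hT.iterate k
  have hSm : ∀ n, Measurable (fun x => ∑ k ∈ range n, f (T^[k] x)) := fun n =>
    Finset.measurable_fun_sum _ fun k _ => hf.comp (hit k).measurable
  have hM0 : ∀ x : X, 0 ≤ M := fun x => (abs_nonneg _).trans (hM x)
  have hSb : ∀ n x, |∑ k ∈ range n, f (T^[k] x)| ≤ n * M := by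
    intro n x
    refine (abs_sum_le_sum_abs _ _).trans ?_
    refine (sum_le_sum fun k _ => hM _).trans ?_
    rw [sum_const, card_range, nsmul_eq_mul]
  have hint : ∀ n j, Integrable (fun x => (∑ k ∈ range n, f (T^[k] (T^[j] x))) ^ 2) μ := by
    intro n j
    refine Integrable.of_bound (((hSm n).comp (hit j).measurable).pow_const 2).aestronglyMeasurable
      ((n * M) ^ 2) (Filter.Eventually.of_forall fun x => ?_)
    rw [Real.norm_eq_abs, abs_pow]
    exact pow_le_pow_left₀ (abs_nonneg _) (hSb n _) 2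
  have hinv : ∀ n j, ∫ x, (∑ k ∈ range n, f (T^[k] (T^[j] x))) ^ 2 ∂μ = V n := by
    intro n j
    rw [hV]
    have h1 := (hit j).map_eq
    calc ∫ x, (∑ k ∈ range n, f (T^[k] (T^[j] x))) ^ 2 ∂μ =
          ∫ x, (∑ k ∈ range n, f (T^[k] x)) ^ 2 ∂(Measure.map (T^[j]) μ) := by
          rw [integral_map (hit j).measurable.aemeasurable
            ((hSm n).pow_const 2).aestronglyMeasurable]
      _ = _ := by rw [h1]
  set q := n / N with hq
  set r := n % N with hr
  have hnqr : n = q * N + r := by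
    rw [hq, hr, mul_comm]
    exact (Nat.div_add_mod n N).symm
  have hrN : r < N := Nat.mod_lt _ (by omega)
  have hsplit : ∀ q r x, ∑ k ∈ range (q * N + r), f (T^[k] x) =
      (∑ i ∈ range q, ∑ k ∈ range N, f (T^[k] (T^[i * N] x))) +
        ∑ k ∈ range r, f (T^[k] (T^[q * N] x)) := by
    intro q r x
    rw [Finset.sum_range_add]
    congr 1
    · induction q with
      | zero => simp
      | succ q ih =>
        rw [show (q + 1) * N = q * N + N by ring, Finset.sum_range_add, ih, Finset.sum_range_succ]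
        congr 1
        apply Finset.sum_congr rfl
        intro k _
        rw [← iterate_add_apply, add_comm]
    · apply Finset.sum_congr rfl
      intro k _
      rw [← iterate_add_apply, add_comm]
  have hpt : ∀ x, (∑ k ∈ range n, f (T^[k] x)) ^ 2 ≤
      2 * (q * ∑ i ∈ range q, (∑ k ∈ range N, f (T^[k] (T^[i * N] x))) ^ 2) +
        2 * (∑ k ∈ range r, f (T^[k] (T^[q * N] x))) ^ 2 := by
    intro x
    rw [hnqr, hsplit]
    set u := ∑ i ∈ range q, ∑ k ∈ range N, f (T^[k] (T^[i * N] x)) with hu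
    set v := ∑ k ∈ range r, f (T^[k] (T^[q * N] x)) with hv
    have h1 : u ^ 2 ≤ q * ∑ i ∈ range q, (∑ k ∈ range N, f (T^[k] (T^[i * N] x))) ^ 2 := by
      have := sq_sum_le_card_mul_sum_sq (s := range q)
        (f := fun i => ∑ k ∈ range N, f (T^[k] (T^[i * N] x)))
      rwa [card_range] at this
    nlinarith [sq_nonneg (u - v)]
  have hVn : V n ≤ 2 * (q * (q * V N)) + 2 * V r := by
    rw [hV n]
    have hi1 : Integrable (fun x => ∑ i ∈ range q, (∑ k ∈ range N, f (T^[k] (T^[i * N] x))) ^ 2) μ :=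
      integrable_finsetSum _ fun i _ => hint N (i * N)
    have hi2 := hint r (q * N)
    have h0 : Integrable (fun x => (∑ k ∈ range n, f (T^[k] x)) ^ 2) μ := hint n 0
    calc ∫ x, (∑ k ∈ range n, f (T^[k] x)) ^ 2 ∂μ ≤
        ∫ x, (2 * (q * ∑ i ∈ range q, (∑ k ∈ range N, f (T^[k] (T^[i * N] x))) ^ 2) +
        2 * (∑ k ∈ range r, f (T^[k] (T^[q * N] x))) ^ 2) ∂μ :=
          integral_mono h0 (((hi1.const_mul q).const_mul 2).add (hi2.const_mul 2)) hpt
      _ = _ := by
        rw [integral_add ((hi1.const_mul q).const_mul 2) (hi2.const_mul 2),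
          integral_const_mul, integral_const_mul, integral_const_mul, hinv r (q * N),
          integral_finsetSum _ fun i _ => hint N (i * N)]
        simp_rw [hinv N]
        rw [sum_const, card_range, nsmul_eq_mul]
  have hN0 : (0:ℝ) < N := by exact_mod_cast hN
  have hqN : (q:ℝ) * N ≤ n := by
    have : q * N ≤ n := by omega
    exact_mod_cast this
  have hrn : (r:ℝ) ≤ n := by
    have : r ≤ n := by omega
    exact_mod_cast this
  have hq0 : (0:ℝ) ≤ q := Nat.cast_nonneg _
  have hr0 : (0:ℝ) ≤ r := Nat.cast_nonneg _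
  have hVN := h N le_rfl
  have hVr := h r hrN.le
  have h1 : (q:ℝ) * (q * V N) ≤ (A / N + B) * n ^ 2 := by
    have h2 : (q:ℝ) * (q * V N) ≤ q * (q * (A * N + B * N ^ 2)) := by
      apply mul_le_mul_of_nonneg_left _ hq0
      exact mul_le_mul_of_nonneg_left hVN hq0
    have h3 : (q:ℝ) * (q * (A * N + B * N ^ 2)) = (A / N + B) * (q * N) ^ 2 := by
      field_simp
    rw [h3] at h2
    refine h2.trans ?_
    apply mul_le_mul_of_nonneg_left _ (by positivity)
    exact pow_le_pow_left₀ (by positivity) hqN 2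
  have h2 : V r ≤ A * n + B * n ^ 2 := by
    refine hVr.trans (add_le_add ?_ ?_)
    · exact mul_le_mul_of_nonneg_left hrn hA
    · exact mul_le_mul_of_nonneg_left (pow_le_pow_left₀ hr0 hrn 2) hB
  linarith

/-- covariances of a function of the first coordinate -/
theorem cov {a l : ℝ} (hl : l0 ≤ l) (hla : l ≤ |a|) {m : ℕ} (hm : 1 ≤ m)
    {g : UnitAddCircle → ℝ} (hg : Continuous g) (hg1 : ∀ x, |g x| ≤ 1) :
    |∫ p : T2, (g (((S a)^[m + 1] p).1) - ∫ x, g x) * (g p.1 - ∫ x, g x)| ≤
      208 * KK * π ^ 2 / l + 2 * m * (l / |a|) := by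
  have p1 : Periodic (fun _ : ℝ => (1:ℝ)) 1 := fun _ => rfl
  have p0 : Periodic (fun _ : ℝ => (0:ℝ)) 1 := fun _ => rfl
  have h1 := corr hl hla hm hg hg hg1 hg1 (H1 := fun _ => 1) (H1' := fun _ => 0) (H2 := fun _ => 1)
    (H2' := fun _ => 0) (fun x => hasDerivAt_const x 1) continuous_const p1 p0 (by simp)
    (fun x => hasDerivAt_const x 1) continuous_const p1 p0 (by simp)
  have hlift : ∀ y : UnitAddCircle, p1.lift y = 1 := by
    intro y
    induction y using QuotientAddGroup.induction_on with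
    | H t => exact Periodic.lift_coe _ t
  simp only [hlift, mul_one, abs_zero, intervalIntegral.integral_zero, add_zero, mul_zero] at h1
  set gb := ∫ x, g x with hgb
  have hcS : Continuous (fun p : T2 => g (((S a)^[m + 1] p).1)) :=
    hg.comp (continuous_fst.comp ((S_cont a).iterate (m + 1)))
  have hc0 : Continuous (fun p : T2 => g p.1) := hg.comp continuous_fst
  have hmean : ∫ p : T2, (g (((S a)^[m + 1] p).1) - gb) = 0 := by
    have h6 : ∫ p : T2, g p.1 = gb := by
      have h7 : MeasurePreserving (Prod.fst : T2 → UnitAddCircle)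
          ((volume : Measure UnitAddCircle).prod volume) volume := measurePreserving_fst
      calc ∫ p : T2, g p.1 = ∫ x, g x ∂(Measure.map (Prod.fst : T2 → UnitAddCircle)
            ((volume : Measure UnitAddCircle).prod volume)) := by
            rw [integral_map h7.measurable.aemeasurable hg.aestronglyMeasurable]
            rfl
        _ = _ := by rw [h7.map_eq]
    have h8 : ∫ p : T2, g (((S a)^[m + 1] p).1) = gb := by
      rw [← h6]
      have h4 := (iter_mp a (m + 1)).map_eq
      calc ∫ p : T2, g (((S a)^[m + 1] p).1) = ∫ p, g p.1 ∂(Measure.map ((S a)^[m + 1]) volume) := by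
            rw [integral_map (iter_mp a (m + 1)).measurable.aemeasurable hc0.aestronglyMeasurable]
        _ = _ := by rw [h4]
    rw [integral_sub (integrable_cont hcS) (integrable_const _), h8]
    simp
  have h2 : ∫ p : T2, (g (((S a)^[m + 1] p).1) - gb) * (g p.1 - gb) =
      ∫ p : T2, (g (((S a)^[m + 1] p).1) - gb) * g p.1 := by
    have e : ∀ p : T2, (g (((S a)^[m + 1] p).1) - gb) * (g p.1 - gb) =
        (g (((S a)^[m + 1] p).1) - gb) * g p.1 - gb * (g (((S a)^[m + 1] p).1) - gb) := by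
      intro p; ring
    have i1 : Integrable (fun p : T2 => (g (((S a)^[m + 1] p).1) - gb) * g p.1) volume :=
      integrable_cont ((hcS.sub continuous_const).mul hc0)
    have i2 : Integrable (fun p : T2 => gb * (g (((S a)^[m + 1] p).1) - gb)) volume :=
      (integrable_cont (hcS.sub continuous_const)).const_mul gb
    calc ∫ p : T2, (g (((S a)^[m + 1] p).1) - gb) * (g p.1 - gb) =
        ∫ p : T2, ((g (((S a)^[m + 1] p).1) - gb) * g p.1 - gb * (g (((S a)^[m + 1] p).1) - gb)) :=
          integral_congr_ae (Filter.Eventually.of_forall e)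
      _ = _ := by
        rw [integral_sub i1 i2, integral_const_mul, hmean]
        ring
  rw [h2]
  exact h1

/-- the constant -/
noncomputable def K1 : ℝ := 208 * KK * π ^ 2 + 2

theorem K1_pos : 2 ≤ K1 := by
  have := KK_one
  unfold K1
  have : 0 ≤ 208 * KK * π ^ 2 := by positivity
  linarith

/-- the mean square for short times -/
theorem short {a : ℝ} (ha : l0 ^ 3 ≤ |a|) {g : UnitAddCircle → ℝ} (hg : Continuous g)
    (hg1 : ∀ x, |g x| ≤ 1) (n : ℕ) (hn : (n : ℝ) ≤ |a| ^ (1 / 3 : ℝ)) :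
    ∫ p : T2, (∑ k ∈ range n, (g (((S a)^[k] p).1) - ∫ x, g x)) ^ 2 ≤
      12 * n + K1 * |a| ^ (-(1 / 3) : ℝ) * n ^ 2 := by
  have hl0 := l0_ge
  have hl01 : 1 ≤ l0 ^ 3 := one_le_pow₀ (by linarith)
  have ha0 : 0 < |a| := by linarith
  set l := |a| ^ (1 / 3 : ℝ) with hl
  have hl0l : l0 ≤ l := by
    have h1 : (l0 ^ 3) ^ (1 / 3 : ℝ) ≤ l := Real.rpow_le_rpow (by positivity) ha (by norm_num)
    have h2 : (l0 ^ 3) ^ (1 / 3 : ℝ) = l0 := by
      rw [← Real.rpow_natCast, ← Real.rpow_mul (by linarith)]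
      norm_num
    rwa [h2] at h1
  have hlpos : 0 < l := by linarith
  have hla : l ≤ |a| := by
    have : |a| ^ (1 / 3 : ℝ) ≤ |a| ^ (1 : ℝ) :=
      Real.rpow_le_rpow_of_exponent_le (by linarith) (by norm_num)
    rwa [Real.rpow_one] at this
  have hl3 : l ^ 3 = |a| := by
    rw [hl, ← Real.rpow_natCast, ← Real.rpow_mul ha0.le]
    norm_num
  have hinvl : |a| ^ (-(1 / 3) : ℝ) = 1 / l := by
    rw [Real.rpow_neg ha0.le, ← hl, inv_eq_one_div]
  rw [hinvl]
  set gb := ∫ x, g x with hgb
  have hgb1 : |gb| ≤ 1 := by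
    have := norm_integral_le_of_norm_le_const (μ := (volume : Measure UnitAddCircle)) (f := g)
      (C := 1) (Filter.Eventually.of_forall fun x => by rw [norm_eq_abs]; exact hg1 x)
    simpa using this
  set f : T2 → ℝ := fun p => g p.1 - gb with hf
  have hfc : Continuous f := (hg.comp continuous_fst).sub continuous_const
  have hfb : ∀ p, |f p| ≤ 2 := by
    intro p
    refine (abs_sub _ _).trans ?_
    have := hg1 p.1
    linarith
  have hfk : ∀ k, Continuous (fun p => f ((S a)^[k] p)) := fun k => hfc.comp ((S_cont a).iterate k)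
  have hcomp : ∀ k (h : T2 → ℝ), Continuous h → ∫ x, h ((S a)^[k] x) = ∫ x, h x := by
    intro k h hh
    have h1 := (iter_mp a k).map_eq
    calc ∫ x, h ((S a)^[k] x) = ∫ x, h x ∂(Measure.map ((S a)^[k]) volume) := by
          rw [integral_map (iter_mp a k).measurable.aemeasurable hh.aestronglyMeasurable]
      _ = _ := by rw [h1]
  have hcor : ∀ i j : ℕ, |∫ x, f ((S a)^[i] x) * f ((S a)^[j] x)| ≤ 4 := by
    intro i j
    have := norm_integral_le_of_norm_le_const (μ := (volume : Measure T2))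
      (f := fun x => f ((S a)^[i] x) * f ((S a)^[j] x))
      (C := 4) (Filter.Eventually.of_forall fun x => by
        rw [Real.norm_eq_abs, abs_mul]
        nlinarith [hfb ((S a)^[i] x), hfb ((S a)^[j] x), abs_nonneg (f ((S a)^[i] x)),
          abs_nonneg (f ((S a)^[j] x))])
    simpa using this
  have hshift : ∀ i j : ℕ, i ≤ j → ∫ x, f ((S a)^[i] x) * f ((S a)^[j] x) =
      ∫ x, f ((S a)^[j - i] x) * f x := by
    intro i j hij
    have h3 := hcomp i (fun x => f ((S a)^[j - i] x) * f x) ((hfk _).mul hfc)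
    rw [← h3]
    apply integral_congr_ae
    refine Filter.Eventually.of_forall fun x => ?_
    simp only
    rw [← iterate_add_apply, Nat.sub_add_cancel hij]
    ring
  have hfar : ∀ d, 2 ≤ d → d < n → ∫ x, f ((S a)^[d] x) * f x ≤ K1 / l := by
    intro d hd1 hd2
    obtain ⟨m, rfl⟩ : ∃ m, d = m + 1 := ⟨d - 1, by omega⟩
    have h1 := cov (a := a) (l := l) hl0l hla (m := m) (by omega) hg hg1
    refine (le_abs_self _).trans (h1.trans ?_)
    unfold K1
    rw [add_div]
    apply add_le_add le_rfl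
    have hml : (m:ℝ) ≤ l := by
      have : (m:ℝ) ≤ n := by exact_mod_cast (by omega : m ≤ n)
      linarith
    rw [← hl3]
    have e : 2 * (m:ℝ) * (l / l ^ 3) = 2 * m / l ^ 2 := by field_simp
    rw [e, div_le_div_iff₀ (by positivity) hlpos]
    nlinarith
  have hpair : ∀ i ∈ range n, ∀ j ∈ range n, ∫ x, f ((S a)^[i] x) * f ((S a)^[j] x) ≤
      K1 / l + if j ∈ Icc (i - 1) (i + 1) then 4 else 0 := by
    intro i hi j hj
    rw [Finset.mem_range] at hi hj
    have hK : 0 ≤ K1 / l := by
      have := K1_pos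
      positivity
    by_cases hij : j ∈ Icc (i - 1) (i + 1)
    · rw [if_pos hij]
      have := (le_abs_self _).trans (hcor i j)
      linarith
    · rw [if_neg hij, add_zero]
      rw [Finset.mem_Icc, not_and_or] at hij
      rcases le_total i j with h | h
      · rw [hshift i j h]
        exact hfar (j - i) (by omega) (by omega)
      · have e : ∫ x, f ((S a)^[i] x) * f ((S a)^[j] x) = ∫ x, f ((S a)^[j] x) * f ((S a)^[i] x) := by
          simp_rw [mul_comm]
        rw [e, hshift j i h]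
        exact hfar (i - j) (by omega) (by omega)
  have hexp : ∀ p : T2, (∑ k ∈ range n, (g (((S a)^[k] p).1) - gb)) ^ 2 =
      ∑ i ∈ range n, ∑ j ∈ range n, f ((S a)^[i] p) * f ((S a)^[j] p) := by
    intro p
    rw [sq, Finset.sum_mul_sum]
  have hIj : ∀ i j, Integrable (fun p : T2 => f ((S a)^[i] p) * f ((S a)^[j] p)) volume :=
    fun i j => integrable_cont ((hfk i).mul (hfk j))
  have hIi : ∀ i, Integrable (fun p : T2 => ∑ j ∈ range n, f ((S a)^[i] p) * f ((S a)^[j] p))
      volume := fun i => integrable_finsetSum _ fun j _ => hIj i j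
  have hsum : ∫ p : T2, (∑ k ∈ range n, (g (((S a)^[k] p).1) - gb)) ^ 2 =
      ∑ i ∈ range n, ∫ p : T2, ∑ j ∈ range n, f ((S a)^[i] p) * f ((S a)^[j] p) := by
    rw [← integral_finsetSum _ fun i _ => hIi i]
    exact integral_congr_ae (Filter.Eventually.of_forall hexp)
  rw [hsum]
  have h1 : ∀ i ∈ range n, ∫ p : T2, ∑ j ∈ range n, f ((S a)^[i] p) * f ((S a)^[j] p) ≤
      n * (K1 / l) + 12 := by
    intro i hi
    rw [integral_finsetSum _ fun j _ => hIj i j]
    refine (Finset.sum_le_sum fun j hj => hpair i hi j hj).trans ?_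
    rw [Finset.sum_add_distrib, Finset.sum_const, card_range, nsmul_eq_mul]
    apply add_le_add le_rfl
    rw [← Finset.sum_filter, Finset.sum_const, nsmul_eq_mul]
    have hsub : (range n).filter (fun j => j ∈ Icc (i - 1) (i + 1)) ⊆ Icc (i - 1) (i + 1) := by
      intro j hj
      exact (Finset.mem_filter.1 hj).2
    have h2 := Finset.card_le_card hsub
    rw [Nat.card_Icc] at h2
    have h3 : ((range n).filter (fun j => j ∈ Icc (i - 1) (i + 1))).card ≤ 3 := by omega
    have h4 : (((range n).filter (fun j => j ∈ Icc (i - 1) (i + 1))).card : ℝ) ≤ 3 := by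
      exact_mod_cast h3
    linarith
  refine (Finset.sum_le_sum h1).trans (le_of_eq ?_)
  rw [Finset.sum_const, card_range, nsmul_eq_mul]
  ring

/-- **the mean square for all times** -/
theorem lln {a : ℝ} (ha : l0 ^ 3 ≤ |a|) {g : UnitAddCircle → ℝ} (hg : Continuous g)
    (hg1 : ∀ x, |g x| ≤ 1) {n : ℕ} (hn : 1 ≤ n) :
    ∫ p : T2, (∑ k ∈ range n, (g (((S a)^[k] p).1) - ∫ x, g x)) ^ 2 ≤
      n ^ 2 * (24 / n + (48 + 4 * K1) * |a| ^ (-(1 / 3) : ℝ)) := by
  have hl0 := l0_ge
  have hl01 : 1 ≤ l0 ^ 3 := one_le_pow₀ (by linarith)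
  have ha0 : 0 < |a| := by linarith
  have hK := K1_pos
  set l := |a| ^ (1 / 3 : ℝ) with hl
  have hl1 : 1 ≤ l := Real.one_le_rpow (by linarith) (by norm_num)
  have hinvl : |a| ^ (-(1 / 3) : ℝ) = 1 / l := by
    rw [Real.rpow_neg ha0.le, ← hl, inv_eq_one_div]
  set N := ⌊l⌋₊ with hN
  have hN1 : 1 ≤ N := Nat.le_floor (by exact_mod_cast hl1)
  have hNl : (N:ℝ) ≤ l := Nat.floor_le (by linarith)
  have hlN : l < N + 1 := Nat.lt_floor_add_one l
  have hN0 : (0:ℝ) < N := by exact_mod_cast hN1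
  have hgbl : ∀ x, |g x - ∫ x, g x| ≤ 2 := by
    intro x
    have hgb1 : |∫ x, g x| ≤ 1 := by
      have := norm_integral_le_of_norm_le_const (μ := (volume : Measure UnitAddCircle)) (f := g)
        (C := 1) (Filter.Eventually.of_forall fun x => by rw [norm_eq_abs]; exact hg1 x)
      simpa using this
    refine (abs_sub _ _).trans ?_
    have := hg1 x
    linarith
  have h1 := block (μ := (volume : Measure T2)) (S_mp a) (f := fun p => g p.1 - ∫ x, g x)
    ((hg.comp continuous_fst).sub continuous_const).measurable (M := 2) (fun p => hgbl p.1)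
    (V := fun n => ∫ p : T2, (∑ k ∈ range n, (g (((S a)^[k] p).1) - ∫ x, g x)) ^ 2)
    (fun n => rfl) (A := 12) (B := K1 * (1 / l)) (by norm_num) (by positivity) hN1
    (fun m hm => by
      have h2 := short ha hg hg1 m (by
        have : (m:ℝ) ≤ N := by exact_mod_cast hm
        linarith)
      rw [hinvl] at h2
      exact h2) n
  rw [hinvl]
  refine h1.trans ?_
  have hn0 : (0:ℝ) < n := by exact_mod_cast hn
  have h2 : 12 / (N:ℝ) ≤ 24 * (1 / l) := by
    rw [mul_one_div, div_le_div_iff₀ hN0 (by linarith)]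
    have : (1:ℝ) ≤ N := by exact_mod_cast hN1
    linarith
  have h3 : (2 * (12 / (N:ℝ) + K1 * (1 / l)) * n ^ 2 + 2 * 12 * n + 2 * (K1 * (1 / l)) * n ^ 2) ≤
      2 * (24 * (1 / l) + K1 * (1 / l)) * n ^ 2 + 2 * 12 * n + 2 * (K1 * (1 / l)) * n ^ 2 := by
    have : 2 * (12 / (N:ℝ) + K1 * (1 / l)) * n ^ 2 ≤ 2 * (24 * (1 / l) + K1 * (1 / l)) * n ^ 2 := by
      apply mul_le_mul_of_nonneg_right _ (by positivity)
      linarith
    linarith
  refine h3.trans (le_of_eq ?_)
  field_simp
  ring

end Pool.Agent.V8H61.SM
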