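import Pool.Agent.V8H61.SM.Det
import Pool.Agent.V8H61.SM.LLN
import Pool.Agent.V1152.SMIJ

set_option autoImplicit false

/-!
# Finite-time exponents, for long times
-/

namespace Pool.Agent.V8H61.SM

open Real Finset MeasureTheory Function Pool.Agent.TH705.SM
open Pool.Agent.V1152.SMI (ff ff_bound ff_cont ff_period ff_mean pm norm_bound pm_iter_fderiv)

theorem l0_big : 1026 ≤ l0 := by
  have h1 := KK_one
  have h2 : (3.141592:ℝ) < π := Real.pi_gt_d6
  have h3 : (9.8696:ℝ) ≤ π ^ 2 := by nlinarith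
  unfold l0
  nlinarith

/-- the constant of the loss -/
noncomputable def K2 : ℝ := 14 * ((2 * l0) ^ 2 + 256)

theorem K2_pos : 14 ≤ K2 := by
  unfold K2
  nlinarith [sq_nonneg (2 * l0)]

/-- the loss -/
noncomputable def Es (a x : ℝ) : ℝ := K2 * (1 + log |a|) * (ee a 16 x / √|a| + 1 / √|a|)

theorem Es_cont (a : ℝ) : Continuous (Es a) :=
  continuous_const.mul (((ee_cont a (by norm_num)).div_const _).add continuous_const)

theorem Es_per (a : ℝ) : Periodic (Es a) 1 := by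
  intro x
  unfold Es
  have := ee_period a 16 x 1
  rw [Nat.cast_one] at this
  rw [this]

theorem Es_nonneg {a : ℝ} (ha : 1 ≤ |a|) (x : ℝ) : 0 ≤ Es a x := by
  have h0 : 0 ≤ log |a| := Real.log_nonneg ha
  have h1 := ee_nonneg a 16 x
  have h2 := K2_pos
  unfold Es
  positivity

theorem Es_int {a : ℝ} (ha : 16 ≤ |a|) :
    ∫ x in (0:ℝ)..1, Es a x ≤ 2 * K2 * (1 + log |a|) / √|a| := by
  have ha0 : 0 < |a| := by linarith
  have h0 : 0 ≤ log |a| := Real.log_nonneg (by linarith)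
  have hs : 0 < √|a| := Real.sqrt_pos.2 ha0
  have h3 := ee_int (a := a) (l := 16) le_rfl ha
  have h2 := K2_pos
  have hc := ee_cont a (l := 16) (by norm_num)
  unfold Es
  rw [intervalIntegral.integral_const_mul, intervalIntegral.integral_add
    ((hc.div_const _).intervalIntegrable _ _) (continuous_const.intervalIntegrable _ _),
    intervalIntegral.integral_div, intervalIntegral.integral_const]
  simp only [sub_zero, one_smul]
  have e : 2 * K2 * (1 + log |a|) / √|a| = K2 * (1 + log |a|) * (1 / √|a| + 1 / √|a|) := by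
    ring
  rw [e]
  apply mul_le_mul_of_nonneg_left _ (by positivity)
  apply add_le_add _ le_rfl
  apply div_le_div_of_nonneg_right _ hs.le
  refine h3.trans (by norm_num)

/-- one step -/
theorem loss {a : ℝ} (ha : 1 ≤ |a|) (c : ℕ → ℝ) (k : ℕ) (x : ℝ) (hx : c k = L a x) :
    0 < gf c (2 * l0) (1 / |a| ^ 9) k ∧
      ff a x - Es a x ≤ log (gf c (2 * l0) (1 / |a| ^ 9) k) := by
  have hl0 := l0_big
  have ha0 : 0 < |a| := by linarith
  have h0 : 0 ≤ log |a| := Real.log_nonneg ha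
  have hs : 0 < √|a| := Real.sqrt_pos.2 ha0
  have hs1 : 1 ≤ √|a| := Real.one_le_sqrt.2 ha
  have hss : √|a| * √|a| = |a| := Real.mul_self_sqrt ha0.le
  have hK := K2_pos
  unfold gf
  rw [hx]
  split_ifs with h
  · refine ⟨by positivity, ?_⟩
    have h1 := (abs_le.1 (ff_bound ha x)).2
    have h2 : log (1 / |a| ^ 9 / 2) = - (9 * log |a|) - log 2 := by
      rw [Real.log_div (by positivity) (by norm_num), one_div, Real.log_inv, Real.log_pow]
      norm_num
    rw [h2]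
    have h3 : log 2 ≤ 1 := by
      have := Real.log_two_lt_d9
      linarith
    have h4 : 14 * (1 + log |a|) ≤ Es a x := by
      unfold Es
      have h5 : L a x ^ 2 ≤ (2 * l0) ^ 2 := by
        rw [← sq_abs]
        exact pow_le_pow_left₀ (abs_nonneg _) h.le 2
      have h6 : 1 / ((2 * l0) ^ 2 + 256) ≤ ee a 16 x / √|a| := by
        unfold ee
        rw [div_div, div_le_div_iff₀ (by positivity) (by positivity)]
        nlinarith [mul_nonneg hs.le (by nlinarith : (0:ℝ) ≤ √|a| - 1),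
          mul_pos hs (by positivity : (0:ℝ) < L a x ^ 2 + 16 ^ 2)]
      have h7 : 1 / ((2 * l0) ^ 2 + 256) ≤ ee a 16 x / √|a| + 1 / √|a| := by
        have : 0 ≤ 1 / √|a| := by positivity
        linarith
      have h8 : K2 * (1 + log |a|) * (1 / ((2 * l0) ^ 2 + 256)) ≤
          K2 * (1 + log |a|) * (ee a 16 x / √|a| + 1 / √|a|) :=
        mul_le_mul_of_nonneg_left h7 (by positivity)
      refine le_trans (le_of_eq ?_) h8
      unfold K2
      field_simp
    linarith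
  · rw [not_lt] at h
    set u := |L a x| with hu
    have hu2 : L a x ^ 2 = u ^ 2 := (sq_abs _).symm
    have hu0 : 2052 ≤ u := by linarith
    refine ⟨by linarith, ?_⟩
    have h1 : ff a x - log (u - 1) ≤ 3 / u := by
      unfold ff
      rw [hu2]
      have e : log (2 + u ^ 2) / 2 - log (u - 1) = log ((2 + u ^ 2) / (u - 1) ^ 2) / 2 := by
        rw [Real.log_div (by positivity) (by nlinarith), Real.log_pow]
        norm_num
        ring
      rw [e]
      have h2 : log ((2 + u ^ 2) / (u - 1) ^ 2) ≤ (2 + u ^ 2) / (u - 1) ^ 2 - 1 :=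
        Real.log_le_sub_one_of_pos (div_pos (by positivity) (by nlinarith))
      have h3 : (2 + u ^ 2) / (u - 1) ^ 2 - 1 ≤ 6 / u := by
        rw [sub_le_iff_le_add, div_add_one (by linarith), div_le_div_iff₀ (by nlinarith) (by linarith)]
        nlinarith [mul_nonneg (by linarith : (0:ℝ) ≤ u) (by linarith : (0:ℝ) ≤ u - 2052), sq_nonneg u]
      have e2 : 3 / u = (6 / u) / 2 := by ring
      rw [e2]
      linarith
    have h4 : 3 / u ≤ Es a x := by
      unfold Es
      have h5 : √|a| / (2 * u ^ 2) ≤ ee a 16 x / √|a| := by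
        unfold ee
        rw [hu2, div_div, div_le_div_iff₀ (by positivity) (by positivity)]
        have : √|a| * ((u ^ 2 + 16 ^ 2) * √|a|) = |a| * (u ^ 2 + 16 ^ 2) := by
          linear_combination (u ^ 2 + 16 ^ 2) * hss
        rw [this]
        apply mul_le_mul_of_nonneg_left _ ha0.le
        nlinarith
      have h6 : 3 / u ≤ 14 * (√|a| / (2 * u ^ 2) + 1 / √|a|) := by
        have e : 14 * (√|a| / (2 * u ^ 2) + 1 / √|a|) - 3 / u =
            (14 * (√|a| ^ 2 + 2 * u ^ 2) - 6 * u * √|a|) / (2 * u ^ 2 * √|a|) := by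
          field_simp
          ring
        have h7 : 0 ≤ (14 * (√|a| ^ 2 + 2 * u ^ 2) - 6 * u * √|a|) / (2 * u ^ 2 * √|a|) := by
          apply div_nonneg _ (by positivity)
          nlinarith [sq_nonneg (u - √|a|), sq_nonneg u, sq_nonneg (√|a|)]
        linarith
      have h8 : 14 * (√|a| / (2 * u ^ 2) + 1 / √|a|) ≤
          K2 * (1 + log |a|) * (ee a 16 x / √|a| + 1 / √|a|) := by
        apply mul_le_mul _ (by linarith) (by positivity) (by positivity)
        nlinarith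
      linarith
    linarith

/-- the loss on the circle -/
noncomputable def Ec (a : ℝ) : UnitAddCircle → ℝ := (Es_per a).lift

theorem Ec_coe (a x : ℝ) : Ec a (x : UnitAddCircle) = Es a x := Periodic.lift_coe _ x

theorem Ec_cont (a : ℝ) : Continuous (Ec a) := lift_cont (Es_per a) (Es_cont a)

/-- the gain on the circle -/
noncomputable def fc (a : ℝ) : UnitAddCircle → ℝ := (ff_period a).lift

theorem fc_coe (a x : ℝ) : fc a (x : UnitAddCircle) = ff a x := Periodic.lift_coe _ x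

theorem fc_cont (a : ℝ) : Continuous (fc a) := lift_cont (ff_period a) (ff_cont a)

/-- the bad set of the losses -/
def B2 (a δ : ℝ) (n : ℕ) : Set T2 :=
  {p | 1 ≤ 2 / (n * δ) * ∑ k ∈ range n, Ec a ((S a)^[k] p).1}

theorem B2_cont (a δ : ℝ) (n : ℕ) :
    Continuous (fun p : T2 => 2 / (n * δ) * ∑ k ∈ range n, Ec a ((S a)^[k] p).1) :=
  continuous_const.mul (continuous_finsetSum _ fun k _ =>
    (Ec_cont a).comp (continuous_fst.comp ((S_cont a).iterate k)))

theorem int_orbit (a : ℝ) (k : ℕ) {g : UnitAddCircle → ℝ} (hg : Continuous g) :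
    ∫ p : T2, g (((S a)^[k] p).1) = ∫ x, g x := by
  have hc0 : Continuous (fun p : T2 => g p.1) := hg.comp continuous_fst
  have h6 : ∫ p : T2, g p.1 = ∫ x, g x := by
    have h7 : MeasurePreserving (Prod.fst : T2 → UnitAddCircle)
        ((volume : Measure UnitAddCircle).prod volume) volume := measurePreserving_fst
    calc ∫ p : T2, g p.1 = ∫ x, g x ∂(Measure.map (Prod.fst : T2 → UnitAddCircle)
          ((volume : Measure UnitAddCircle).prod volume)) := by
          rw [integral_map h7.measurable.aemeasurable hg.aestronglyMeasurable]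
          rfl
      _ = _ := by rw [h7.map_eq]
  rw [← h6]
  have h4 := (iter_mp a k).map_eq
  calc ∫ p : T2, g (((S a)^[k] p).1) = ∫ p, g p.1 ∂(Measure.map ((S a)^[k]) volume) := by
        rw [integral_map (iter_mp a k).measurable.aemeasurable hc0.aestronglyMeasurable]
    _ = _ := by rw [h4]

theorem int_circle {g : UnitAddCircle → ℝ} (hg : Continuous g) :
    ∫ x, g x = ∫ t in (0:ℝ)..1, g (t : UnitAddCircle) := by
  have h := int_T2 (fun p : T2 => g p.1) (integrable_cont (hg.comp continuous_fst))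
  have h2 := int_orbit 0 0 hg
  simp only [iterate_zero, id] at h2
  rw [← h2, h]
  simp

theorem vol_B2 {a δ : ℝ} (ha : 16 ≤ |a|) (hδ : 0 < δ) {n : ℕ} (hn : 1 ≤ n) :
    volume.real (B2 a δ n) ≤ 2 / δ * (2 * K2 * (1 + log |a|) / √|a|) := by
  have hn0 : (0:ℝ) < n := by exact_mod_cast hn
  have hE0 : ∀ y, 0 ≤ Ec a y := by
    intro y
    induction y using QuotientAddGroup.induction_on with
    | H x => exact (Ec_coe a x).symm ▸ Es_nonneg (by linarith) x
  refine (vol_le_int (B2_cont a δ n) (fun p => ?_)).trans ?_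
  · apply mul_nonneg (by positivity)
    exact Finset.sum_nonneg fun k _ => hE0 _
  · rw [integral_const_mul, integral_finsetSum _ fun k _ => integrable_cont
      (F := fun p : T2 => Ec a ((S a)^[k] p).1)
      ((Ec_cont a).comp (continuous_fst.comp ((S_cont a).iterate k)))]
    simp_rw [int_orbit a _ (Ec_cont a)]
    rw [Finset.sum_const, card_range, nsmul_eq_mul, int_circle (Ec_cont a)]
    simp_rw [Ec_coe]
    have h1 := Es_int ha
    calc 2 / (n * δ) * (n * ∫ t in (0:ℝ)..1, Es a t) = 2 / δ * ∫ t in (0:ℝ)..1, Es a t := by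
          field_simp
      _ ≤ _ := mul_le_mul_of_nonneg_left h1 (by positivity)

/-- the bad set of the gains -/
def B3 (a δ : ℝ) (n : ℕ) : Set T2 :=
  {p | 1 ≤ (4 / (n * δ)) ^ 2 * (∑ k ∈ range n, (fc a ((S a)^[k] p).1 - ∫ x, fc a x)) ^ 2}

theorem B3_cont (a δ : ℝ) (n : ℕ) :
    Continuous (fun p : T2 => (4 / (n * δ)) ^ 2 *
      (∑ k ∈ range n, (fc a ((S a)^[k] p).1 - ∫ x, fc a x)) ^ 2) :=
  continuous_const.mul ((continuous_finsetSum _ fun k _ =>
    ((fc_cont a).comp (continuous_fst.comp ((S_cont a).iterate k))).sub continuous_const).pow 2)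

theorem vol_B3 {a δ : ℝ} (ha : l0 ^ 3 ≤ |a|) (hδ : 0 < δ) {n : ℕ} (hn : 1 ≤ n) :
    volume.real (B3 a δ n) ≤
      256 * (1 + log |a|) ^ 2 / δ ^ 2 * (24 / n + (48 + 4 * K1) * |a| ^ (-(1 / 3) : ℝ)) := by
  have hl0 := l0_big
  have ha1 : 1 ≤ |a| := (one_le_pow₀ (by linarith)).trans ha
  have hn0 : (0:ℝ) < n := by exact_mod_cast hn
  have h0 : 0 ≤ log |a| := Real.log_nonneg ha1
  set M := 4 * (1 + log |a|) with hM
  have hM0 : 0 < M := by positivity
  set g : UnitAddCircle → ℝ := fun x => fc a x / M with hg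
  have hgc : Continuous g := (fc_cont a).div_const M
  have hg1 : ∀ x, |g x| ≤ 1 := by
    intro x
    induction x using QuotientAddGroup.induction_on with
    | H x =>
      show |fc a (x : UnitAddCircle) / M| ≤ 1
      rw [fc_coe, abs_div, abs_of_pos hM0, div_le_one hM0]
      exact ff_bound ha1 x
  have h1 := lln ha hgc hg1 hn
  refine (vol_le_int (B3_cont a δ n) (fun p => by positivity)).trans ?_
  have hmean : ∫ x, g x = (∫ x, fc a x) / M := integral_div M _
  have e : ∀ p : T2, (4 / (n * δ)) ^ 2 *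
      (∑ k ∈ range n, (fc a ((S a)^[k] p).1 - ∫ x, fc a x)) ^ 2 =
      (4 / (n * δ)) ^ 2 * M ^ 2 * (∑ k ∈ range n, (g (((S a)^[k] p).1) - ∫ x, g x)) ^ 2 := by
    intro p
    rw [hmean, mul_assoc, ← mul_pow M, Finset.mul_sum]
    congr 2
    apply Finset.sum_congr rfl
    intro k _
    show _ = M * (fc a ((S a)^[k] p).1 / M - (∫ x, fc a x) / M)
    field_simp
  simp_rw [e]
  rw [integral_const_mul]
  calc (4 / (n * δ)) ^ 2 * M ^ 2 * ∫ p : T2, (∑ k ∈ range n, (g (((S a)^[k] p).1) - ∫ x, g x)) ^ 2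
      ≤ (4 / (n * δ)) ^ 2 * M ^ 2 * (n ^ 2 * (24 / n + (48 + 4 * K1) * |a| ^ (-(1 / 3) : ℝ))) :=
        mul_le_mul_of_nonneg_left h1 (by positivity)
    _ = _ := by
      rw [hM]
      field_simp
      ring

/-- the choice of the window -/
theorem w_choice {a : ℝ} (ha : 1 ≤ |a|) : ∃ w : ℕ, (w:ℝ) ≤ log |a| + 2 ∧
    |a| ^ 6 * (2 * l0 + 1) ≤ (2 * l0 + 1) ^ w ∧
    2 < 1 / |a| ^ 9 * ((2 * l0 - 1) ^ 2) ^ (w + 1) := by
  have hl0 := l0_big
  have ha0 : 0 < |a| := by linarith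
  have h0 : 0 ≤ log |a| := Real.log_nonneg ha
  set v := ⌈log |a|⌉₊ with hv
  have hv1 : log |a| ≤ v := Nat.le_ceil _
  have hv2 : (v:ℝ) < log |a| + 1 := Nat.ceil_lt_add_one h0
  have he : Real.exp 1 ≤ 2.7182818286 := Real.exp_one_lt_d9.le
  have he0 : 0 < Real.exp 1 := Real.exp_pos 1
  have hav : |a| ≤ Real.exp 1 ^ v := by
    rw [← Real.exp_nat_mul, mul_one]
    calc |a| = Real.exp (log |a|) := (Real.exp_log ha0).symm
      _ ≤ _ := Real.exp_le_exp.2 hv1
  refine ⟨v + 1, by push_cast; linarith, ?_, ?_⟩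
  · rw [pow_succ]
    apply mul_le_mul_of_nonneg_right _ (by positivity)
    calc |a| ^ 6 ≤ (Real.exp 1 ^ v) ^ 6 := pow_le_pow_left₀ ha0.le hav 6
      _ = (Real.exp 1 ^ 6) ^ v := by rw [← pow_mul, ← pow_mul, mul_comm]
      _ ≤ (2 * l0 + 1) ^ v := by
        apply pow_le_pow_left₀ (by positivity)
        calc Real.exp 1 ^ 6 ≤ 2.7182818286 ^ 6 := pow_le_pow_left₀ he0.le he 6
          _ ≤ 2 * l0 + 1 := by norm_num; linarith
  · have hb : (2051:ℝ) ^ 2 ≤ (2 * l0 - 1) ^ 2 := pow_le_pow_left₀ (by norm_num) (by linarith) 2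
    have h1 : |a| ^ 9 ≤ ((2 * l0 - 1) ^ 2) ^ v := by
      calc |a| ^ 9 ≤ (Real.exp 1 ^ v) ^ 9 := pow_le_pow_left₀ ha0.le hav 9
        _ = (Real.exp 1 ^ 9) ^ v := by rw [← pow_mul, ← pow_mul, mul_comm]
        _ ≤ ((2 * l0 - 1) ^ 2) ^ v := by
          apply pow_le_pow_left₀ (by positivity)
          calc Real.exp 1 ^ 9 ≤ 2.7182818286 ^ 9 := pow_le_pow_left₀ he0.le he 9
            _ ≤ 2051 ^ 2 := by norm_num
            _ ≤ _ := hb
    have h2 : ((2 * l0 - 1) ^ 2) ^ (v + 1 + 1) = ((2 * l0 - 1) ^ 2) ^ v *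
        (((2 * l0 - 1) ^ 2) * ((2 * l0 - 1) ^ 2)) := by ring
    rw [one_div, inv_mul_eq_div, lt_div_iff₀ (by positivity), h2]
    have h3 : (3:ℝ) ≤ ((2 * l0 - 1) ^ 2) * ((2 * l0 - 1) ^ 2) := by nlinarith
    have h4 : 0 < |a| ^ 9 := by positivity
    calc 2 * |a| ^ 9 < |a| ^ 9 * 3 := by linarith
      _ ≤ ((2 * l0 - 1) ^ 2) ^ v * (((2 * l0 - 1) ^ 2) * ((2 * l0 - 1) ^ 2)) :=
        mul_le_mul h1 h3 (by norm_num) (by positivity)

/-- the pointwise bounds, outside the bad sets -/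
theorem pointwise {a δ : ℝ} (ha : l0 ^ 3 ≤ |a|) (hδ : 0 < δ) {n w : ℕ} (hn : 1 ≤ n)
    (hw : 2 < 1 / |a| ^ 9 * ((2 * l0 - 1) ^ 2) ^ (w + 1)) (haδ : 12 / δ ≤ |a|)
    (hnδ : 2 / δ ≤ n) {x y : ℝ}
    (h1 : ((x : UnitAddCircle), (y : UnitAddCircle)) ∉ Bad a (1 / |a| ^ 9) w n)
    (h2 : ((x : UnitAddCircle), (y : UnitAddCircle)) ∉ B2 a δ n)
    (h3 : ((x : UnitAddCircle), (y : UnitAddCircle)) ∉ B3 a δ n) :
    exp (n * (log (π * |a|) - δ)) ≤ |D a y (n + 1) x| ∧
      ‖fderiv ℝ (pm a)^[n] (x, y)‖ ≤ exp (n * (log (π * |a|) + δ)) := by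
  have hl0 := l0_big
  have hl3 : 16 ≤ l0 ^ 3 := by
    have : l0 ≤ l0 ^ 3 := le_self_pow₀ (by linarith) (by norm_num)
    linarith
  have ha1 : 1 ≤ |a| := by linarith
  have ha0 : 0 < |a| := by linarith
  have hn0 : (0:ℝ) < n := by exact_mod_cast hn
  obtain ⟨m1, m2⟩ := ff_mean (a := a) (by linarith)
  set mf := ∫ x in (0:ℝ)..1, ff a x with hmf
  have hmean : ∫ z, fc a z = mf := by
    rw [int_circle (fc_cont a)]
    simp_rw [fc_coe]
    rfl
  have hX : ∀ k, (S a)^[k] ((x : UnitAddCircle), (y : UnitAddCircle)) =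
      ((X a y (k + 1) x : UnitAddCircle), (X a y k x : UnitAddCircle)) := S_iter_X a y x
  have h2' : ∑ k ∈ range n, Es a (X a y (k + 1) x) < n * δ / 2 := by
    unfold B2 at h2
    simp only [Set.mem_ofPred_eq, not_le, hX, Ec_coe] at h2
    rw [div_mul_eq_mul_div, div_lt_one (by positivity)] at h2
    linarith
  have h3' : |(∑ k ∈ range n, ff a (X a y (k + 1) x)) - n * mf| < n * δ / 4 := by
    unfold B3 at h3
    simp only [Set.mem_ofPred_eq, not_le, hX, fc_coe, hmean] at h3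
    rw [Finset.sum_sub_distrib, Finset.sum_const, card_range, nsmul_eq_mul, ← mul_pow,
      sq_lt_one_iff_abs_lt_one, abs_mul, abs_of_pos (by positivity : (0:ℝ) < 4 / (n * δ)),
      div_mul_eq_mul_div, div_lt_one (by positivity)] at h3
    linarith
  rw [abs_lt] at h3'
  have h4 : n * (3 / |a|) ≤ n * δ / 4 := by
    have : 3 / |a| ≤ δ / 4 := by
      rw [div_le_iff₀ hδ] at haδ
      rw [div_le_div_iff₀ ha0 (by norm_num)]
      linarith
    calc n * (3 / |a|) ≤ n * (δ / 4) := mul_le_mul_of_nonneg_left this hn0.le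
      _ = _ := by ring
  have h5 : log 2 / 2 ≤ n * δ / 4 := by
    rw [div_le_iff₀ hδ] at hnδ
    have := Real.log_two_lt_d9
    linarith
  constructor
  · have hg := grow_bad (by positivity) hw h1
    have hloss : ∀ k, 0 < gf (cs a y x) (2 * l0) (1 / |a| ^ 9) (k + 1) ∧
        ff a (X a y (k + 1) x) - Es a (X a y (k + 1) x) ≤
          log (gf (cs a y x) (2 * l0) (1 / |a| ^ 9) (k + 1)) := fun k =>
      loss ha1 (cs a y x) (k + 1) (X a y (k + 1) x) rfl
    have hpos : 0 < ∏ k ∈ range n, gf (cs a y x) (2 * l0) (1 / |a| ^ 9) (k + 1) :=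
      Finset.prod_pos fun k _ => (hloss k).1
    have hsum : (∑ k ∈ range n, ff a (X a y (k + 1) x)) - ∑ k ∈ range n, Es a (X a y (k + 1) x) ≤
        log (∏ k ∈ range n, gf (cs a y x) (2 * l0) (1 / |a| ^ 9) (k + 1)) := by
      rw [Real.log_prod fun k _ => (hloss k).1.ne', ← Finset.sum_sub_distrib]
      exact Finset.sum_le_sum fun k _ => (hloss k).2
    refine le_trans ?_ hg
    rw [← Real.le_log_iff_exp_le hpos]
    refine le_trans ?_ hsum
    nlinarith
  · have hnb := norm_bound a (x, y) n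
    have hXp : ∀ k, ((pm a)^[k] (x, y)).1 = X a y (k + 1) x := by
      intro k
      have h := iter_plane a y x k
      show (((fun p : ℝ × ℝ => (2 * p.1 - p.2 + a * sin (2 * π * p.1), p.1))^[k] (x, y))).1 = _
      rw [h]
    simp only [hXp] at hnb
    rcases eq_or_lt_of_le (norm_nonneg (fderiv ℝ (pm a)^[n] (x, y))) with h | h
    · rw [← h]
      exact (Real.exp_pos _).le
    · rw [← Real.log_le_iff_le_exp h]
      refine hnb.trans ?_
      nlinarith

/-- the constant -/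
noncomputable def C0 : ℝ := 18 * l0 + 48 * l0 ^ 2 + 972 * (2 * l0 + 1) + 4 * K2 +
  256 * (48 + 4 * K1) + 144 + l0 + 4

theorem C0_ge : l0 ≤ C0 ∧ 144 ≤ C0 ∧ 4 ≤ C0 := by
  have hl0 := l0_big
  have h1 := K1_pos
  have h2 := K2_pos
  unfold C0
  refine ⟨?_, ?_, ?_⟩ <;> nlinarith [sq_nonneg l0]

/-- **long finite-time hyperbolicity** -/
theorem long {a : ℝ} (ha : 1 ≤ |a|) {n : ℕ} (hn : 1 ≤ n) {δ : ℝ} (hδ : 0 < δ) (hδ1 : δ ≤ 1) :
    ∃ B : Set T2, MeasurableSet B ∧ volume.real B ≤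
      C0 * (1 + log |a|) ^ 2 * ((1 / n + |a| ^ (-(1 / 3) : ℝ)) / δ ^ 2 + n / |a| ^ 2) ∧
      ∀ x y : ℝ, ((x : UnitAddCircle), (y : UnitAddCircle)) ∉ B →
        exp (n * (log (π * |a|) - δ)) ≤ |D a y (n + 1) x| ∧
        ‖fderiv ℝ (pm a)^[n] (x, y)‖ ≤ exp (n * (log (π * |a|) + δ)) := by
  have hl0 := l0_big
  obtain ⟨c1, c2, c3⟩ := C0_ge
  have ha0 : 0 < |a| := by linarith
  have hn0 : (0:ℝ) < n := by exact_mod_cast hn
  have h0 : 0 ≤ log |a| := Real.log_nonneg ha
  have hA : 1 ≤ (1 + log |a|) ^ 2 := one_le_pow₀ (by linarith)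
  set u := |a| ^ (-(1 / 3) : ℝ) with hu
  have hu0 : 0 < u := Real.rpow_pos_of_pos ha0 _
  have hδ2 : 0 < δ ^ 2 := by positivity
  have hδ21 : δ ^ 2 ≤ 1 := pow_le_one₀ hδ.le hδ1
  -- trivial cases
  have triv : ∀ q : ℝ, 1 ≤ C0 * q → q ≤ (1 / n + u) / δ ^ 2 + n / |a| ^ 2 →
      ∃ B : Set T2, MeasurableSet B ∧ volume.real B ≤
      C0 * (1 + log |a|) ^ 2 * ((1 / n + u) / δ ^ 2 + n / |a| ^ 2) ∧
      ∀ x y : ℝ, ((x : UnitAddCircle), (y : UnitAddCircle)) ∉ B →
        exp (n * (log (π * |a|) - δ)) ≤ |D a y (n + 1) x| ∧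
        ‖fderiv ℝ (pm a)^[n] (x, y)‖ ≤ exp (n * (log (π * |a|) + δ)) := by
    intro q hq1 hq2
    refine ⟨Set.univ, MeasurableSet.univ, ?_, fun x y h => absurd (Set.mem_univ _) h⟩
    have h1 : volume.real (Set.univ : Set T2) = 1 := by simp
    rw [h1]
    have hC : 0 < C0 := by linarith
    calc (1:ℝ) ≤ C0 * q := hq1
      _ ≤ C0 * ((1 / n + u) / δ ^ 2 + n / |a| ^ 2) := mul_le_mul_of_nonneg_left hq2 hC.le
      _ ≤ C0 * ((1 / n + u) / δ ^ 2 + n / |a| ^ 2) * (1 + log |a|) ^ 2 :=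
        le_mul_of_one_le_right (by positivity) hA
      _ = _ := by ring
  have hterm1 : (1 / n + u) / δ ^ 2 ≤ (1 / n + u) / δ ^ 2 + n / |a| ^ 2 := by
    have : 0 ≤ (n:ℝ) / |a| ^ 2 := by positivity
    linarith
  have hterm2 : u / δ ^ 2 ≤ (1 / n + u) / δ ^ 2 := by
    apply div_le_div_of_nonneg_right _ hδ2.le
    have : 0 ≤ 1 / (n:ℝ) := by positivity
    linarith
  have hterm3 : 1 / n / δ ^ 2 ≤ (1 / n + u) / δ ^ 2 := by
    apply div_le_div_of_nonneg_right _ hδ2.le
    linarith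
  by_cases hcase1 : |a| < l0 ^ 3
  · apply triv (u / δ ^ 2)
    · have h1 : 1 / l0 ≤ u := by
        have h2 : (l0 ^ 3) ^ (-(1 / 3) : ℝ) ≤ u :=
          Real.rpow_le_rpow_of_nonpos ha0 hcase1.le (by norm_num)
        have h3 : (l0 ^ 3) ^ (-(1 / 3) : ℝ) = 1 / l0 := by
          have h4 : ((3:ℕ):ℝ) * (-(1 / 3) : ℝ) = -1 := by norm_num
          rw [← Real.rpow_natCast, ← Real.rpow_mul (by linarith), h4, Real.rpow_neg_one, one_div]
        rwa [h3] at h2
      have h2 : u ≤ u / δ ^ 2 := by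
        rw [le_div_iff₀ hδ2]
        nlinarith
      calc (1:ℝ) = l0 * (1 / l0) := by field_simp
        _ ≤ C0 * (u / δ ^ 2) := mul_le_mul c1 (h1.trans h2) (by positivity) (by linarith)
    · linarith
  rw [not_lt] at hcase1
  have hau : u * |a| ^ 2 = |a| ^ (5 / 3 : ℝ) := by
    rw [hu, ← Real.rpow_natCast, ← Real.rpow_add ha0]
    norm_num
  by_cases hcase2 : |a| < 12 / δ
  · apply triv (u / δ ^ 2)
    · have h1 : 1 ≤ u * |a| ^ 2 := by
        rw [hau]
        exact Real.one_le_rpow ha (by norm_num)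
      rw [lt_div_iff₀ hδ] at hcase2
      have h2 : |a| ^ 2 * δ ^ 2 ≤ 144 := by
        rw [← mul_pow]
        calc (|a| * δ) ^ 2 ≤ 12 ^ 2 := pow_le_pow_left₀ (by positivity) hcase2.le 2
          _ = 144 := by norm_num
      rw [mul_div_assoc', le_div_iff₀ hδ2, one_mul]
      have h3 : δ ^ 2 ≤ δ ^ 2 * (u * |a| ^ 2) := le_mul_of_one_le_right hδ2.le h1
      have h4 : δ ^ 2 * (u * |a| ^ 2) = u * (|a| ^ 2 * δ ^ 2) := by ring
      have h5 : u * (|a| ^ 2 * δ ^ 2) ≤ u * 144 := mul_le_mul_of_nonneg_left h2 hu0.le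
      have h6 : u * 144 ≤ C0 * u := by nlinarith
      linarith
    · linarith
  rw [not_lt] at hcase2
  by_cases hcase3 : (n:ℝ) < 2 / δ
  · apply triv (1 / n / δ ^ 2)
    · rw [lt_div_iff₀ hδ] at hcase3
      have h2 : (n:ℝ) ^ 2 * δ ^ 2 ≤ 4 := by
        rw [← mul_pow]
        calc ((n:ℝ) * δ) ^ 2 ≤ 2 ^ 2 := pow_le_pow_left₀ (by positivity) hcase3.le 2
          _ = 4 := by norm_num
      have hn1 : (1:ℝ) ≤ n := by exact_mod_cast hn
      have h3 : (n:ℝ) * δ ^ 2 ≤ 4 := by nlinarith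
      rw [div_div, mul_one_div, le_div_iff₀ (by positivity), one_mul]
      linarith
    · linarith
  rw [not_lt] at hcase3
  -- the main case
  obtain ⟨w, w1, w2, w3⟩ := w_choice ha
  have hla : 2 * l0 ≤ |a| := by
    refine le_trans ?_ hcase1
    nlinarith [mul_nonneg (by linarith : (0:ℝ) ≤ l0) (by nlinarith : (0:ℝ) ≤ l0 ^ 2 - 2)]
  refine ⟨Bad a (1 / |a| ^ 9) w n ∪ B2 a δ n ∪ B3 a δ n, ?_, ?_, ?_⟩
  · exact ((Bad_meas _ _ _ _).union (measurableSet_le measurable_const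
      (B2_cont a δ n).measurable)).union (measurableSet_le measurable_const
      (B3_cont a δ n).measurable)
  · refine (measureReal_union_le _ _).trans ((add_le_add (measureReal_union_le _ _) le_rfl).trans ?_)
    have b1 := vol_Bad (a := a) (w := w) n (by linarith) hla w2
    have b2 := vol_B2 (a := a) (δ := δ) (by linarith) hδ hn
    have b3 := vol_B3 (a := a) (δ := δ) hcase1 hδ hn
    have hw3 : (w:ℝ) + 1 ≤ 3 * (1 + log |a|) := by linarith
    have hA1 : 1 + log |a| ≤ (1 + log |a|) ^ 2 := by nlinarith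
    set A := 1 + log |a| with hAdef
    have hA0 : 1 ≤ A := by linarith
    have hinva : 1 / |a| ≤ u := by
      rw [hu, one_div, ← Real.rpow_neg_one]
      exact Real.rpow_le_rpow_of_exponent_le ha (by norm_num)
    have hsq : 1 / √|a| ≤ u := by
      rw [hu, one_div, Real.sqrt_eq_rpow, ← Real.rpow_neg ha0.le]
      exact Real.rpow_le_rpow_of_exponent_le ha (by norm_num)
    have huδ : u ≤ u / δ ^ 2 := by
      rw [le_div_iff₀ hδ2]
      nlinarith
    set N := (n:ℝ) / |a| ^ 2 with hN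
    have hN0 : 0 ≤ N := by positivity
    have t1 : 3 * ((w:ℝ) + 1) * (2 * l0 / |a|) ≤ 18 * l0 * (A ^ 2 * (u / δ ^ 2)) := by
      have e : 3 * ((w:ℝ) + 1) * (2 * l0 / |a|) = 6 * l0 * ((w + 1) * (1 / |a|)) := by ring
      rw [e]
      have : ((w:ℝ) + 1) * (1 / |a|) ≤ (3 * A ^ 2) * (u / δ ^ 2) :=
        mul_le_mul (by linarith) (hinva.trans huδ) (by positivity) (by positivity)
      calc 6 * l0 * (((w:ℝ) + 1) * (1 / |a|)) ≤ 6 * l0 * ((3 * A ^ 2) * (u / δ ^ 2)) :=
            mul_le_mul_of_nonneg_left this (by positivity)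
        _ = _ := by ring
    have t2 : (n:ℝ) * (2 * (w + 1)) * (2 * (2 * l0 / |a|) ^ 2) ≤ 48 * l0 ^ 2 * (A ^ 2 * N) := by
      have e : (n:ℝ) * (2 * (w + 1)) * (2 * (2 * l0 / |a|) ^ 2) =
          16 * l0 ^ 2 * N * (w + 1) := by
        rw [hN]; ring
      rw [e]
      calc 16 * l0 ^ 2 * N * ((w:ℝ) + 1) ≤ 16 * l0 ^ 2 * N * (3 * A ^ 2) :=
            mul_le_mul_of_nonneg_left (by linarith) (by positivity)
        _ = _ := by ring
    have t3 : (n:ℝ) * (972 * (2 * l0 + 1) / |a| ^ 3) ≤ 972 * (2 * l0 + 1) * (A ^ 2 * N) := by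
      have e : (n:ℝ) * (972 * (2 * l0 + 1) / |a| ^ 3) = 972 * (2 * l0 + 1) * ((n:ℝ) / |a| ^ 3) := by
        ring
      rw [e]
      apply mul_le_mul_of_nonneg_left _ (by positivity)
      have h1 : (n:ℝ) / |a| ^ 3 ≤ N := by
        rw [hN]
        apply div_le_div_of_nonneg_left hn0.le (by positivity)
        exact pow_le_pow_right₀ ha (by norm_num)
      have h2 : N ≤ A ^ 2 * N := le_mul_of_one_le_left hN0 hA
      linarith
    have t4 : 2 / δ * (2 * K2 * A / √|a|) ≤ 4 * K2 * (A ^ 2 * (u / δ ^ 2)) := by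
      have hK := K2_pos
      have e : 2 / δ * (2 * K2 * A / √|a|) = 4 * K2 * (A * (1 / √|a| * (1 / δ))) := by ring
      rw [e]
      apply mul_le_mul_of_nonneg_left _ (by positivity)
      apply mul_le_mul hA1 _ (by positivity) (by positivity)
      have e2 : u / δ ^ 2 = u * (1 / δ ^ 2) := by ring
      rw [e2]
      apply mul_le_mul hsq _ (by positivity) hu0.le
      apply one_div_le_one_div_of_le hδ2
      nlinarith
    have t5 : 256 * A ^ 2 / δ ^ 2 * (24 / n + (48 + 4 * K1) * u) ≤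
        256 * (48 + 4 * K1) * (A ^ 2 * ((1 / n + u) / δ ^ 2)) := by
      have hK := K1_pos
      have e : 256 * (48 + 4 * K1) * (A ^ 2 * ((1 / n + u) / δ ^ 2)) =
          256 * A ^ 2 / δ ^ 2 * ((48 + 4 * K1) * (1 / n) + (48 + 4 * K1) * u) := by
        ring
      rw [e]
      apply mul_le_mul_of_nonneg_left _ (by positivity)
      have : (24:ℝ) / n ≤ (48 + 4 * K1) * (1 / n) := by
        rw [mul_one_div]
        apply div_le_div_of_nonneg_right _ hn0.le
        linarith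
      linarith
    have hK1 := K1_pos
    have hK2 := K2_pos
    have g1 : 0 ≤ A ^ 2 * N := by positivity
    have g2 : A ^ 2 * (u / δ ^ 2) ≤ A ^ 2 * ((1 / n + u) / δ ^ 2) :=
      mul_le_mul_of_nonneg_left hterm2 (by positivity)
    have g3 : 0 ≤ A ^ 2 * (u / δ ^ 2) := by positivity
    set G := A ^ 2 * ((1 / n + u) / δ ^ 2) with hG
    have g4 : 0 ≤ G := g3.trans g2
    have e : C0 * A ^ 2 * ((1 / n + u) / δ ^ 2 + N) = C0 * G + C0 * (A ^ 2 * N) := by
      rw [hG]; ring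
    rw [e]
    have s1 : 18 * l0 * (A ^ 2 * (u / δ ^ 2)) ≤ 18 * l0 * G :=
      mul_le_mul_of_nonneg_left g2 (by positivity)
    have s2 : 4 * K2 * (A ^ 2 * (u / δ ^ 2)) ≤ 4 * K2 * G :=
      mul_le_mul_of_nonneg_left g2 (by positivity)
    have s3 : 18 * l0 * G + 4 * K2 * G + 256 * (48 + 4 * K1) * G ≤ C0 * G := by
      rw [← add_mul, ← add_mul]
      apply mul_le_mul_of_nonneg_right _ g4
      unfold C0
      nlinarith [sq_nonneg l0]
    have s4 : 48 * l0 ^ 2 * (A ^ 2 * N) + 972 * (2 * l0 + 1) * (A ^ 2 * N) ≤ C0 * (A ^ 2 * N) := by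
      rw [← add_mul]
      apply mul_le_mul_of_nonneg_right _ g1
      unfold C0
      nlinarith [sq_nonneg l0]
    linarith
  · intro x y hxy
    simp only [Set.mem_union, not_or] at hxy
    exact pointwise hcase1 hδ hn w3 hcase2 hcase3 hxy.1.1 hxy.1.2 hxy.2

end Pool.Agent.V8H61.SM
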