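import Pool.Agent.V8H61.SM.Exc
import Pool.Agent.V1152.SMIH

set_option autoImplicit false

/-!
# Periodic points in the plane
-/

namespace Pool.Agent.V8H61.SM

open Real Finset MeasureTheory Function Pool.Agent.TH705.SM
open Pool.Agent.V1152.SMI (pm pm' pm_iter_fderiv)

theorem pm_step (a : ℝ) (p v : ℝ × ℝ) (n : ℕ) :
    (fderiv ℝ (pm a)^[n + 1] p v) = (L a ((pm a)^[n] p).1 * (fderiv ℝ (pm a)^[n] p v).1 -
      (fderiv ℝ (pm a)^[n] p v).2, (fderiv ℝ (pm a)^[n] p v).1) := by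
  rw [(pm_iter_fderiv a p n).2]
  simp [pm']

theorem fd_one (a : ℝ) (p : ℝ × ℝ) (n : ℕ) :
    (fderiv ℝ (pm a)^[n] p (1, 0)).1 = Ar (fun k => L a ((pm a)^[k] p).1) n := by
  induction n using Nat.strong_induction_on with
  | _ n ih =>
    match n with
    | 0 =>
      simp [Ar, iterate_zero]
    | 1 =>
      rw [pm_step]
      simp [Ar, iterate_zero]
    | n + 2 =>
      rw [pm_step, pm_step]
      show L a ((pm a)^[n + 1] p).1 * _ - (fderiv ℝ (pm a)^[n] p (1, 0)).1 = _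
      have h1 := ih (n + 1) (by omega)
      have h0 := ih n (by omega)
      rw [pm_step] at h1
      rw [h1, h0]
      rfl

theorem fd_two (a : ℝ) (p : ℝ × ℝ) (n : ℕ) :
    (fderiv ℝ (pm a)^[n] p (0, 1)).1 = -Dr (fun k => L a ((pm a)^[k] p).1) n := by
  induction n using Nat.strong_induction_on with
  | _ n ih =>
    match n with
    | 0 =>
      simp [Dr, iterate_zero]
    | 1 =>
      rw [pm_step]
      simp [Dr, iterate_zero]
    | n + 2 =>
      rw [pm_step, pm_step]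
      show L a ((pm a)^[n + 1] p).1 * _ - (fderiv ℝ (pm a)^[n] p (0, 1)).1 = _
      have h1 := ih (n + 1) (by omega)
      have h0 := ih n (by omega)
      rw [pm_step] at h1
      rw [h1, h0]
      show _ = -(L a ((pm a)^[n + 1] p).1 * Dr (fun k => L a ((pm a)^[k] p).1) (n + 1) -
        Dr (fun k => L a ((pm a)^[k] p).1) n)
      ring

/-- the trace -/
theorem tr_eq (a : ℝ) (p : ℝ × ℝ) {q : ℕ} (hq : 1 ≤ q) :
    (fderiv ℝ (pm a)^[q] p (1, 0)).1 + (fderiv ℝ (pm a)^[q] p (0, 1)).2 =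
      Ar (fun k => L a ((pm a)^[k] p).1) q - Dr (fun k => L a ((pm a)^[k] p).1) (q - 1) := by
  obtain ⟨n, rfl⟩ : ∃ n, q = n + 1 := ⟨q - 1, by omega⟩
  rw [fd_one, pm_step a p (0, 1) n, Nat.add_sub_cancel]
  show _ + (fderiv ℝ (pm a)^[n] p (0, 1)).1 = _
  rw [fd_two]
  ring

theorem pm_X (a x y : ℝ) (k : ℕ) : (pm a)^[k] (x, y) = (X a y (k + 1) x, X a y k x) := by
  have h := iter_plane a y x k
  show ((fun p : ℝ × ℝ => (2 * p.1 - p.2 + a * sin (2 * π * p.1), p.1))^[k] (x, y)) = _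
  rw [h]

/-- the orbit on the circle -/
theorem Z_succ (a y x : ℝ) (k : ℕ) : ((X a y (k + 2) x : ℝ) : UnitAddCircle) =
    phi a ((X a y (k + 1) x : ℝ) : UnitAddCircle) - ((X a y k x : ℝ) : UnitAddCircle) := by
  rw [X_succ, phi_coe, AddCircle.coe_sub]
  rfl

theorem Z_per {a x y : ℝ} {q : ℕ} {m n : ℤ} (h1 : X a y (q + 1) x = x + m)
    (h0 : X a y q x = y + n) (k : ℕ) :
    ((X a y (k + q) x : ℝ) : UnitAddCircle) = ((X a y k x : ℝ) : UnitAddCircle) := by
  have hint : ∀ j : ℤ, ((j : ℝ) : UnitAddCircle) = 0 := fun j =>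
    (AddCircle.coe_eq_zero_iff 1).2 ⟨j, by simp⟩
  induction k using Nat.strong_induction_on with
  | _ k ih =>
    match k with
    | 0 =>
      rw [zero_add, h0, AddCircle.coe_add, hint, add_zero]
      rfl
    | 1 =>
      rw [add_comm 1 q, h1, AddCircle.coe_add, hint, add_zero]
      rfl
    | k + 2 =>
      rw [show k + 2 + q = (k + q) + 2 by ring, Z_succ, Z_succ, ← ih k (by omega),
        ← ih (k + 1) (by omega), show k + q + 1 = k + 1 + q by ring]

/-- a weakly hyperbolic periodic point of the plane, with at most one passage, for `a > 0` -/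
theorem ell_of {K θ a x y : ℝ} {q : ℕ} [NeZero q] {m n : ℤ}
    (hper : (pm a)^[q] (x, y) = (x + m, y + n))
    (hout : ∀ k, 0 < k → k < q → K ≤ |a * cos (2 * π * ((pm a)^[k] (x, y)).1)|)
    (htr : |(fderiv ℝ (pm a)^[q] (x, y) (1, 0)).1 + (fderiv ℝ (pm a)^[q] (x, y) (0, 1)).2| ≤
      2 * (∏ k ∈ Finset.Ico 1 q, (|L a ((pm a)^[k] (x, y)).1| - 1)) ^ θ) :
    ∃ ξ : ZMod q → ℝ, Ell K θ a ξ := by
  have hq : 1 ≤ q := Nat.one_le_iff_ne_zero.2 (NeZero.ne q)
  rw [pm_X] at hper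
  have h1 : X a y (q + 1) x = x + m := congrArg Prod.fst hper
  have h0 : X a y q x = y + n := congrArg Prod.snd hper
  set r : ℝ → ℝ := fun t => t - ⌊t + 1 / 4⌋ with hr
  have hr1 : ∀ t, -(1 / 4) ≤ r t ∧ r t < 3 / 4 := by
    intro t
    have h2 := Int.floor_le (t + 1 / 4)
    have h3 := Int.lt_floor_add_one (t + 1 / 4)
    show -(1 / 4) ≤ t - ⌊t + 1 / 4⌋ ∧ t - ⌊t + 1 / 4⌋ < 3 / 4
    constructor <;> linarith
  have hrc : ∀ t, ((r t : ℝ) : UnitAddCircle) = ((t : ℝ) : UnitAddCircle) := by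
    intro t
    show ((t - (⌊t + 1 / 4⌋ : ℤ) : ℝ) : UnitAddCircle) = _
    rw [AddCircle.coe_sub]
    have : (((⌊t + 1 / 4⌋ : ℤ) : ℝ) : UnitAddCircle) = 0 :=
      (AddCircle.coe_eq_zero_iff 1).2 ⟨⌊t + 1 / 4⌋, by simp⟩
    rw [this, sub_zero]
  set ξ : ZMod q → ℝ := fun i => r (X a y (i.val + 1) x) with hξ
  -- the circle valued orbit
  have hZ : ∀ k : ℕ, ((ξ (k : ZMod q) : ℝ) : UnitAddCircle) =
      ((X a y (k + 1) x : ℝ) : UnitAddCircle) := by
    intro k
    show ((r (X a y ((k : ZMod q).val + 1) x) : ℝ) : UnitAddCircle) = _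
    rw [hrc, ZMod.val_natCast]
    have hperd : Periodic (fun j : ℕ => ((X a y (j + 1) x : ℝ) : UnitAddCircle)) q := by
      intro j
      show ((X a y (j + q + 1) x : ℝ) : UnitAddCircle) = ((X a y (j + 1) x : ℝ) : UnitAddCircle)
      rw [show j + q + 1 = j + 1 + q by ring]
      exact Z_per h1 h0 (j + 1)
    exact hperd.map_mod_nat k
  have hcos : ∀ s t : ℝ, ((s : ℝ) : UnitAddCircle) = ((t : ℝ) : UnitAddCircle) →
      cos (2 * π * s) = cos (2 * π * t) := by
    intro s t hst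
    have h2 : ((s - t : ℝ) : UnitAddCircle) = 0 := by rw [AddCircle.coe_sub, hst, sub_self]
    obtain ⟨j, hj⟩ := (AddCircle.coe_eq_zero_iff 1).1 h2
    have h3 : s = t + j := by
      have : (j : ℝ) = s - t := by simpa using hj
      linarith
    rw [h3, show 2 * π * (t + j) = 2 * π * t + j * (2 * π) by ring, cos_add_int_mul_two_pi]
  have hL : ∀ k : ℕ, L a (ξ (k : ZMod q)) = L a (X a y (k + 1) x) := by
    intro k
    unfold L
    rw [hcos _ _ (hZ k)]
  refine ⟨ξ, ?_, fun i => hr1 _, ?_, ?_⟩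
  · intro i
    -- `i = k + 1` with `k` natural
    set k := i.val + (q - 1) with hk
    have e1 : ((k + 1 : ℕ) : ZMod q) = i := by
      rw [hk, show i.val + (q - 1) + 1 = i.val + q by omega]
      push_cast
      rw [ZMod.natCast_self, add_zero, ZMod.natCast_zmod_val]
    have e0 : ((k : ℕ) : ZMod q) = i - 1 := by
      rw [← e1]; push_cast; ring
    have e2 : ((k + 2 : ℕ) : ZMod q) = i + 1 := by
      rw [← e1]; push_cast; ring
    have h2 : ((F a (ξ i) - ξ (i - 1) - ξ (i + 1) : ℝ) : UnitAddCircle) = 0 := by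
      rw [AddCircle.coe_sub, AddCircle.coe_sub]
      have h3 : ((F a (ξ i) : ℝ) : UnitAddCircle) = phi a ((ξ i : ℝ) : UnitAddCircle) := by
        rw [phi_coe]; rfl
      rw [h3, ← e0, ← e2]
      conv_lhs => rw [← e1]
      rw [hZ, hZ, hZ, Z_succ a y x (k + 1)]
      abel
    obtain ⟨j, hj⟩ := (AddCircle.coe_eq_zero_iff 1).1 h2
    refine ⟨j, ?_⟩
    have : (j : ℝ) = F a (ξ i) - ξ (i - 1) - ξ (i + 1) := by simpa using hj
    linarith
  · intro i hi
    have hv : 0 < i.val := Nat.pos_of_ne_zero fun h => hi ((ZMod.val_eq_zero i).1 h)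
    have h2 := hout i.val hv (ZMod.val_lt i)
    rw [pm_X] at h2
    have h3 : cos (2 * π * ξ i) = cos (2 * π * X a y (i.val + 1) x) := hcos _ _ (hrc _)
    rw [h3]
    exact h2
  · rw [tr_eq a (x, y) hq] at htr
    have e : (fun k : ℕ => L a ((pm a)^[k] (x, y)).1) = fun k : ℕ => L a (ξ (k : ZMod q)) := by
      funext k
      rw [hL, pm_X]
    have e2 : PP a ξ = ∏ k ∈ Finset.Ico 1 q, (|L a ((pm a)^[k] (x, y)).1| - 1) := by
      unfold PP
      rw [prod_zmod, Finset.prod_range_eq_mul_Ico _ (by omega : 0 < q)]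
      rw [if_pos (by simp), one_mul]
      apply Finset.prod_congr rfl
      intro k hk
      rw [Finset.mem_Ico] at hk
      have hne : ((k : ℕ) : ZMod q) ≠ 0 := by
        rw [Ne, ZMod.natCast_eq_zero_iff]
        intro hd
        have := Nat.le_of_dvd (by omega) hd
        omega
      rw [if_neg hne]
      have := congrFun e k
      rw [this]
    rw [e, ← e2] at htr
    exact htr

end Pool.Agent.V8H61.SM
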