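import Pool.Agent.V8H61.SM.Fib

set_option autoImplicit false

/-!
# Near tangencies along a fibre are well separated
-/

namespace Pool.Agent.V8H61.SM

open Real Finset Pool.Agent.TH705.SM

theorem mvt_lower {f f' : ℝ → ℝ} {x y M : ℝ} (hd : ∀ z ∈ Set.uIcc x y, HasDerivAt f (f' z) z)
    (hM : ∀ z ∈ Set.uIcc x y, M ≤ |f' z|) : M * |x - y| ≤ |f x - f y| := by
  rcases lt_trichotomy x y with h | h | h
  · rw [Set.uIcc_of_le h.le] at hd hM
    obtain ⟨ξ, hξ, h2⟩ := exists_hasDerivAt_eq_slope f f' h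
      (fun z hz => (hd z hz).continuousAt.continuousWithinAt)
      (fun z hz => hd z (Set.Ioo_subset_Icc_self hz))
    have h3 := hM ξ (Set.Ioo_subset_Icc_self hξ)
    rw [h2, abs_div, le_div_iff₀ (abs_pos.2 (by intro h0; linarith))] at h3
    rwa [abs_sub_comm x, abs_sub_comm (f x)]
  · subst h; simp
  · rw [Set.uIcc_of_ge h.le] at hd hM
    obtain ⟨ξ, hξ, h2⟩ := exists_hasDerivAt_eq_slope f f' h
      (fun z hz => (hd z hz).continuousAt.continuousWithinAt)
      (fun z hz => hd z (Set.Ioo_subset_Icc_self hz))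
    have h3 := hM ξ (Set.Ioo_subset_Icc_self hξ)
    rwa [h2, abs_div, le_div_iff₀ (abs_pos.2 (by intro h0; linarith))] at h3

theorem pow_cmp {x : ℝ} (hx : 1000 ≤ x) :
    (1 / (x - 2) ^ 2) ^ 2 ≤ (1 / (x + 1)) ^ 3 := by
  obtain ⟨y, rfl⟩ : ∃ y, x = y + 2 := ⟨x - 2, by ring⟩
  have hy : 998 ≤ y := by linarith
  have e : y + 2 - 2 = y := by ring
  have e2 : y + 2 + 1 = y + 3 := by ring
  rw [e, e2, div_pow, div_pow, one_pow, one_pow]
  apply one_div_le_one_div_of_le (by positivity)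
  have h1 : (y + 3) ^ 3 ≤ 998 * y ^ 3 := by
    have h2 : y + 3 ≤ 2 * y := by linarith
    calc (y + 3) ^ 3 ≤ (2 * y) ^ 3 := pow_le_pow_left₀ (by positivity) h2 3
      _ = 8 * y ^ 3 := by ring
      _ ≤ 998 * y ^ 3 := by
        apply mul_le_mul_of_nonneg_right (by norm_num) (by positivity)
  calc (y + 3) ^ 3 ≤ 998 * y ^ 3 := h1
    _ ≤ y * y ^ 3 := mul_le_mul_of_nonneg_right hy (by positivity)
    _ = (y ^ 2) ^ 2 := by ring

/-- truncation error in terms of the majorant -/
theorem tail_sq {a s u u' l : ℝ} {k : ℕ} {e0 : ℝ} (he : 0 < e0) (hl : 1000 ≤ l) {m N : ℕ}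
    (hmN : m ≤ N) (hg : ∀ i, i < m → l ≤ |cs a s u (k + 1 + i)|)
    (hg' : ∀ i, k + 1 ≤ i → i < k + 1 + N → l ≤ |cs a s u' i|)
    (hd : ∀ i, i < m → |cs a s u' (k + 1 + i) - cs a s u (k + 1 + i)| ≤ 1 / 2) {q : ℝ}
    (hq : e0 ≤ q * em a s u k e0 m) :
    |cf (cs a s u') N (k + 1) - cf (cs a s u') m (k + 1)| ^ 2 ≤ q ^ 3 := by
  have h1 := cf_diff (c := cs a s u') (l := l) (by linarith) m N (k + 1) hmN hg'
  have h2 : ∏ i ∈ range m, (1 / (|cs a s u' (k + 1 + i)| - 1) ^ 2) ≤
      ∏ i ∈ range m, (1 / (|cs a s u (k + 1 + i)| - 2) ^ 2) := by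
    apply Finset.prod_le_prod
    · intro i _; positivity
    · intro i hi
      rw [Finset.mem_range] at hi
      have h3 := hg i hi
      have h4 := hd i hi
      have h5 := abs_sub_abs_le_abs_sub (cs a s u (k + 1 + i)) (cs a s u' (k + 1 + i))
      rw [abs_sub_comm (cs a s u (k + 1 + i))] at h5
      apply one_div_le_one_div_of_le
      · have : 0 < |cs a s u (k + 1 + i)| - 2 := by linarith
        positivity
      · apply pow_le_pow_left₀
        · linarith
        · linarith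
  have h3 : 0 ≤ ∏ i ∈ range m, (1 / (|cs a s u (k + 1 + i)| - 2) ^ 2) :=
    Finset.prod_nonneg fun i _ => by positivity
  have h4 : (∏ i ∈ range m, (1 / (|cs a s u (k + 1 + i)| - 2) ^ 2)) ^ 2 ≤
      (∏ i ∈ range m, (1 / (|cs a s u (k + 1 + i)| + 1))) ^ 3 := by
    rw [← Finset.prod_pow, ← Finset.prod_pow]
    apply Finset.prod_le_prod
    · intro i _; positivity
    · intro i hi
      rw [Finset.mem_range] at hi
      exact pow_cmp (hl.trans (hg i hi))
  have h5 : ∏ i ∈ range m, (1 / (|cs a s u (k + 1 + i)| + 1)) ≤ q := by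
    have hP : 0 < ∏ i ∈ range m, (|cs a s u (k + 1 + i)| + 1) :=
      Finset.prod_pos fun i _ => by positivity
    have e : ∏ i ∈ range m, (1 / (|cs a s u (k + 1 + i)| + 1)) =
        1 / ∏ i ∈ range m, (|cs a s u (k + 1 + i)| + 1) := by
      rw [Finset.prod_div_distrib]
      simp
    rw [e, div_le_iff₀ hP]
    unfold em at hq
    have : e0 * 1 ≤ e0 * (q * ∏ i ∈ range m, (|cs a s u (k + 1 + i)| + 1)) := by
      rw [mul_one]
      refine hq.trans (le_of_eq (by ring))
    exact le_of_mul_le_mul_left this he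
  have h6 : 0 ≤ ∏ i ∈ range m, (1 / (|cs a s u (k + 1 + i)| + 1)) :=
    Finset.prod_nonneg fun i _ => by positivity
  calc |cf (cs a s u') N (k + 1) - cf (cs a s u') m (k + 1)| ^ 2 ≤
      (∏ i ∈ range m, (1 / (|cs a s u (k + 1 + i)| - 2) ^ 2)) ^ 2 :=
        pow_le_pow_left₀ (abs_nonneg _) (h1.trans h2) 2
    _ ≤ (∏ i ∈ range m, (1 / (|cs a s u (k + 1 + i)| + 1))) ^ 3 := h4
    _ ≤ q ^ 3 := pow_le_pow_left₀ h6 h5 3

/-- a critical time with good past and future and a near tangency -/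
structure BadF (a l θ : ℝ) (w : ℕ) (s t : ℝ) : Prop where
  crit : |L a t| < l
  fut : ∀ i, 2 ≤ i → i < 2 + (w + 1) → l ≤ |cs a s t i|
  pst0 : l ≤ |L a s|
  pst : ∀ i, 1 ≤ i → i < 1 + w → l ≤ |cs a s (F a s - t) i|
  small : |L a t - 1 / (L a s - cf (cs a s (F a s - t)) w 1) - cf (cs a s t) (w + 1) 2| < θ

/-- the movement of the coefficients up to the first time when the majorant is large -/
theorem chain {a s u : ℝ} {k : ℕ} {e0 l : ℝ} (hl : 1000 ≤ l) (ha : 0 < |a|) (he : 0 < e0) (N : ℕ) (hN : 1 / (80 * |a|) ≤ e0 * (l + 1) ^ N)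
    (hg : ∀ i, k + 1 ≤ i → i < k + 1 + N → l ≤ |cs a s u i|) :
    ∃ m, m ≤ N ∧ 1 / (80 * |a|) ≤ em a s u k e0 m ∧
      ∀ u', |X a s k u' - X a s k u| ≤ e0 / 2 → |X a s (k + 1) u' - X a s (k + 1) u| ≤ e0 →
        ∀ i, i < m → |cs a s u' (k + 1 + i) - cs a s u (k + 1 + i)| ≤ 1 / 2 := by
  classical
  have hemN : 1 / (80 * |a|) ≤ em a s u k e0 N := by
    refine hN.trans ?_
    unfold em
    apply mul_le_mul_of_nonneg_left _ he.le
    calc (l + 1) ^ N = ∏ i ∈ range N, (l + 1) := by simp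
      _ ≤ _ := by
        apply Finset.prod_le_prod
        · intro i _; linarith
        · intro i hi
          rw [Finset.mem_range] at hi
          have := hg (k + 1 + i) (by omega) (by omega)
          linarith
  have hex : ∃ m, 1 / (80 * |a|) ≤ em a s u k e0 m := ⟨N, hemN⟩
  refine ⟨Nat.find hex, Nat.find_min' hex hemN, Nat.find_spec hex, ?_⟩
  intro u' h0 h1 i hi
  have hpi : π ^ 2 ≤ 10 := by
    have h1 := pi_lt_d2
    have h2 := pi_pos
    nlinarith
  have hs : ∀ i, i < Nat.find hex → 4 * π ^ 2 * |a| * em a s u k e0 i ≤ 1 / 2 := by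
    intro i hi
    have h2 := Nat.find_min hex hi
    rw [not_le] at h2
    have h3 : 4 * π ^ 2 * |a| * em a s u k e0 i ≤ 4 * π ^ 2 * |a| * (1 / (80 * |a|)) :=
      mul_le_mul_of_nonneg_left h2.le (by positivity)
    have h4 : 4 * π ^ 2 * |a| * (1 / (80 * |a|)) = π ^ 2 / 20 := by
      field_simp
      ring
    linarith
  have hfN := Nat.find_min' hex hemN
  have h2 := (move he.le h0 h1 i (fun j hj => by
    have := hg (k + 1 + j) (by omega) (by omega)
    linarith) (fun j hj => hs j (by omega))).2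
  have h3 := L_lip a (X a s (k + 1 + i) u') (X a s (k + 1 + i) u)
  refine h3.trans ?_
  exact (mul_le_mul_of_nonneg_left h2 (by positivity)).trans (hs i hi)

theorem sep {a l s t t' : ℝ} {w : ℕ} (hl : 1000 ≤ l) (hla : l ≤ |a|)
    (hw : |a| ^ 6 * (l + 1) ≤ (l + 1) ^ w) (hb : BadF a l (1 / |a| ^ 9) w s t)
    (hb' : BadF a l (1 / |a| ^ 9) w s t') (hδ : |t - t'| ≤ 1 / (80 * (l + 1) * |a| ^ 7)) :
    |t - t'| ≤ 6 / |a| ^ 10 := by
  have ha1 : 1000 ≤ |a| := hl.trans hla
  have ha0 : 0 < |a| := by linarith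
  have hl0 : 0 < l := by linarith
  have hl1 : 0 < l + 1 := by linarith
  have ha6 : 1 ≤ |a| ^ 6 := one_le_pow₀ (by linarith)
  set δ := 1 / (80 * (l + 1) * |a| ^ 7) with hδd
  have hδ0 : 0 < δ := by positivity
  have hpi : π ^ 2 ≤ 10 := by
    have h1 := pi_lt_d2
    have h2 := pi_pos
    nlinarith
  have hpi9 : 9 ≤ π ^ 2 := by
    have h1 := pi_gt_three
    nlinarith
  have hδa : 4 * π ^ 2 * |a| * δ ≤ 1 / 2 := by
    have e : 4 * π ^ 2 * |a| * δ = (π ^ 2 / 20) * (1 / ((l + 1) * |a| ^ 6)) := by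
      rw [hδd]; field_simp; ring
    have h1 : 1 / ((l + 1) * |a| ^ 6) ≤ 1 := by
      rw [div_le_one (by positivity)]
      nlinarith
    rw [e]
    nlinarith
  -- the future chain
  obtain ⟨i1, hi1, hem1, hmv1⟩ := chain (a := a) (s := s) (u := t) (k := 1) (e0 := δ * (l + 1)) hl
    ha0 (by positivity) (w + 1) (by
      have h1 : δ * (l + 1) * (l + 1) ^ (w + 1) = (1 / (80 * |a|)) * ((l + 1) ^ (w + 1) / |a| ^ 6) := by
        rw [hδd]; field_simp
      rw [h1]
      have h2 : 1 ≤ (l + 1) ^ (w + 1) / |a| ^ 6 := by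
        rw [le_div_iff₀ (by positivity), one_mul]
        have h4 : (l + 1) ^ w ≤ (l + 1) ^ (w + 1) := pow_le_pow_right₀ (by linarith) (by omega)
        have h5 : |a| ^ 6 ≤ |a| ^ 6 * (l + 1) := le_mul_of_one_le_right (by positivity) (by linarith)
        linarith
      have h3 : 0 < 1 / (80 * |a|) := by positivity
      nlinarith) (fun i a1 a2 => hb.fut i (by omega) (by omega))
  -- the past chain
  obtain ⟨i2, hi2, hem2, hmv2⟩ := chain (a := a) (s := s) (u := F a s - t) (k := 0) (e0 := δ) hl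
    ha0 hδ0 w (by
      have h1 : δ * (l + 1) ^ w = (1 / (80 * |a|)) * ((l + 1) ^ w / (|a| ^ 6 * (l + 1))) := by
        rw [hδd]; field_simp
      rw [h1]
      have h2 : 1 ≤ (l + 1) ^ w / (|a| ^ 6 * (l + 1)) := by
        rw [le_div_iff₀ (by positivity), one_mul]
        exact hw
      have h3 : 0 < 1 / (80 * |a|) := by positivity
      nlinarith) (fun i a1 a2 => hb.pst i (by omega) (by omega))
  simp only [Nat.reduceAdd, zero_add] at hmv1 hmv2
  have hX1 : ∀ τ, X a s 1 τ = τ := fun τ => rfl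
  have hX0 : ∀ τ, X a s 0 τ = s := fun τ => rfl
  have hcrit := hb.crit
  -- the segment
  have hfm : ∀ τ, |τ - t| ≤ δ → ∀ i, i < i1 → |cs a s τ (2 + i) - cs a s t (2 + i)| ≤ 1 / 2 := by
    intro τ hτ
    apply hmv1 τ
    · rw [hX1, hX1]
      nlinarith
    · have e1 : X a s 2 τ = F a τ - s := X_succ a s 0 τ
      have e2 : X a s 2 t = F a t - s := X_succ a s 0 t
      rw [e1, e2]
      have e3 : F a τ - s - (F a t - s) = F a τ - F a t := by ring
      rw [e3]
      have h1 := F_diff a τ t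
      have h2 : 4 * π ^ 2 * |a| * |τ - t| ≤ 1 / 2 :=
        (mul_le_mul_of_nonneg_left hτ (by positivity)).trans hδa
      have h3 := abs_nonneg (τ - t)
      nlinarith
  have hpm : ∀ τ, |τ - t| ≤ δ → ∀ i, i < i2 →
      |cs a s (F a s - τ) (1 + i) - cs a s (F a s - t) (1 + i)| ≤ 1 / 2 := by
    intro τ hτ
    apply hmv2 (F a s - τ)
    · rw [hX0, hX0, sub_self, abs_zero]
      positivity
    · rw [hX1, hX1]
      have e3 : F a s - τ - (F a s - t) = -(τ - t) := by ring
      rw [e3, abs_neg]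
      exact hτ
  have hfg : ∀ τ, |τ - t| ≤ δ → ∀ i, 2 ≤ i → i < 2 + i1 → l / 2 ≤ |cs a s τ i| := by
    intro τ hτ i a1 a2
    obtain ⟨i, rfl⟩ : ∃ j, i = 2 + j := ⟨i - 2, by omega⟩
    have h1 := hfm τ hτ i (by omega)
    have h2 := hb.fut (2 + i) (by omega) (by omega)
    have h3 := abs_sub_abs_le_abs_sub (cs a s t (2 + i)) (cs a s τ (2 + i))
    rw [abs_sub_comm (cs a s t (2 + i))] at h3
    linarith
  have hpg : ∀ τ, |τ - t| ≤ δ → ∀ i, 1 ≤ i → i < 1 + i2 → l / 2 ≤ |cs a s (F a s - τ) i| := by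
    intro τ hτ i a1 a2
    obtain ⟨i, rfl⟩ : ∃ j, i = 1 + j := ⟨i - 1, by omega⟩
    have h1 := hpm τ hτ i (by omega)
    have h2 := hb.pst (1 + i) (by omega) (by omega)
    have h3 := abs_sub_abs_le_abs_sub (cs a s (F a s - t) (1 + i)) (cs a s (F a s - τ) (1 + i))
    rw [abs_sub_comm (cs a s (F a s - t) (1 + i))] at h3
    linarith
  -- the truncated function
  set J : ℝ → ℝ := fun τ => L a τ - 1 / (L a s - cf (cs a s (F a s - τ)) i2 1) -
    cf (cs a s τ) i1 2 with hJ
  set J' : ℝ → ℝ := fun τ => -(4 * π ^ 2 * a * sin (2 * π * τ)) +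
    dcf a s (F a s - τ) i2 1 / (L a s - cf (cs a s (F a s - τ)) i2 1) ^ 2 -
    dcf a s τ i1 2 with hJ'
  have hseg : ∀ τ ∈ Set.uIcc t t', |τ - t| ≤ δ := by
    intro τ hτ
    have h1 := Set.abs_sub_left_of_mem_uIcc hτ
    rw [abs_sub_comm t' t] at h1
    exact h1.trans hδ
  have hden : ∀ τ, |τ - t| ≤ δ → 1 ≤ |L a s - cf (cs a s (F a s - τ)) i2 1| := by
    intro τ hτ
    have h1 := cf_le (c := cs a s (F a s - τ)) (l := l / 2) (by linarith) i2 1
      (fun i a1 a2 => hpg τ hτ i a1 a2)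
    have h2 := abs_sub_abs_le_abs_sub (L a s) (cf (cs a s (F a s - τ)) i2 1)
    have h3 := hb.pst0
    linarith
  have hder : ∀ τ ∈ Set.uIcc t t', HasDerivAt J (J' τ) τ := by
    intro τ hτ
    have hτ2 := hseg τ hτ
    have h1 : HasDerivAt (L a) (-(4 * π ^ 2 * a * sin (2 * π * τ))) τ := by
      have := L_hasDeriv a s 1 τ
      have e : D a s 1 τ = 1 := rfl
      rw [e, mul_one] at this
      exact this
    have h2 := cf_hasDeriv (a := a) (s := s) (t := τ) (l := l / 2) (by linarith) i1 2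
      (fun i a1 a2 => hfg τ hτ2 i a1 a2)
    have h3 := cf_hasDeriv (a := a) (s := s) (t := F a s - τ) (l := l / 2) (by linarith) i2 1
      (fun i a1 a2 => hpg τ hτ2 i a1 a2)
    have h4 : HasDerivAt (fun τ => F a s - τ) (-1) τ := by
      simpa using (hasDerivAt_id τ).const_sub (F a s)
    have h5 := h3.comp τ h4
    have h6 := h5.const_sub (L a s)
    have hd := hden τ hτ2
    have hne : L a s - cf (cs a s (F a s - τ)) i2 1 ≠ 0 := by
      intro h0
      rw [h0, abs_zero] at hd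
      linarith
    have h7 := h6.inv hne
    have h8 := (h1.sub h7).sub h2
    have e : J = fun τ => L a τ - (L a s - cf (cs a s (F a s - τ)) i2 1)⁻¹ - cf (cs a s τ) i1 2 := by
      rw [hJ]
      funext x
      simp only [one_div]
    rw [e]
    refine h8.congr_deriv ?_
    rw [hJ']
    simp only [Function.comp]
    ring
  have hlow : ∀ τ ∈ Set.uIcc t t', |a| ≤ |J' τ| := by
    intro τ hτ
    have hτ2 := hseg τ hτ
    have hlτ : |L a τ| ≤ l + 1 := by
      have h1 := L_lip a τ t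
      have h2 : 4 * π ^ 2 * |a| * |τ - t| ≤ 1 / 2 :=
        (mul_le_mul_of_nonneg_left hτ2 (by positivity)).trans hδa
      have h3 := abs_sub_abs_le_abs_sub (L a τ) (L a t)
      linarith
    have hcos : |cos (2 * π * τ)| ≤ 1 / 2 := by
      have h1 : 2 * π * |a| * |cos (2 * π * τ)| ≤ l + 3 := by
        have h2 : 2 * π * a * cos (2 * π * τ) = L a τ - 2 := by unfold L; ring
        have h3 : |2 * π * a * cos (2 * π * τ)| = 2 * π * |a| * |cos (2 * π * τ)| := by
          rw [abs_mul, abs_mul, abs_of_pos (by positivity : (0:ℝ) < 2 * π)]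
        rw [← h3, h2]
        refine (abs_sub _ _).trans ?_
        rw [abs_of_pos (by norm_num : (0:ℝ) < 2)]
        linarith
      have hpi3 := pi_gt_three
      have h4 : 6 * |a| * |cos (2 * π * τ)| ≤ 2 * π * |a| * |cos (2 * π * τ)| := by
        have := abs_nonneg (cos (2 * π * τ))
        apply mul_le_mul_of_nonneg_right _ this
        nlinarith
      by_contra hcon
      rw [not_le] at hcon
      nlinarith
    have hsin : 3 / 4 ≤ |sin (2 * π * τ)| := by
      have h1 := sin_sq_add_cos_sq (2 * π * τ)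
      rw [← sq_abs (sin _), ← sq_abs (cos _)] at h1
      have h2 := abs_nonneg (sin (2 * π * τ))
      have h3 := abs_nonneg (cos (2 * π * τ))
      by_contra hcon
      rw [not_le] at hcon
      nlinarith
    set Ca := 4 * π ^ 2 * |a| with hCa
    have hCa36 : 36 * |a| ≤ Ca := by rw [hCa]; nlinarith
    have hCa0 : 0 < Ca := by positivity
    have h1 : 3 / 4 * Ca ≤ |-(4 * π ^ 2 * a * sin (2 * π * τ))| := by
      rw [abs_neg, abs_mul, abs_mul, abs_mul]
      have e3 : |(4:ℝ)| * |π ^ 2| = 4 * π ^ 2 := by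
        rw [abs_of_pos (by norm_num : (0:ℝ) < 4), abs_of_pos (by positivity : 0 < π ^ 2)]
      rw [e3, ← hCa]
      nlinarith
    have h2 := dcf_le (a := a) (s := s) (t := τ) (l := l / 2) (by linarith) i1 1
      (fun i a1 a2 => hfg τ hτ2 i (by omega) (by omega))
    have h3 := dcf_le (a := a) (s := s) (t := F a s - τ) (l := l / 2) (by linarith) i2 0
      (fun i a1 a2 => hpg τ hτ2 i (by omega) (by omega))
    have e1 : D a s (1 + 1) τ = L a τ := by
      show L a (X a s 1 τ) * D a s 1 τ - D a s 0 τ = _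
      show L a τ * 1 - 0 = _
      ring
    have e2 : D a s 1 τ = 1 := rfl
    have e3 : D a s (0 + 1) (F a s - τ) = 1 := rfl
    have e4 : D a s 0 (F a s - τ) = 0 := rfl
    rw [e1, e2, abs_one] at h2
    rw [e3, e4, abs_one, abs_zero, add_zero, mul_one] at h3
    simp only [Nat.reduceAdd, zero_add] at h2 h3
    rw [← hCa] at h2 h3
    have hκ : 8 / (l / 2) ^ 2 ≤ 1 / (31 * l) := by
      rw [div_le_div_iff₀ (by positivity) (by positivity)]
      nlinarith
    have hκ0 : 0 ≤ 8 / (l / 2) ^ 2 := by positivity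
    have h4 : |dcf a s τ i1 2| ≤ 1 / 30 * Ca := by
      refine h2.trans ?_
      have h5 : 8 / (l / 2) ^ 2 * (|L a τ| + 1) ≤ 1 / 30 := by
        calc 8 / (l / 2) ^ 2 * (|L a τ| + 1) ≤ 1 / (31 * l) * (l + 2) := by
              apply mul_le_mul hκ (by linarith) (by positivity) (by positivity)
          _ ≤ 1 / 30 := by
            rw [one_div_mul_eq_div, div_le_iff₀ (by positivity)]
            linarith
      nlinarith
    have h5 : |dcf a s (F a s - τ) i2 1 / (L a s - cf (cs a s (F a s - τ)) i2 1) ^ 2| ≤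
        1 / 30 * Ca := by
      rw [abs_div, abs_pow]
      have h6 := hden τ hτ2
      have h7 : 1 ≤ |L a s - cf (cs a s (F a s - τ)) i2 1| ^ 2 := one_le_pow₀ h6
      have h8 : 8 / (l / 2) ^ 2 ≤ 1 / 30 := by
        refine hκ.trans ?_
        apply one_div_le_one_div_of_le (by norm_num)
        linarith
      calc _ ≤ |dcf a s (F a s - τ) i2 1| / 1 :=
            div_le_div_of_nonneg_left (abs_nonneg _) one_pos h7
        _ ≤ _ := by
          rw [div_one]
          refine h3.trans ?_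
          nlinarith
    rw [hJ']
    simp only
    have t1 := abs_sub_abs_le_abs_sub (-(4 * π ^ 2 * a * sin (2 * π * τ)) +
      dcf a s (F a s - τ) i2 1 / (L a s - cf (cs a s (F a s - τ)) i2 1) ^ 2) (dcf a s τ i1 2)
    have t2 : |-(4 * π ^ 2 * a * sin (2 * π * τ))| ≤ |-(4 * π ^ 2 * a * sin (2 * π * τ)) +
      dcf a s (F a s - τ) i2 1 / (L a s - cf (cs a s (F a s - τ)) i2 1) ^ 2| +
      |dcf a s (F a s - τ) i2 1 / (L a s - cf (cs a s (F a s - τ)) i2 1) ^ 2| := by
      have := abs_sub (-(4 * π ^ 2 * a * sin (2 * π * τ)) +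
        dcf a s (F a s - τ) i2 1 / (L a s - cf (cs a s (F a s - τ)) i2 1) ^ 2)
        (dcf a s (F a s - τ) i2 1 / (L a s - cf (cs a s (F a s - τ)) i2 1) ^ 2)
      rwa [add_sub_cancel_right] at this
    nlinarith
  have hmvt := mvt_lower hder hlow
  -- smallness at the end points
  have hsm : ∀ τ, |τ - t| ≤ δ → BadF a l (1 / |a| ^ 9) w s τ → |J τ| ≤ 3 / |a| ^ 9 := by
    intro τ hτ hbτ
    have ht1 := tail_sq (a := a) (s := s) (u := t) (u' := τ) (k := 1) (e0 := δ * (l + 1)) (l := l)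
      (by positivity) hl (m := i1) (N := w + 1) hi1
      (fun i hi => by
        rw [show 1 + 1 + i = 2 + i by ring]
        exact hb.fut (2 + i) (by omega) (by omega))
      (fun i a1 a2 => hbτ.fut i (by omega) (by omega))
      (fun i hi => by
        rw [show 1 + 1 + i = 2 + i by ring]
        exact hfm τ hτ i hi) (q := 1 / |a| ^ 6) (by
        have h1 : 1 / |a| ^ 6 * (1 / (80 * |a|)) ≤ 1 / |a| ^ 6 * em a s t 1 (δ * (l + 1)) i1 :=
          mul_le_mul_of_nonneg_left hem1 (by positivity)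
        refine le_trans (le_of_eq ?_) h1
        rw [hδd]; field_simp)
    have ht2 := tail_sq (a := a) (s := s) (u := F a s - t) (u' := F a s - τ) (k := 0) (e0 := δ)
      (l := l) hδ0 hl (m := i2) (N := w) hi2
      (fun i hi => by
        rw [show 0 + 1 + i = 1 + i by ring]
        exact hb.pst (1 + i) (by omega) (by omega))
      (fun i a1 a2 => hbτ.pst i (by omega) (by omega))
      (fun i hi => by
        rw [show 0 + 1 + i = 1 + i by ring]
        exact hpm τ hτ i hi) (q := 1 / |a| ^ 6) (by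
        have h1 : 1 / |a| ^ 6 * (1 / (80 * |a|)) ≤ 1 / |a| ^ 6 * em a s (F a s - t) 0 δ i2 :=
          mul_le_mul_of_nonneg_left hem2 (by positivity)
        refine le_trans ?_ h1
        rw [hδd, div_mul_div_comm, one_mul]
        apply one_div_le_one_div_of_le (by positivity)
        have h2 : 0 < |a| ^ 7 := by positivity
        have e : |a| ^ 6 * (80 * |a|) = 80 * |a| ^ 7 := by ring
        rw [e]
        nlinarith)
    simp only [Nat.reduceAdd, zero_add] at ht1 ht2
    have e9 : (1 / |a| ^ 6) ^ 3 = (1 / |a| ^ 9) ^ 2 := by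
      field_simp
    rw [e9] at ht1 ht2
    have ht1' : |cf (cs a s τ) (w + 1) 2 - cf (cs a s τ) i1 2| ≤ 1 / |a| ^ 9 :=
      le_of_sq_le_sq ht1 (by positivity)
    have ht2' : |cf (cs a s (F a s - τ)) w 1 - cf (cs a s (F a s - τ)) i2 1| ≤ 1 / |a| ^ 9 :=
      le_of_sq_le_sq ht2 (by positivity)
    -- the past fractions
    have hq1 := cf_le (c := cs a s (F a s - τ)) (l := l) (by linarith) w 1
      (fun i a1 a2 => hbτ.pst i a1 a2)
    have hd1 : 1 ≤ |L a s - cf (cs a s (F a s - τ)) w 1| := by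
      have h2 := abs_sub_abs_le_abs_sub (L a s) (cf (cs a s (F a s - τ)) w 1)
      have h3 := hb.pst0
      linarith
    have hd2 := hden τ hτ
    have hfr : |1 / (L a s - cf (cs a s (F a s - τ)) w 1) -
        1 / (L a s - cf (cs a s (F a s - τ)) i2 1)| ≤ 1 / |a| ^ 9 := by
      set q1 := cf (cs a s (F a s - τ)) w 1
      set q2 := cf (cs a s (F a s - τ)) i2 1
      have n1 : L a s - q1 ≠ 0 := by
        intro h0; rw [h0, abs_zero] at hd1; linarith
      have n2 : L a s - q2 ≠ 0 := by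
        intro h0; rw [h0, abs_zero] at hd2; linarith
      have e : 1 / (L a s - q1) - 1 / (L a s - q2) = (q1 - q2) / ((L a s - q1) * (L a s - q2)) := by
        field_simp
        ring
      rw [e, abs_div, abs_mul]
      have h4 : 1 ≤ |L a s - q1| * |L a s - q2| := one_le_mul_of_one_le_of_one_le hd1 hd2
      calc |q1 - q2| / (|L a s - q1| * |L a s - q2|) ≤ |q1 - q2| / 1 :=
            div_le_div_of_nonneg_left (abs_nonneg _) one_pos h4
        _ ≤ _ := by rw [div_one]; exact ht2'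
    have hsmall := hbτ.small
    have e : J τ = (L a τ - 1 / (L a s - cf (cs a s (F a s - τ)) w 1) - cf (cs a s τ) (w + 1) 2) +
        (1 / (L a s - cf (cs a s (F a s - τ)) w 1) - 1 / (L a s - cf (cs a s (F a s - τ)) i2 1)) +
        (cf (cs a s τ) (w + 1) 2 - cf (cs a s τ) i1 2) := by
      rw [hJ]
      ring
    rw [e]
    refine (abs_add_le _ _).trans ?_
    have t3 := abs_add_le (L a τ - 1 / (L a s - cf (cs a s (F a s - τ)) w 1) - cf (cs a s τ) (w + 1) 2)
      (1 / (L a s - cf (cs a s (F a s - τ)) w 1) - 1 / (L a s - cf (cs a s (F a s - τ)) i2 1))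
    have e3 : 3 / |a| ^ 9 = 1 / |a| ^ 9 + 1 / |a| ^ 9 + 1 / |a| ^ 9 := by ring
    rw [e3]
    linarith
  have hs1 := hsm t (by rw [sub_self, abs_zero]; exact hδ0.le) hb
  have hs2 := hsm t' (by rw [abs_sub_comm]; exact hδ) hb'
  have h1 : |J t - J t'| ≤ 6 / |a| ^ 9 := by
    refine (abs_sub _ _).trans ?_
    have e3 : 6 / |a| ^ 9 = 3 / |a| ^ 9 + 3 / |a| ^ 9 := by ring
    rw [e3]
    exact add_le_add hs1 hs2
  have h2 := hmvt.trans h1
  have e10 : 6 / |a| ^ 10 = 6 / |a| ^ 9 / |a| := by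
    field_simp
  rw [e10, le_div_iff₀ ha0]
  linarith

end Pool.Agent.V8H61.SM
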