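import Mathlib

set_option autoImplicit false

/-!
# Three-term recurrences with rare small coefficients

`D (j + 1) = c j * D j - D (j - 1)`.  The coefficients are large, `l ≤ |c j|`, except at rare
critical times `k`, where `c k` differs from the sum of the two continued fractions of the past and
of the future by at least `θ`.
-/

namespace Pool.Agent.V8H61.SM

open Finset

/-- the continued fraction `1/(c j - 1/(c (j+1) - ...))` with `n` terms -/
noncomputable def cf (c : ℕ → ℝ) : ℕ → ℕ → ℝ
  | 0, _ => 0
  | n + 1, j => 1 / (c j - cf c n (j + 1))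

/-- the iterates of `r ↦ 1/(c (b+i) - r)` -/
noncomputable def ric (c : ℕ → ℝ) (b : ℕ) (r : ℝ) : ℕ → ℝ
  | 0 => r
  | i + 1 => 1 / (c (b + i) - ric c b r i)

theorem inv_le_one {x y l : ℝ} (hl : 4 ≤ l) (hx : l ≤ |x|) (hy : |y| ≤ 1) :
    |x| - 1 ≤ |x - y| ∧ 0 < |x - y| ∧ |1 / (x - y)| ≤ 1 / (|x| - 1) ∧ |1 / (x - y)| ≤ 1 := by
  have h1 : |x| - |y| ≤ |x - y| := abs_sub_abs_le_abs_sub x y
  have h2 : |x| - 1 ≤ |x - y| := by linarith
  have h3 : 0 < |x| - 1 := by linarith
  have h4 : |1 / (x - y)| ≤ 1 / (|x| - 1) := by
    rw [abs_div, abs_one]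
    exact one_div_le_one_div_of_le h3 h2
  refine ⟨h2, by linarith, h4, h4.trans ?_⟩
  rw [div_le_one h3]
  linarith

theorem cf_le {c : ℕ → ℝ} {l : ℝ} (hl : 4 ≤ l) (n : ℕ) : ∀ j,
    (∀ i, j ≤ i → i < j + n → l ≤ |c i|) → |cf c n j| ≤ 1 := by
  induction n with
  | zero => intro j _; simp [cf]
  | succ n ih =>
    intro j h
    have h1 := ih (j + 1) (fun i h1 h2 => h i (by omega) (by omega))
    exact (inv_le_one hl (h j le_rfl (by omega)) h1).2.2.2

theorem cf_succ_le {c : ℕ → ℝ} {l : ℝ} (hl : 4 ≤ l) (n j : ℕ)
    (h : ∀ i, j ≤ i → i < j + (n + 1) → l ≤ |c i|) :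
    |cf c (n + 1) j| ≤ 1 / (|c j| - 1) := by
  have h1 := cf_le hl n (j + 1) (fun i h1 h2 => h i (by omega) (by omega))
  exact (inv_le_one hl (h j le_rfl (by omega)) h1).2.2.1

/-- truncation error -/
theorem cf_diff {c : ℕ → ℝ} {l : ℝ} (hl : 4 ≤ l) (m : ℕ) : ∀ n j, m ≤ n →
    (∀ i, j ≤ i → i < j + n → l ≤ |c i|) →
    |cf c n j - cf c m j| ≤ ∏ i ∈ range m, (1 / (|c (j + i)| - 1) ^ 2) := by
  induction m with
  | zero =>
    intro n j _ h
    simpa [cf] using cf_le hl n j h
  | succ m ih =>
    intro n j hmn h
    obtain ⟨n, rfl⟩ : ∃ n', n = n' + 1 := ⟨n - 1, by omega⟩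
    have hj := h j le_rfl (by omega)
    have h1 := cf_le hl n (j + 1) (fun i h1 h2 => h i (by omega) (by omega))
    have h2 := cf_le hl m (j + 1) (fun i h1 h2 => h i (by omega) (by omega))
    have h3 := ih n (j + 1) (by omega) (fun i h1 h2 => h i (by omega) (by omega))
    obtain ⟨a1, a2, a3, a4⟩ := inv_le_one hl hj h1
    obtain ⟨b1, b2, b3, b4⟩ := inv_le_one hl hj h2
    have e : cf c (n + 1) j - cf c (m + 1) j =
        (cf c n (j + 1) - cf c m (j + 1)) * ((1 / (c j - cf c n (j + 1))) *
          (1 / (c j - cf c m (j + 1)))) := by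
      have n1 : c j - cf c n (j + 1) ≠ 0 := abs_pos.1 a2
      have n2 : c j - cf c m (j + 1) ≠ 0 := abs_pos.1 b2
      show 1 / (c j - cf c n (j + 1)) - 1 / (c j - cf c m (j + 1)) = _
      field_simp
      ring
    rw [e, abs_mul, abs_mul, Finset.prod_range_succ', add_zero]
    have h4 : |1 / (c j - cf c n (j + 1))| * |1 / (c j - cf c m (j + 1))| ≤
        1 / (|c j| - 1) ^ 2 := by
      have h5 : 0 < |c j| - 1 := by linarith
      calc _ ≤ 1 / (|c j| - 1) * (1 / (|c j| - 1)) :=
            mul_le_mul a3 b3 (abs_nonneg _) (by positivity)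
        _ = _ := by field_simp
    have h6 : ∏ i ∈ range m, (1 / (|c (j + 1 + i)| - 1) ^ 2) =
        ∏ i ∈ range m, (1 / (|c (j + (i + 1))| - 1) ^ 2) := by
      apply Finset.prod_congr rfl
      intro i _
      rw [show j + 1 + i = j + (i + 1) by ring]
    rw [h6] at h3
    exact mul_le_mul h3 h4 (by positivity) ((abs_nonneg _).trans h3)

theorem ric_le {c : ℕ → ℝ} {l : ℝ} (hl : 4 ≤ l) {b : ℕ} {r : ℝ} (hr : |r| ≤ 1) (n : ℕ)
    (h : ∀ i, b ≤ i → i < b + n → l ≤ |c i|) : |ric c b r n| ≤ 1 := by
  induction n with
  | zero => exact hr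
  | succ n ih =>
    have h1 := ih (fun i h1 h2 => h i h1 (by omega))
    exact (inv_le_one hl (h (b + n) (by omega) (by omega)) h1).2.2.2

theorem ric_diff {c : ℕ → ℝ} {l : ℝ} (hl : 4 ≤ l) {b : ℕ} {r r' : ℝ} (hr : |r| ≤ 1)
    (hr' : |r'| ≤ 1) (n : ℕ) (h : ∀ i, b ≤ i → i < b + n → l ≤ |c i|) :
    |ric c b r n - ric c b r' n| ≤ |r - r'| * (1 / (l - 1) ^ 2) ^ n := by
  induction n with
  | zero => simp [ric]
  | succ n ih =>
    have h0 := ih (fun i h1 h2 => h i h1 (by omega))
    have hj := h (b + n) (by omega) (by omega)
    have h1 := ric_le (c := c) hl (b := b) hr n (fun i h1 h2 => h i h1 (by omega))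
    have h2 := ric_le (c := c) hl (b := b) hr' n (fun i h1 h2 => h i h1 (by omega))
    obtain ⟨a1, a2, a3, a4⟩ := inv_le_one hl hj h1
    obtain ⟨b1, b2, b3, b4⟩ := inv_le_one hl hj h2
    have e : ric c b r (n + 1) - ric c b r' (n + 1) =
        (ric c b r n - ric c b r' n) * ((1 / (c (b + n) - ric c b r n)) *
          (1 / (c (b + n) - ric c b r' n))) := by
      have n1 : c (b + n) - ric c b r n ≠ 0 := abs_pos.1 a2
      have n2 : c (b + n) - ric c b r' n ≠ 0 := abs_pos.1 b2
      show 1 / (c (b + n) - ric c b r n) - 1 / (c (b + n) - ric c b r' n) = _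
      field_simp
      ring
    rw [e, abs_mul, abs_mul]
    have h5 : 0 < |c (b + n)| - 1 := by linarith
    have h7 : 0 < l - 1 := by linarith
    have h6 : 1 / (|c (b + n)| - 1) ≤ 1 / (l - 1) :=
      one_div_le_one_div_of_le h7 (by linarith)
    have h4 : |1 / (c (b + n) - ric c b r n)| * |1 / (c (b + n) - ric c b r' n)| ≤
        1 / (l - 1) ^ 2 := by
      calc _ ≤ 1 / (l - 1) * (1 / (l - 1)) :=
            mul_le_mul (a3.trans h6) (b3.trans h6) (abs_nonneg _) (by positivity)
        _ = _ := by field_simp
    refine (mul_le_mul h0 h4 (by positivity) (by positivity)).trans (le_of_eq ?_)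
    rw [pow_succ]
    ring

/-- the solution after `n` steps -/
theorem forward {c D : ℕ → ℝ} {l : ℝ} (hl : 4 ≤ l)
    (hD : ∀ j, D (j + 2) = c (j + 1) * D (j + 1) - D j) (n : ℕ) : ∀ j,
    (∀ i, j + 1 ≤ i → i < j + 1 + n → l ≤ |c i|) →
    (∏ i ∈ range n, (|c (j + 1 + i)| - 1)) * |D (j + 1) - cf c n (j + 1) * D j| ≤
      |D (j + n + 1)| := by
  induction n with
  | zero => intro j _; simp [cf]
  | succ n ih =>
    intro j h
    have h1 := ih (j + 1) (fun i h1 h2 => h i (by omega) (by omega))
    have hj := h (j + 1) le_rfl (by omega)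
    have h2 := cf_le hl n (j + 1 + 1) (fun i h1 h2 => h i (by omega) (by omega))
    obtain ⟨a1, a2, a3, a4⟩ := inv_le_one hl hj h2
    have n1 : c (j + 1) - cf c n (j + 1 + 1) ≠ 0 := abs_pos.1 a2
    have e : D (j + 1 + 1) - cf c n (j + 1 + 1) * D (j + 1) =
        (c (j + 1) - cf c n (j + 1 + 1)) * (D (j + 1) - cf c (n + 1) (j + 1) * D j) := by
      show D (j + 2) - cf c n (j + 1 + 1) * D (j + 1) =
        (c (j + 1) - cf c n (j + 1 + 1)) *
          (D (j + 1) - 1 / (c (j + 1) - cf c n (j + 1 + 1)) * D j)
      rw [hD j]
      field_simp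
      ring
    rw [e, abs_mul] at h1
    have e2 : j + (n + 1) + 1 = j + 1 + n + 1 := by ring
    rw [e2]
    refine le_trans ?_ h1
    rw [Finset.prod_range_succ', add_zero]
    have h6 : ∏ i ∈ range n, (|c (j + 1 + (i + 1))| - 1) =
        ∏ i ∈ range n, (|c (j + 1 + 1 + i)| - 1) := by
      apply Finset.prod_congr rfl
      intro i _
      rw [show j + 1 + 1 + i = j + 1 + (i + 1) by ring]
    have h7 : 0 ≤ ∏ i ∈ range n, (|c (j + 1 + 1 + i)| - 1) := by
      apply Finset.prod_nonneg
      intro i hi
      rw [Finset.mem_range] at hi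
      have := h (j + 1 + 1 + i) (by omega) (by omega)
      linarith
    rw [h6, mul_assoc]
    apply mul_le_mul_of_nonneg_left _ h7
    exact mul_le_mul_of_nonneg_right a1 (abs_nonneg _)

/-- the factors -/
noncomputable def gf (c : ℕ → ℝ) (l θ : ℝ) (k : ℕ) : ℝ := if |c k| < l then θ / 2 else |c k| - 1

/-- critical times are isolated and nondegenerate -/
structure Iso (c : ℕ → ℝ) (l θ : ℝ) (w n k : ℕ) : Prop where
  left : 2 * w < k
  right : k + w ≤ n
  after : ∀ j, k < j → j ≤ k + 2 * w → j ≤ n → l ≤ |c j|
  before : ∀ j, j < k → k ≤ j + 2 * w → l ≤ |c j|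
  nondeg : θ ≤ |c k - ric c (k - w) 0 w - cf c w (k + 1)|

theorem grow {c D : ℕ → ℝ} {l θ : ℝ} {w n : ℕ} (hl : 4 ≤ l) (hw : 1 ≤ w)
    (hD0 : D 0 = 0) (hD1 : D 1 = 1) (hD : ∀ j, D (j + 2) = c (j + 1) * D (j + 1) - D j)
    (hθ : 0 < θ) (hθw : 2 < θ * ((l - 1) ^ 2) ^ w)
    (hcr : ∀ k, 1 ≤ k → k ≤ n → |c k| < l → Iso c l θ w n k) :
    ∏ k ∈ range n, gf c l θ (k + 1) ≤ |D (n + 1)| := by
  have hl1 : 3 ≤ l - 1 := by linarith
  have hlp : 0 < ((l - 1) ^ 2) ^ w := by positivity
  have gpos : ∀ k, 0 < gf c l θ k := by
    intro k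
    unfold gf
    split_ifs with h
    · positivity
    · rw [not_lt] at h
      linarith
  have prodpos : ∀ m, 0 < ∏ k ∈ range m, gf c l θ (k + 1) := fun m =>
    Finset.prod_pos fun k _ => gpos _
  have main : ∀ m, m ≤ n → (∀ k, 1 ≤ k → k ≤ m → |c k| < l → k + w ≤ m) →
      |D m| ≤ |D (m + 1)| ∧ ∏ k ∈ range m, gf c l θ (k + 1) ≤ |D (m + 1)| := by
    intro m
    induction m using Nat.strong_induction_on with
    | _ m ih =>
      intro hmn hno
      rcases Nat.eq_zero_or_pos m with h0 | h0
      · subst h0
        rw [hD0]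
        simp [hD1]
      obtain ⟨m', rfl⟩ : ∃ m', m = m' + 1 := ⟨m - 1, by omega⟩
      have hgood : l ≤ |c (m' + 1)| := by
        by_contra hcon
        rw [not_le] at hcon
        have := hno (m' + 1) (by omega) le_rfl hcon
        omega
      by_cases hprev : ∃ k, 1 ≤ k ∧ k ≤ m' ∧ |c k| < l ∧ m' < k + w
      · obtain ⟨k, hk1, hk2, hk3, hk4⟩ := hprev
        have hk5 := hno k hk1 (by omega) hk3
        have hkm : m' + 1 = k + w := by omega
        obtain ⟨i1, i2, i3, i4, i5⟩ := hcr k hk1 (by omega) hk3
        -- all `j` in `[k - w - 1, k - 1]`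
        have hP : ∀ j, k - w - 1 ≤ j → j < k → |D j| ≤ |D (j + 1)| ∧
            ∏ i ∈ range j, gf c l θ (i + 1) ≤ |D (j + 1)| := by
          intro j hj1 hj2
          apply ih j (by omega) (by omega)
          intro k' a1 a2 a3
          by_contra hcon
          have := i4 k' (by omega) (by omega)
          linarith
        have hDne : ∀ j, k - w - 1 ≤ j → j < k → D (j + 1) ≠ 0 := by
          intro j hj1 hj2
          have h1 := (hP j hj1 hj2).2
          have h2 := prodpos j
          exact abs_pos.1 (by linarith)
        -- the Riccati iterates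
        set r0 := D (k - w - 1) / D (k - w) with hr0
        have hric : ∀ i, i ≤ w → ric c (k - w) r0 i = D (k - w - 1 + i) / D (k - w + i) := by
          intro i
          induction i with
          | zero => intro _; rfl
          | succ i ihi =>
            intro hi
            have h1 := ihi (by omega)
            show 1 / (c (k - w + i) - ric c (k - w) r0 i) = _
            rw [h1]
            have e1 : k - w - 1 + (i + 1) = k - w + i := by omega
            have e2 : k - w + (i + 1) = (k - w - 1 + i) + 2 := by omega
            have e3 : k - w + i = (k - w - 1 + i) + 1 := by omega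
            have e4 := hD (k - w - 1 + i)
            have d1 := hDne (k - w - 1 + i) (by omega) (by omega)
            have d2 := hDne (k - w - 1 + i + 1) (by omega) (by omega)
            rw [e1, e2, e3, e4]
            rw [show k - w - 1 + i + 1 + 1 = k - w - 1 + i + 2 by ring, e4] at d2
            have d3 : c (k - w - 1 + i + 1) - D (k - w - 1 + i) / D (k - w - 1 + i + 1) ≠ 0 := by
              intro hz
              apply d2
              have := congrArg (· * D (k - w - 1 + i + 1)) hz
              simp only [sub_mul, zero_mul] at this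
              rw [div_mul_cancel₀ _ d1] at this
              exact this
            rw [div_eq_div_iff d3 d2]
            field_simp
        have hr0le : |r0| ≤ 1 := by
          have h1 := (hP (k - w - 1) le_rfl (by omega)).1
          have h2 := hDne (k - w - 1) le_rfl (by omega)
          have e : k - w - 1 + 1 = k - w := by omega
          rw [e] at h1 h2
          rw [hr0, abs_div, div_le_one (abs_pos.2 h2)]
          exact h1
        have hgoodpast : ∀ i, k - w ≤ i → i < k - w + w → l ≤ |c i| := by
          intro i a1 a2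
          exact i4 i (by omega) (by omega)
        have herr := ric_diff (c := c) hl (b := k - w) hr0le (r' := 0) (by simp) w hgoodpast
        have hrw := hric w le_rfl
        have e1 : k - w - 1 + w = k - 1 := by omega
        have e2 : k - w + w = k := by omega
        rw [e1, e2] at hrw
        have herr2 : |ric c (k - w) r0 w - ric c (k - w) 0 w| ≤ θ / 2 := by
          refine herr.trans ?_
          rw [sub_zero]
          calc |r0| * (1 / (l - 1) ^ 2) ^ w ≤ 1 * (1 / (l - 1) ^ 2) ^ w :=
                mul_le_mul_of_nonneg_right hr0le (by positivity)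
            _ = 1 / ((l - 1) ^ 2) ^ w := by rw [one_mul, div_pow, one_pow]
            _ ≤ θ / 2 := by
              rw [div_le_div_iff₀ hlp (by norm_num)]
              linarith
        set J := c k - ric c (k - w) r0 w - cf c w (k + 1) with hJ
        have hJθ : θ / 2 ≤ |J| := by
          have h1 : c k - ric c (k - w) 0 w - cf c w (k + 1) =
              J + (ric c (k - w) r0 w - ric c (k - w) 0 w) := by rw [hJ]; ring
          have h2 := abs_add_le J (ric c (k - w) r0 w - ric c (k - w) 0 w)
          rw [← h1] at h2
          linarith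
        have hDk : D k ≠ 0 := by
          have := hDne (k - 1) (by omega) (by omega)
          rwa [show k - 1 + 1 = k by omega] at this
        have hstep : D (k + 1) - cf c w (k + 1) * D k = D k * J := by
          have h1 := hD (k - 1)
          rw [show k - 1 + 2 = k + 1 by omega, show k - 1 + 1 = k by omega] at h1
          rw [h1, hJ, hrw]
          field_simp
        have hfut : ∀ i, k + 1 ≤ i → i < k + 1 + w → l ≤ |c i| := by
          intro i a1 a2
          exact i3 i (by omega) (by omega) (by omega)
        have hfor := forward hl hD w k hfut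
        rw [hstep, abs_mul] at hfor
        have hPk := hP (k - 1) (by omega) (by omega)
        rw [show k - 1 + 1 = k by omega] at hPk
        have hprod : ∏ i ∈ range (k + w), gf c l θ (i + 1) =
            (∏ i ∈ range (k - 1), gf c l θ (i + 1)) * (θ / 2) *
              ∏ i ∈ range w, (|c (k + 1 + i)| - 1) := by
          rw [Finset.prod_range_add]
          congr 1
          · conv_lhs => rw [show k = (k - 1) + 1 by omega]
            rw [Finset.prod_range_succ]
            congr 1
            rw [show k - 1 + 1 = k by omega]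
            unfold gf
            rw [if_pos hk3]
          · apply Finset.prod_congr rfl
            intro i hi
            rw [Finset.mem_range] at hi
            unfold gf
            rw [show k + i + 1 = k + 1 + i by ring]
            rw [if_neg (not_lt.2 (hfut (k + 1 + i) (by omega) (by omega)))]
        have hprodw : 0 ≤ ∏ i ∈ range w, (|c (k + 1 + i)| - 1) := by
          apply Finset.prod_nonneg
          intro i hi
          rw [Finset.mem_range] at hi
          have := hfut (k + 1 + i) (by omega) (by omega)
          linarith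
        have hlow : ∏ i ∈ range (k + w), gf c l θ (i + 1) ≤ |D (k + w + 1)| := by
          rw [hprod]
          refine le_trans ?_ hfor
          rw [mul_comm]
          apply mul_le_mul_of_nonneg_left _ hprodw
          exact mul_le_mul hPk.2 hJθ (by positivity) (abs_nonneg _)
        have hDkpos : 0 < |D k| := abs_pos.2 hDk
        refine ⟨?_, by rw [hkm]; exact hlow⟩
        rw [hkm]
        by_contra hcon
        rw [not_le] at hcon
        -- backwards growth
        have hback : ∀ i, i ≤ w → |D (k + w - i + 1)| ≤ |D (k + w - i)| ∧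
            (l - 1) ^ i * |D (k + w)| ≤ |D (k + w - i)| := by
          intro i
          induction i with
          | zero =>
            intro _
            simp only [Nat.sub_zero, pow_zero, one_mul]
            exact ⟨hcon.le, le_rfl⟩
          | succ i ihi =>
            intro hi
            obtain ⟨h1, h2⟩ := ihi (by omega)
            have h3 := hD (k + w - (i + 1))
            have e3 : k + w - (i + 1) + 1 = k + w - i := by omega
            have e4 : k + w - (i + 1) + 2 = k + w - i + 1 := by omega
            rw [e3, e4] at h3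
            have h4 := hfut (k + w - i) (by omega) (by omega)
            have h5 : D (k + w - (i + 1)) = c (k + w - i) * D (k + w - i) - D (k + w - i + 1) := by
              linarith
            have h6 : (l - 1) * |D (k + w - i)| ≤ |D (k + w - (i + 1))| := by
              rw [h5]
              have h7 := abs_sub_abs_le_abs_sub (c (k + w - i) * D (k + w - i)) (D (k + w - i + 1))
              rw [abs_mul] at h7
              have h8 := abs_nonneg (D (k + w - i))
              nlinarith
            rw [e3]
            constructor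
            · have h8 := abs_nonneg (D (k + w - i))
              nlinarith
            · rw [pow_succ]
              calc (l - 1) ^ i * (l - 1) * |D (k + w)| = (l - 1) * ((l - 1) ^ i * |D (k + w)|) := by
                    ring
                _ ≤ (l - 1) * |D (k + w - i)| := mul_le_mul_of_nonneg_left h2 (by linarith)
                _ ≤ _ := h6
        have hb := (hback w le_rfl).2
        rw [show k + w - w = k by omega] at hb
        have hpw : (l - 1) ^ w ≤ ∏ i ∈ range w, (|c (k + 1 + i)| - 1) := by
          calc (l - 1) ^ w = ∏ i ∈ range w, (l - 1) := by simp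
            _ ≤ _ := by
              apply Finset.prod_le_prod
              · intro i _; linarith
              · intro i hi
                rw [Finset.mem_range] at hi
                have := hfut (k + 1 + i) (by omega) (by omega)
                linarith
        have h1 : (l - 1) ^ w * (|D k| * (θ / 2)) ≤ |D (k + w + 1)| := by
          refine le_trans ?_ hfor
          apply mul_le_mul hpw _ (by positivity) hprodw
          exact mul_le_mul_of_nonneg_left hJθ (abs_nonneg _)
        have h2 : (l - 1) ^ w * ((l - 1) ^ w * (|D k| * (θ / 2))) < |D k| := by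
          refine lt_of_lt_of_le ?_ hb
          exact mul_lt_mul_of_pos_left (h1.trans_lt hcon) (by positivity)
        have h3 : (l - 1) ^ w * (l - 1) ^ w = ((l - 1) ^ 2) ^ w := by
          rw [← mul_pow]
          congr 1
          ring
        have h4 : |D k| < (l - 1) ^ w * ((l - 1) ^ w * (|D k| * (θ / 2))) := by
          have h5 : (l - 1) ^ w * ((l - 1) ^ w * (|D k| * (θ / 2))) =
              |D k| * (θ * ((l - 1) ^ 2) ^ w / 2) := by
            rw [← h3]; ring
          rw [h5]
          have h6 : 1 < θ * ((l - 1) ^ 2) ^ w / 2 := by linarith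
          nlinarith
        linarith
      · have hP := ih m' (by omega) (by omega) (by
          intro k a1 a2 a3
          by_contra hcon
          exact hprev ⟨k, a1, a2, a3, by omega⟩)
        have h1 := hD m'
        have h2 : (|c (m' + 1)| - 1) * |D (m' + 1)| ≤ |D (m' + 1 + 1)| := by
          show _ ≤ |D (m' + 2)|
          rw [h1]
          have h7 := abs_sub_abs_le_abs_sub (c (m' + 1) * D (m' + 1)) (D m')
          rw [abs_mul] at h7
          have := hP.1
          linarith
        constructor
        · have := abs_nonneg (D (m' + 1))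
          nlinarith
        · rw [Finset.prod_range_succ]
          have h3 : gf c l θ (m' + 1) = |c (m' + 1)| - 1 := by
            unfold gf
            rw [if_neg (not_lt.2 hgood)]
          rw [h3, mul_comm]
          refine le_trans ?_ h2
          exact mul_le_mul_of_nonneg_left hP.2 (by linarith)
  exact (main n le_rfl (fun k a1 a2 a3 => (hcr k a1 a2 a3).right)).2

end Pool.Agent.V8H61.SM
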