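import Pool.Agent.V8H61.SM.Sep
import Pool.Agent.V1152.SMIJ

set_option autoImplicit false

/-!
# The measure of the bad events on the torus
-/

namespace Pool.Agent.V8H61.SM

open Real Finset MeasureTheory Function Pool.Agent.TH705.SM
open Pool.Agent.V1152.SMI (cc cc_coe cc_cont)

/-- a set whose close points are very close has a small measure -/
theorem grid {B : Set ℝ} (hB : B ⊆ Set.Icc 0 1) {δ η : ℝ} (hδ : 0 < δ) (hη : 0 ≤ η)
    (h : ∀ t ∈ B, ∀ t' ∈ B, |t - t'| ≤ δ → |t - t'| ≤ η) :
    volume B ≤ ENNReal.ofReal ((1 / δ + 2) * (2 * η)) := by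
  set N := ⌊1 / δ⌋₊ + 1 with hN
  have hcov : B ⊆ ⋃ i ∈ Finset.range N, (B ∩ Set.Icc (i * δ) ((i + 1) * δ)) := by
    intro t ht
    obtain ⟨h0, h1⟩ := hB ht
    have hfl := Nat.floor_le (div_nonneg h0 hδ.le)
    have hlt := Nat.lt_floor_add_one (t / δ)
    rw [le_div_iff₀ hδ] at hfl
    rw [div_lt_iff₀ hδ] at hlt
    simp only [Set.mem_iUnion, Finset.mem_range]
    refine ⟨⌊t / δ⌋₊, ?_, ht, hfl, hlt.le⟩
    rw [hN]
    have : ⌊t / δ⌋₊ ≤ ⌊1 / δ⌋₊ := Nat.floor_mono (div_le_div_of_nonneg_right h1 hδ.le)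
    omega
  have hpiece : ∀ i ∈ Finset.range N, volume (B ∩ Set.Icc (i * δ) ((i + 1) * δ)) ≤
      ENNReal.ofReal (2 * η) := by
    intro i _
    rcases Set.eq_empty_or_nonempty (B ∩ Set.Icc (i * δ) ((i + 1) * δ)) with he | ⟨t0, ht0, ht1⟩
    · rw [he, measure_empty]; exact bot_le
    · have hsub : B ∩ Set.Icc (i * δ) ((i + 1) * δ) ⊆ Set.Icc (t0 - η) (t0 + η) := by
        rintro t ⟨ht, ht2⟩
        have h2 : |t - t0| ≤ δ := by
          rw [abs_le]
          constructor <;> nlinarith [ht1.1, ht1.2, ht2.1, ht2.2]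
        have h3 := h t ht t0 ht0 h2
        rw [abs_le] at h3
        exact ⟨by linarith [h3.1], by linarith [h3.2]⟩
      refine (measure_mono hsub).trans (le_of_eq ?_)
      rw [Real.volume_Icc]
      congr 1
      ring
  calc volume B ≤ volume (⋃ i ∈ Finset.range N, (B ∩ Set.Icc (i * δ) ((i + 1) * δ))) :=
        measure_mono hcov
    _ ≤ ∑ i ∈ Finset.range N, volume (B ∩ Set.Icc (i * δ) ((i + 1) * δ)) :=
        measure_biUnion_finset_le _ _
    _ ≤ ∑ i ∈ Finset.range N, ENNReal.ofReal (2 * η) := Finset.sum_le_sum hpiece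
    _ = ENNReal.ofReal (N * (2 * η)) := by
        rw [Finset.sum_const, Finset.card_range, nsmul_eq_mul,
          ENNReal.ofReal_mul (by positivity : (0:ℝ) ≤ (N:ℝ)), ENNReal.ofReal_natCast]
    _ ≤ _ := by
        apply ENNReal.ofReal_le_ofReal
        apply mul_le_mul_of_nonneg_right _ (by positivity)
        rw [hN]
        push_cast
        have := Nat.floor_le (by positivity : 0 ≤ 1 / δ)
        linarith

/-- forward continued fractions on the torus -/
noncomputable def qF (a : ℝ) : ℕ → T2 → ℝ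
  | 0, _ => 0
  | n + 1, p => 1 / (cc a p.1 - qF a n (S a p))

/-- backward continued fractions on the torus -/
noncomputable def qB (a : ℝ) : ℕ → T2 → ℝ
  | 0, _ => 0
  | n + 1, p => 1 / (cc a p.2 - qB a n (Si a p))

theorem qF_meas (a : ℝ) (n : ℕ) : Measurable (qF a n) := by
  induction n with
  | zero => exact measurable_const
  | succ n ih =>
    have h1 : Measurable fun p : T2 => cc a p.1 := ((cc_cont a).comp continuous_fst).measurable
    exact measurable_const.div (h1.sub (ih.comp (S_cont a).measurable))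

theorem qB_meas (a : ℝ) (n : ℕ) : Measurable (qB a n) := by
  induction n with
  | zero => exact measurable_const
  | succ n ih =>
    have h1 : Measurable fun p : T2 => cc a p.2 := ((cc_cont a).comp continuous_snd).measurable
    exact measurable_const.div (h1.sub (ih.comp (Si_cont a).measurable))

theorem S_X (a s t : ℝ) (j : ℕ) :
    S a ((X a s (j + 1) t : UnitAddCircle), (X a s j t : UnitAddCircle)) =
      ((X a s (j + 2) t : UnitAddCircle), (X a s (j + 1) t : UnitAddCircle)) := by
  rw [S_coe]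
  rfl

theorem Si_X (a s z : ℝ) (j : ℕ) :
    Si a ((X a s j z : UnitAddCircle), (X a s (j + 1) z : UnitAddCircle)) =
      ((X a s (j + 1) z : UnitAddCircle), (X a s (j + 2) z : UnitAddCircle)) := by
  rw [Si_coe]
  rfl

theorem qF_X (a s t : ℝ) (n : ℕ) : ∀ j,
    qF a n ((X a s (j + 1) t : UnitAddCircle), (X a s j t : UnitAddCircle)) =
      cf (cs a s t) n (j + 1) := by
  induction n with
  | zero => intro j; rfl
  | succ n ih =>
    intro j
    show 1 / (cc a (X a s (j + 1) t : UnitAddCircle) - qF a n (S a _)) = _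
    rw [S_X, ih (j + 1), cc_coe]
    rfl

theorem qB_X (a s z : ℝ) (n : ℕ) : ∀ j,
    qB a n ((X a s j z : UnitAddCircle), (X a s (j + 1) z : UnitAddCircle)) =
      cf (cs a s z) n (j + 1) := by
  induction n with
  | zero => intro j; rfl
  | succ n ih =>
    intro j
    show 1 / (cc a (X a s (j + 1) z : UnitAddCircle) - qB a n (Si a _)) = _
    rw [Si_X, ih (j + 1), cc_coe]
    rfl

theorem S_iter_X (a s t : ℝ) (i : ℕ) : (S a)^[i] ((t : UnitAddCircle), (s : UnitAddCircle)) =
    ((X a s (i + 1) t : UnitAddCircle), (X a s i t : UnitAddCircle)) := iter_coe a s t i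

theorem Si_iter_X (a s t : ℝ) (i : ℕ) : (Si a)^[i + 1] ((t : UnitAddCircle), (s : UnitAddCircle)) =
    ((X a s i (F a s - t) : UnitAddCircle), (X a s (i + 1) (F a s - t) : UnitAddCircle)) := by
  induction i with
  | zero =>
    rw [iterate_succ_apply', iterate_zero_apply, Si_coe]
    have e : 2 * s - t + a * sin (2 * π * s) = F a s - t := by unfold F; ring
    rw [e]
    rfl
  | succ i ih => rw [iterate_succ_apply', ih, Si_X]

/-- the bad set on the torus -/
def Bt (a l θ : ℝ) (w : ℕ) : Set T2 :=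
  {p | |cc a p.1| < l} ∩ (⋂ i ∈ Finset.range (w + 1), {p | l ≤ |cc a ((S a)^[i + 1] p).1|}) ∩
    {p | l ≤ |cc a p.2|} ∩ (⋂ i ∈ Finset.range w, {p | l ≤ |cc a ((Si a)^[i + 1] p).2|}) ∩
    {p | |cc a p.1 - qB a (w + 1) p - qF a (w + 1) (S a p)| < θ}

theorem Bt_meas (a l θ : ℝ) (w : ℕ) : MeasurableSet (Bt a l θ w) := by
  have hc1 : Measurable fun p : T2 => cc a p.1 := ((cc_cont a).comp continuous_fst).measurable
  have hc2 : Measurable fun p : T2 => cc a p.2 := ((cc_cont a).comp continuous_snd).measurable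
  have hS : ∀ i, Measurable ((S a)^[i]) := fun i => ((S_cont a).iterate i).measurable
  have hSi : ∀ i, Measurable ((Si a)^[i]) := fun i => ((Si_cont a).iterate i).measurable
  have habs : Measurable (fun x : ℝ => |x|) := measurable_id.abs
  refine ((((?_ : MeasurableSet _).inter ?_).inter ?_).inter ?_).inter ?_
  · exact measurableSet_lt (habs.comp hc1) measurable_const
  · refine MeasurableSet.biInter (Finset.countable_toSet _) fun i _ => ?_
    exact measurableSet_le measurable_const (habs.comp (hc1.comp (hS (i + 1))))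
  · exact measurableSet_le measurable_const (habs.comp hc2)
  · refine MeasurableSet.biInter (Finset.countable_toSet _) fun i _ => ?_
    exact measurableSet_le measurable_const (habs.comp (hc2.comp (hSi (i + 1))))
  · exact measurableSet_lt (habs.comp ((hc1.sub (qB_meas a (w + 1))).sub
      ((qF_meas a (w + 1)).comp (S_cont a).measurable))) measurable_const

theorem mem_Bt (a l θ : ℝ) (w : ℕ) (s t : ℝ) :
    ((t : UnitAddCircle), (s : UnitAddCircle)) ∈ Bt a l θ w ↔ BadF a l θ w s t := by
  have e1 : qF a (w + 1) (S a ((t : UnitAddCircle), (s : UnitAddCircle))) =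
      cf (cs a s t) (w + 1) 2 := by
    have h1 := S_X a s t 0
    have h2 := qF_X a s t (w + 1) 1
    have e : S a ((t : UnitAddCircle), (s : UnitAddCircle)) =
      ((X a s 2 t : UnitAddCircle), (X a s 1 t : UnitAddCircle)) := h1
    rw [e]
    exact h2
  have e2 : qB a (w + 1) ((t : UnitAddCircle), (s : UnitAddCircle)) =
      1 / (L a s - cf (cs a s (F a s - t)) w 1) := by
    show 1 / (cc a (s : UnitAddCircle) - qB a w (Si a _)) = _
    have h1 := Si_iter_X a s t 0
    rw [iterate_succ_apply, iterate_zero_apply] at h1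
    rw [h1, qB_X, cc_coe]
  unfold Bt
  simp only [Set.mem_inter_iff, Set.mem_iInter, Set.mem_ofPred_eq, Finset.mem_range]
  rw [e1, e2]
  simp only [S_iter_X, Si_iter_X, cc_coe]
  constructor
  · rintro ⟨⟨⟨⟨h1, h2⟩, h3⟩, h4⟩, h5⟩
    refine ⟨h1, ?_, h3, ?_, h5⟩
    · intro i a1 a2
      have := h2 (i - 2) (by omega)
      rwa [show i - 2 + 1 + 1 = i by omega] at this
    · intro i a1 a2
      have := h4 (i - 1) (by omega)
      rwa [show i - 1 + 1 = i by omega] at this
  · rintro ⟨h1, h2, h3, h4, h5⟩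
    refine ⟨⟨⟨⟨h1, ?_⟩, h3⟩, ?_⟩, h5⟩
    · intro i hi
      exact h2 (i + 1 + 1) (by omega) (by omega)
    · intro i hi
      exact h4 (i + 1) (by omega) (by omega)

/-- the measure of the bad set -/
theorem vol_Bt {a l : ℝ} {w : ℕ} (hl : 1000 ≤ l) (hla : l ≤ |a|)
    (hw : |a| ^ 6 * (l + 1) ≤ (l + 1) ^ w) :
    volume.real (Bt a l (1 / |a| ^ 9) w) ≤ 972 * (l + 1) / |a| ^ 3 := by
  have ha0 : 0 < |a| := by linarith
  have hl1 : 0 < l + 1 := by linarith
  have hm := Bt_meas a l (1 / |a| ^ 9) w
  set B := Bt a l (1 / |a| ^ 9) w with hB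
  set K := 972 * (l + 1) / |a| ^ 3 with hK
  have hK0 : 0 ≤ K := by positivity
  have h1 : volume.real B = ∫ p, B.indicator (fun _ => (1:ℝ)) p := by
    rw [integral_indicator hm]
    simp
  have hint : Integrable (B.indicator (fun _ => (1:ℝ))) (volume : Measure T2) :=
    (integrable_const 1).indicator hm
  rw [h1, int_T2 _ hint]
  have hfib : ∀ s : ℝ, ∫ t in (0:ℝ)..1, B.indicator (fun _ => (1:ℝ))
      ((t : UnitAddCircle), (s : UnitAddCircle)) ≤ K := by
    intro s
    set Bs : Set ℝ := {t | ((t : UnitAddCircle), (s : UnitAddCircle)) ∈ B} with hBs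
    have hBsm : MeasurableSet Bs := by
      have : Measurable fun t : ℝ => ((t : UnitAddCircle), (s : UnitAddCircle)) :=
        ((AddCircle.continuous_mk' 1).prodMk continuous_const).measurable
      exact this hm
    have e : ∀ t : ℝ, B.indicator (fun _ => (1:ℝ)) ((t : UnitAddCircle), (s : UnitAddCircle)) =
        Bs.indicator (fun _ => (1:ℝ)) t := by
      intro t
      by_cases h : t ∈ Bs
      · have h' : ((t : UnitAddCircle), (s : UnitAddCircle)) ∈ B := h
        rw [Set.indicator_of_mem h, Set.indicator_of_mem h']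
      · have h' : ((t : UnitAddCircle), (s : UnitAddCircle)) ∉ B := h
        rw [Set.indicator_of_notMem h, Set.indicator_of_notMem h']
    simp only [e]
    rw [intervalIntegral.integral_of_le zero_le_one, setIntegral_indicator hBsm]
    simp only [integral_const, MeasurableSet.univ, measureReal_restrict_apply, Set.univ_inter,
      smul_eq_mul, mul_one]
    have hg := grid (B := Set.Ioc 0 1 ∩ Bs) (δ := 1 / (80 * (l + 1) * |a| ^ 7))
      (η := 6 / |a| ^ 10)
      (fun t ht => Set.Ioc_subset_Icc_self ht.1) (by positivity) (by positivity)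
      (fun t ht t' ht' hd => sep hl hla hw ((mem_Bt a l _ w s t).1 ht.2)
        ((mem_Bt a l _ w s t').1 ht'.2) hd)
    have h3 : volume.real (Set.Ioc 0 1 ∩ Bs) ≤
        (1 / (1 / (80 * (l + 1) * |a| ^ 7)) + 2) * (2 * (6 / |a| ^ 10)) :=
      ENNReal.toReal_le_of_le_ofReal (by positivity) hg
    refine h3.trans ?_
    rw [one_div_one_div, hK]
    have h4 : 2 ≤ (l + 1) * |a| ^ 7 := by
      have : 1 ≤ |a| ^ 7 := one_le_pow₀ (by linarith)
      nlinarith
    calc (80 * (l + 1) * |a| ^ 7 + 2) * (2 * (6 / |a| ^ 10)) ≤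
        (81 * ((l + 1) * |a| ^ 7)) * (2 * (6 / |a| ^ 10)) := by
          apply mul_le_mul_of_nonneg_right _ (by positivity)
          linarith
      _ = _ := by
        field_simp
        norm_num
  -- the outer integral
  have hout : ∫ s in (0:ℝ)..1, ∫ t in (0:ℝ)..1, B.indicator (fun _ => (1:ℝ))
      ((t : UnitAddCircle), (s : UnitAddCircle)) ≤ ∫ s in (0:ℝ)..1, K := by
    by_cases hi : IntervalIntegrable (fun s : ℝ => ∫ t in (0:ℝ)..1, B.indicator (fun _ => (1:ℝ))
        ((t : UnitAddCircle), (s : UnitAddCircle))) volume 0 1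
    · exact intervalIntegral.integral_mono_on zero_le_one hi intervalIntegrable_const
        (fun s _ => hfib s)
    · rw [intervalIntegral.integral_undef hi]
      simp [hK0]
  refine hout.trans (le_of_eq ?_)
  simp

end Pool.Agent.V8H61.SM
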